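import Pool.Agent.Lib.MP_ac65b7_lc.KDef

/-!
# Unions of increasing families of nowhere dense sets in products
-/

set_option autoImplicit false
set_option linter.unusedSectionVars false

namespace Pool.Agent.IMinK

section

open FirstOrder Set Filter


variable {K : Type} [Field K] [LinearOrder K] [IsStrictOrderedRing K] [TopologicalSpace K]
  [OrderTopology K] [Str K] [hK : Res K]
variable {E F : Type} [TopologicalSpace E] [Coord K E] [TopologicalSpace F] [Coord K F]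

/-- Base points whose fibre contains an interval of length `ε` inside `[c, d]`. -/
def TT (A : Set (E × K)) (c d ε : K) : Set E :=
  {x | ∃ c', (c ≤ c' ∧ c' + ε ≤ d) ∧ ∀ z, c' ≤ z → z ≤ c' + ε → (x, z) ∈ A}

theorem TT_def {A : K → Set (E × K)} (hA : Def K fun p : K × (E × K) => p.2 ∈ A p.1) (c d : K) :
    Def K fun p : K × E => p.2 ∈ TT (A p.1) c d p.1 := by
  refine Def.ex (P := fun (p : K × E) c' => (c ≤ c' ∧ c' + p.1 ≤ d) ∧
    ∀ z, c' ≤ z → z ≤ c' + p.1 → (p.2, z) ∈ A p.1) ?_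
  refine Def.and (Def.and (Def.le (by fun_prop) (by fun_prop)) (Def.le (by fun_prop)
    (by fun_prop))) ?_
  refine Def.all (P := fun (p : (K × E) × K) z => p.2 ≤ z → z ≤ p.2 + p.1.1 →
    (p.1.2, z) ∈ A p.1.1) ?_
  refine Def.imp (Def.le (by fun_prop) (by fun_prop)) (Def.imp (Def.le (by fun_prop)
    (by fun_prop)) ?_)
  exact hA.comp (g := fun p : ((K × E) × K) × K => (p.1.1.1, (p.1.1.2, p.2))) (by fun_prop)

omit [Str K] hK in
variable (K) in
theorem exists_ball {S : Set E} (h : ¬ IsNowhereDense S) :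
    ∃ (x : E) (r : K), 0 < r ∧ ∀ y, near y x r → y ∈ closure S := by
  rw [IsNowhereDense, ← ne_eq, ← Set.nonempty_iff_ne_empty] at h
  obtain ⟨x, hx⟩ := h
  obtain ⟨r, hr, hb⟩ := (eventually_near K).mp (mem_interior_iff_mem_nhds.mp hx)
  exact ⟨x, r, hr, hb⟩

theorem TT_nd {A : Set (E × K)} (hAd : Def K fun p : E × K => p ∈ A) (hA : IsClosed A)
    (hint : interior A = ∅) {c d ε : K} (hε : 0 < ε) : IsNowhereDense (TT A c d ε) := by
  by_contra hcon
  obtain ⟨x₀, r, hr, hball⟩ := exists_ball K hcon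
  let B : Set (E × K) := {p | (c ≤ p.2 ∧ p.2 + ε ≤ d) ∧ ∀ z, p.2 ≤ z → z ≤ p.2 + ε → (p.1, z) ∈ A}
  have hB : Def K fun p : E × K => p ∈ B := by
    refine Def.and (Def.and (Def.le (by fun_prop) (by fun_prop)) (Def.le (by fun_prop)
      (by fun_prop))) ?_
    refine Def.all (P := fun (p : E × K) z => p.2 ≤ z → z ≤ p.2 + ε → (p.1, z) ∈ A) ?_
    refine Def.imp (Def.le (by fun_prop) (by fun_prop)) (Def.imp (Def.le (by fun_prop)
      (by fun_prop)) ?_)
    exact hAd.comp (g := fun p : (E × K) × K => (p.1.1, p.2)) (by fun_prop)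
  obtain ⟨O', hO', ⟨x₁, hx₁⟩, -, -, a, ha⟩ := loc hB (R := max |c| |d|)
    (fun x z hz i => by
      have h2 : z + ε ≤ d := hz.1.2
      have h3 : z ≤ d := by linarith
      exact abs_le_max_abs_abs hz.1.1 h3) (isOpen_near x₀ r)
    (Def.ball x₀ r) ⟨x₀, near.refl x₀ hr⟩ (fun O' h1 h2 h3 => by
      obtain ⟨y, hy⟩ := h2
      obtain ⟨x, hx, c', hc'⟩ := mem_closure_iff.mp (hball y (h3 hy)) O' h1 hy
      exact ⟨x, hx, c', hc'⟩) (show 0 < ε / 4 by positivity)
  have hsub : O' ×ˢ Ioo (a + ε / 4) (a + 3 * ε / 4) ⊆ A := by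
    rintro ⟨x, z⟩ ⟨hx, hz⟩
    have hz1 : a + ε / 4 < z := hz.1
    have hz2 : z < a + 3 * ε / 4 := hz.2
    rw [← hA.closure_eq, mem_closure_near K]
    intro η hη
    obtain ⟨x', hx', c', hc', hnear⟩ := ha (O' ∩ {y | near y x η}) (hO'.inter (isOpen_near x η))
      ⟨x, hx, near.refl x hη⟩ inter_subset_left
    rw [near_self, abs_lt] at hnear
    refine ⟨(x', z), hc'.2 z (by linarith [hnear.2]) (by linarith [hnear.1]), ?_⟩
    exact near_prod.mpr ⟨hx'.2, near.refl z hη⟩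
  have h1 := interior_maximal hsub (hO'.prod isOpen_Ioo)
  rw [hint] at h1
  exact h1 (show (x₁, a + ε / 2) ∈ _ from ⟨hx₁, by constructor <;> linarith⟩)

theorem SB_prod (hE : SB K E) : SB K (E × K) := by
  intro A0 hA0 hnd0 hmono0
  -- pass to closures
  set A : K → Set (E × K) := fun ε => closure (A0 ε) with hAdef
  have hA : Def K fun p : K × (E × K) => p.2 ∈ A p.1 := by
    refine Def.closure (S := fun p : K × (E × K) => A0 p.1) ?_ (by fun_prop)
    exact hA0.comp (g := fun p : (K × (E × K)) × (E × K) => (p.1.1, p.2)) (by fun_prop)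
  have hA1 : ∀ ε, Def K fun p : E × K => p ∈ A ε := fun ε =>
    hA.comp (g := fun p : E × K => (ε, p)) (by fun_prop)
  have hcl : ∀ ε, IsClosed (A ε) := fun ε => isClosed_closure
  have hint : ∀ ε, 0 < ε → interior (A ε) = ∅ := fun ε hε => hnd0 ε hε
  have hmono : ∀ ε ε', 0 < ε → ε ≤ ε' → A ε' ⊆ A ε := fun ε ε' h1 h2 =>
    closure_mono (hmono0 ε ε' h1 h2)
  suffices hmain : IsNowhereDense {x | ∃ ε, 0 < ε ∧ x ∈ A ε} by
    refine hmain.mono ?_
    rintro x ⟨ε, hε, hx⟩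
    exact ⟨ε, hε, subset_closure hx⟩
  by_contra hcon
  set AA : Set (E × K) := {x | ∃ ε, 0 < ε ∧ x ∈ A ε} with hAA
  obtain ⟨⟨x₀, z₀⟩, r, hr, hball⟩ := exists_ball K hcon
  set c : K := z₀ - r / 2 with hc
  set d : K := z₀ + r / 2 with hd
  have hcd : c < d := by linarith
  have hWcl : ∀ x z, near x x₀ r → c < z → z < d → (x, z) ∈ closure AA := by
    intro x z hx h1 h2
    refine hball _ (near_prod.mpr ⟨hx, ?_⟩)
    rw [near_self, abs_lt]
    constructor <;> linarith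
  -- fibres have empty interior
  have hT := hE (fun ε => TT (A ε) c d ε) (TT_def hA c d)
    (fun ε hε => TT_nd (hA1 ε) (hcl ε) (hint ε hε) hε) ?_
  swap
  · rintro ε ε' h0 h1 x ⟨c', ⟨k1, k2⟩, k3⟩
    exact ⟨c', ⟨k1, by linarith⟩, fun z hz1 hz2 => hmono ε ε' h0 h1 (k3 z hz1 (by linarith))⟩
  obtain ⟨W, hWo, ⟨x₁, hx₁⟩, hWW, hWd⟩ := exists_open_disjoint hT (isOpen_near x₀ r)
    ⟨x₀, near.refl x₀ hr⟩
  obtain ⟨r₁, hr₁, hball₁⟩ := (eventually_near K).mp (hWo.mem_nhds hx₁)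
  have hfib : ∀ x ∈ W, IsNowhereDense {z | ∃ ε, 0 < ε ∧ z ∈ Icc c d ∩ {z | (x, z) ∈ A ε}} := by
    intro x hx
    refine SB_line (fun ε => Icc c d ∩ {z | (x, z) ∈ A ε}) ?_ ?_ ?_
    · refine Def.and (Def.and ?_ ?_) ?_
      · exact Def.le (by fun_prop) (by fun_prop)
      · exact Def.le (by fun_prop) (by fun_prop)
      · exact hA.comp (g := fun p : K × K => (p.1, (x, p.2))) (by fun_prop)
    · intro ε hε
      by_contra hnn
      obtain ⟨u, v, huv, huvs⟩ := exists_Icc_of_not_nowhereDense hnn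
      have hclo : IsClosed (Icc c d ∩ {z | (x, z) ∈ A ε}) :=
        isClosed_Icc.inter ((hcl ε).preimage (by fun_prop))
      rw [hclo.closure_eq] at huvs
      have h0 : 0 < min ε (v - u) := lt_min hε (by linarith)
      have h1 := min_le_right ε (v - u)
      refine Set.disjoint_left.mp hWd hx ⟨min ε (v - u), h0, u, ⟨?_, ?_⟩, ?_⟩
      · exact (huvs ⟨le_rfl, huv.le⟩).1.1
      · have := (huvs ⟨huv.le, le_rfl⟩).1.2
        linarith
      · intro z hz1 hz2
        exact hmono _ ε h0 (min_le_left _ _) (huvs ⟨hz1, by linarith⟩).2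
    · rintro ε ε' h0 h1 z ⟨hz1, hz2⟩
      exact ⟨hz1, hmono ε ε' h0 h1 hz2⟩
  -- intervals missed by the fibres
  let B : K → Set (E × K) := fun η => {p | near p.1 x₁ r₁ ∧ (c < p.2 ∧ p.2 + η < d) ∧
    ∀ z, p.2 ≤ z → z ≤ p.2 + η → ∀ ε, 0 < ε → (p.1, z) ∉ A ε}
  have hB : Def K fun p : K × (E × K) => p.2 ∈ B p.1 := by
    refine Def.and (Def.near (by fun_prop) (by fun_prop) (by fun_prop)) (Def.and (Def.and
      (Def.lt (by fun_prop) (by fun_prop)) (Def.lt (by fun_prop) (by fun_prop))) ?_)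
    refine Def.all (P := fun (p : K × (E × K)) z => p.2.2 ≤ z → z ≤ p.2.2 + p.1 →
      ∀ ε, 0 < ε → (p.2.1, z) ∉ A ε) ?_
    refine Def.imp (Def.le (by fun_prop) (by fun_prop)) (Def.imp (Def.le (by fun_prop)
      (by fun_prop)) ?_)
    refine Def.all (P := fun (p : (K × (E × K)) × K) ε => 0 < ε → (p.1.2.1, p.2) ∉ A ε) ?_
    refine Def.imp (Def.lt (by fun_prop) (by fun_prop)) (Def.not ?_)
    exact hA.comp (g := fun p : ((K × (E × K)) × K) × K => (p.2, (p.1.1.2.1, p.1.2)))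
      (by fun_prop)
  obtain ⟨η, hη, hηnd⟩ : ∃ η, 0 < η ∧ ¬ IsNowhereDense {x | ∃ p, (x, p) ∈ B η} := by
    by_contra hcon2
    push Not at hcon2
    have h1 := hE (fun η => {x | ∃ p, (x, p) ∈ B η}) ?_ (fun η hη => hcon2 η hη) ?_
    · have h2 : {x | near x x₁ r₁} ⊆ {x | ∃ ε, 0 < ε ∧ x ∈ {x | ∃ p, (x, p) ∈ B ε}} := by
        intro x hx
        have hxW : x ∈ W := hball₁ x hx
        obtain ⟨O, hOo, ⟨w, hw⟩, hOs, hOd⟩ := exists_open_disjoint (hfib x hxW)
          (isOpen_Ioo (a := c) (b := d)) (nonempty_Ioo.mpr hcd)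
        obtain ⟨ρ, hρ, hbρ⟩ := (eventually_near K).mp (hOo.mem_nhds hw)
        have h3 : ∀ z, w - ρ / 4 ≤ z → z ≤ w - ρ / 4 + ρ / 2 → z ∈ O := by
          intro z h1 h2
          refine hbρ z ?_
          rw [near_self, abs_lt]
          constructor <;> linarith
        refine ⟨ρ / 2, half_pos hρ, w - ρ / 4, hx, ⟨?_, ?_⟩, ?_⟩
        · exact (hOs (h3 (w - ρ / 4) le_rfl (by linarith))).1
        · exact (hOs (h3 (w - ρ / 4 + ρ / 2) (by linarith) le_rfl)).2
        · intro z h1 h2 ε hε hmem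
          have hzO := h3 z h1 h2
          exact Set.disjoint_left.mp hOd hzO ⟨ε, hε, Ioo_subset_Icc_self (hOs hzO), hmem⟩
      have h3 := h1.mono h2
      rw [IsNowhereDense] at h3
      have h4 := interior_maximal subset_closure (isOpen_near x₁ r₁)
      rw [h3] at h4
      exact h4 (near.refl x₁ hr₁)
    · refine Def.ex (P := fun (p : K × E) q => (p.2, q) ∈ B p.1) ?_
      exact hB.comp (g := fun p : (K × E) × K => (p.1.1, (p.1.2, p.2))) (by fun_prop)
    · rintro η η' h0 h1 x ⟨p, hp1, ⟨hp2, hp3⟩, hp4⟩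
      refine ⟨p, hp1, ⟨hp2, ?_⟩, fun z hz1 hz2 => hp4 z hz1 ?_⟩
      · change p + η < d
        change p + η' < d at hp3
        linarith
      · change z ≤ p + η'
        change z ≤ p + η at hz2
        linarith
  obtain ⟨x₂, r₂, hr₂, hball₂⟩ := exists_ball K hηnd
  obtain ⟨O', hO', hO'ne, hO'O, hO'd, a, ha⟩ := loc (B := B η) (R := max |c| |d|)
    (hB.comp (g := fun p : E × K => (η, p)) (by fun_prop))
    (fun x z hz i => by
      have h2 : z + η < d := hz.2.1.2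
      have h3 : z ≤ d := by linarith
      exact abs_le_max_abs_abs hz.2.1.1.le h3)
    (isOpen_near x₂ r₂) (Def.ball x₂ r₂) ⟨x₂, near.refl x₂ hr₂⟩ (fun O' h1 h2 h3 => by
      obtain ⟨y, hy⟩ := h2
      obtain ⟨x, hx, p, hp⟩ := mem_closure_iff.mp (hball₂ y (h3 hy)) O' h1 hy
      exact ⟨x, hx, p, hp⟩) (show 0 < η / 4 by positivity)
  set p₀ : K := a + η / 4 with hp₀
  set q₀ : K := a + 3 * η / 4 with hq₀
  -- the projection
  let Q : K → Set E := fun ε => {x | ∃ z, (p₀ ≤ z ∧ z ≤ q₀) ∧ (x, z) ∈ A ε}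
  let P : Set E := {x | ∃ ε, 0 < ε ∧ x ∈ Q ε}
  have hQdef : Def K fun w : K × E => w.2 ∈ Q w.1 := by
    refine Def.ex (P := fun (w : K × E) z => (p₀ ≤ z ∧ z ≤ q₀) ∧ (w.2, z) ∈ A w.1) ?_
    refine Def.and (Def.and ?_ ?_) ?_
    · exact Def.le (by fun_prop) (by fun_prop)
    · exact Def.le (by fun_prop) (by fun_prop)
    · exact hA.comp (g := fun w : (K × E) × K => (w.1.1, (w.1.2, w.2))) (by fun_prop)
  have hPdef : Def K fun x : E => x ∈ P := by
    refine Def.ex (P := fun (x : E) ε => 0 < ε ∧ x ∈ Q ε) ?_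
    refine Def.and (Def.lt (by fun_prop) (by fun_prop)) ?_
    exact hQdef.comp (g := fun w : E × K => (w.2, w.1)) (by fun_prop)
  have hPnd : IsNowhereDense (P \ interior P) := by
    have h1 := hE (fun ε => Q ε \ interior P) ?_ ?_ ?_
    · refine h1.mono ?_
      rintro x ⟨⟨ε, hε, hx⟩, hx2⟩
      exact ⟨ε, hε, hx, hx2⟩
    · refine Def.and hQdef (Def.not ?_)
      refine Def.interior (S := fun _ : K × E => P) ?_ (by fun_prop)
      exact hPdef.comp (g := fun w : (K × E) × E => w.2) (by fun_prop)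
    · intro ε hε
      exact nd_sdiff_interior (isClosed_proj (hA1 ε) (hcl ε) p₀ q₀) fun x hx => ⟨ε, hε, hx⟩
    · rintro ε ε' h0 h1 x ⟨⟨z, hz, hx⟩, hx2⟩
      exact ⟨⟨z, hz, hmono ε ε' h0 h1 hx⟩, hx2⟩
  obtain ⟨V, hVo, ⟨y, hy⟩, hVs, hVd⟩ := exists_open_disjoint hPnd hO' hO'ne
  -- a point of `V` in the interior of `P`
  obtain ⟨y', hy', p', hp', hnear'⟩ := ha V hVo ⟨y, hy⟩ hVs
  rw [near_self, abs_lt] at hnear'
  have hab1 : c < a + η / 2 := by
    have := hp'.2.1.1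
    change c < p' at this
    linarith [hnear'.2]
  have hab2 : a + η / 2 < d := by
    have := hp'.2.1.2
    change p' + η < d at this
    linarith [hnear'.1]
  have hy'W : near y' x₀ r := hWW (hball₁ y' hp'.1)
  obtain ⟨⟨x, z⟩, ⟨hxV, hz1, hz2⟩, ε, hε, hxz⟩ := mem_closure_iff.mp
    (hWcl y' (a + η / 2) hy'W hab1 hab2) (V ×ˢ Ioo p₀ q₀) (hVo.prod isOpen_Ioo)
    ⟨hy', by constructor <;> linarith⟩
  have hxP : x ∈ P := ⟨ε, hε, z, ⟨hz1.le, hz2.le⟩, hxz⟩
  have hxint : x ∈ interior P := by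
    by_contra hni
    exact Set.disjoint_left.mp hVd hxV ⟨hxP, hni⟩
  obtain ⟨x', hx', p, hp, hnear⟩ := ha (V ∩ interior P) (hVo.inter isOpen_interior)
    ⟨x, hxV, hxint⟩ (inter_subset_left.trans hVs)
  rw [near_self, abs_lt] at hnear
  obtain ⟨ε', hε', z', ⟨hz1', hz2'⟩, hmem⟩ := interior_subset hx'.2
  exact hp.2.2 z' (by change p ≤ z'; linarith [hnear.2]) (by change z' ≤ p + η; linarith [hnear.1])
    ε' hε' hmem

end

/-!
# Definable families of closed sets are nice over a dense open definable set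
-/

section

open FirstOrder Set Filter


variable {K : Type} [Field K] [LinearOrder K] [IsStrictOrderedRing K] [TopologicalSpace K]
  [OrderTopology K] [Str K] [hK : Res K]
variable {E : Type} [TopologicalSpace E] [Coord K E]

/-- The fibres of `N`. -/
def fib (N : Set (E × K)) (x : E) : Set K := {z | (x, z) ∈ N}

/-- The gaps of length at least `θ`. -/
def GG (N : Set (E × K)) (θ : K) (x : E) : Set (K × K) :=
  {g | Gap (fib N x) g.1 g.2 ∧ θ ≤ g.2 - g.1}

/-- Closed definable subsets of `E × [-1, 1]` with empty interior that contain `E × {±1}`. -/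
structure BaseFam (N : Set (E × K)) : Prop where
  def' : Def K fun p : E × K => p ∈ N
  closed : IsClosed N
  int : interior N = ∅
  bdd : ∀ x z, (x, z) ∈ N → |z| ≤ 1
  one : ∀ x, (x, 1) ∈ N
  neg_one : ∀ x, (x, -1) ∈ N

variable (K) in
/-- `U` is open, dense and definable. -/
structure ODD (U : Set E) : Prop where
  isOpen : IsOpen U
  dense : Dense U
  def' : Def K fun x : E => x ∈ U

theorem ODD.inter {U V : Set E} (hU : ODD K U) (hV : ODD K V) : ODD K (U ∩ V) :=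
  ⟨hU.isOpen.inter hV.isOpen, hU.dense.inter_of_isOpen_left hV.dense hU.isOpen,
    hU.def'.and hV.def'⟩

theorem ODD.univ : ODD K (Set.univ : Set E) := ⟨isOpen_univ, dense_univ, Def.const True⟩

theorem ODD.of_nd {S : Set E} (hS : IsNowhereDense S) (hd : Def K fun x : E => x ∈ S) :
    ODD K (closure S)ᶜ := by
  refine ⟨isClosed_closure.isOpen_compl, ?_, ?_⟩
  · rw [← interior_eq_empty_iff_dense_compl]
    exact hS
  · refine Def.not (Def.closure (S := fun _ : E => S) ?_ (by fun_prop))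
    exact hd.comp (g := fun p : E × E => p.2) (by fun_prop)

omit [Str K] hK in
theorem closed_of_disc {S : Set K} {s : K} (hs : 0 < s)
    (h : ∀ θ ∈ S, ∀ θ' ∈ S, |θ - θ'| < s → θ = θ') : IsClosed S := by
  rw [← isOpen_compl_iff, isOpen_iff_mem_nhds]
  intro θ hθ
  by_cases hex : ∃ θ₁ ∈ S, |θ₁ - θ| < s / 2
  · obtain ⟨θ₁, hθ₁, hlt⟩ := hex
    have hne : θ₁ ≠ θ := fun h => hθ (h ▸ hθ₁)
    have hpos : 0 < min (s / 2) |θ₁ - θ| :=
      lt_min (half_pos hs) (abs_pos.mpr (sub_ne_zero.mpr hne))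
    refine (eventually_near K).mpr ⟨_, hpos, fun θ' hθ' hmem => ?_⟩
    rw [near_self] at hθ'
    have h1 := hθ'.trans_le (min_le_left _ _)
    have h2 := hθ'.trans_le (min_le_right _ _)
    have h3 : θ' = θ₁ := by
      refine h θ' hmem θ₁ hθ₁ ?_
      calc |θ' - θ₁| ≤ |θ' - θ| + |θ - θ₁| := abs_sub_le _ _ _
        _ < s := by rw [abs_sub_comm θ]; linarith
    rw [h3] at h2
    exact lt_irrefl _ h2
  · push Not at hex
    refine (eventually_near K).mpr ⟨s / 2, half_pos hs, fun θ' hθ' hmem => ?_⟩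
    rw [near_self] at hθ'
    exact absurd hθ' (not_lt.mpr (hex θ' hmem))

/-- Threshold systems. -/
structure Thr (T : K → Set K) : Prop where
  def' : Def K fun p : K × K => p.2 ∈ T p.1
  mono : ∀ ζ ζ', 0 < ζ → ζ ≤ ζ' → T ζ' ⊆ T ζ
  nonneg : ∀ ζ, 0 < ζ → ∀ θ ∈ T ζ, 0 ≤ θ
  le_two : ∀ ζ, 0 < ζ → ∀ θ ∈ T ζ, θ ≤ 2
  disc : ∀ ζ, 0 < ζ → ∃ s : K, 0 < s ∧ ∀ θ ∈ T ζ, ∀ θ' ∈ T ζ, |θ - θ'| < s → θ = θ'
  ne : ∀ ζ, 0 < ζ → ∃ ζ', 0 < ζ' ∧ ζ' ≤ ζ ∧ (T ζ').Nonempty

/-- Good behaviour of the fibres of `N` and of their gaps over `U`. -/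
structure Nice (N : Set (E × K)) (T : K → Set K) (U : Set E) : Prop where
  lsc : ∀ x ∈ U, ∀ z, (x, z) ∈ N → ∀ ε : K, 0 < ε → ∀ᶠ x' in nhds x, ∃ z', (x', z') ∈ N ∧
    |z' - z| < ε
  int : ∀ x ∈ U, interior (fib N x) = ∅
  gcl : ∀ ζ, 0 < ζ → ∀ θ ∈ T ζ, ∀ x ∈ U, ∀ g, g ∉ GG N θ x →
    ∀ᶠ p : E × (K × K) in nhds (x, g), p.2 ∉ GG N θ p.1
  glsc : ∀ ζ, 0 < ζ → ∀ θ ∈ T ζ, ∀ x ∈ U, ∀ g ∈ GG N θ x, ∀ ε : K, 0 < ε →
    ∀ᶠ x' in nhds x, ∃ g' ∈ GG N θ x', near g' g ε
  small : ∀ x ∈ U, ∀ g : K × K, Gap (fib N x) g.1 g.2 → ∃ ζ, 0 < ζ ∧ ∃ θ ∈ T ζ, g ∈ GG N θ x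

theorem gap_closed_at {N : Set (E × K)} (hcl : IsClosed N) {x : E}
    (hl : ∀ z, (x, z) ∈ N → ∀ δ : K, 0 < δ → ∀ᶠ x' in nhds x, ∃ z', (x', z') ∈ N ∧ |z' - z| < δ)
    {θ : K} (hθ : 0 < θ) {g : K × K} (hg : g ∉ GG N θ x) :
    ∀ᶠ p : E × (K × K) in nhds (x, g), p.2 ∉ GG N θ p.1 := by
  obtain ⟨a, c⟩ := g
  by_cases h1 : ((x, a) ∈ N ∧ (x, c) ∈ N) ∧ θ ≤ c - a
  · have h2 : ∃ z, a < z ∧ z < c ∧ (x, z) ∈ N := by
      by_contra hcon
      push Not at hcon
      exact hg ⟨⟨by linarith [h1.2], h1.1.1, h1.1.2, hcon⟩, h1.2⟩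
    obtain ⟨z, hz1, hz2, hz⟩ := h2
    set δ := min (z - a) (c - z) / 2 with hδ
    have hδ0 : 0 < δ := by
      have := lt_min (show 0 < z - a by linarith) (show 0 < c - z by linarith)
      positivity
    have k1 : δ ≤ (z - a) / 2 := by
      have := min_le_left (z - a) (c - z)
      linarith
    have k2 : δ ≤ (c - z) / 2 := by
      have := min_le_right (z - a) (c - z)
      linarith
    have e1 : ∀ᶠ p : E × (K × K) in nhds (x, a, c), ∃ z', (p.1, z') ∈ N ∧ |z' - z| < δ :=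
      (continuous_fst.tendsto (x, (a, c))).eventually (hl z hz δ hδ0)
    have e2 : ∀ᶠ p : E × (K × K) in nhds (x, a, c), p.2.1 < z - δ := by
      refine (isOpen_lt (by fun_prop) (by fun_prop)).mem_nhds ?_
      change a < z - δ
      linarith
    have e3 : ∀ᶠ p : E × (K × K) in nhds (x, a, c), z + δ < p.2.2 := by
      refine (isOpen_lt (by fun_prop) (by fun_prop)).mem_nhds ?_
      change z + δ < c
      linarith
    filter_upwards [e1, e2, e3] with p hp1 hp2 hp3 hpG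
    obtain ⟨z', hz', hd⟩ := hp1
    rw [abs_lt] at hd
    exact hpG.1.2.2.2 z' (by linarith) (by linarith) hz'
  · have hcl1 : IsClosed {p : E × (K × K) | (p.1, p.2.1) ∈ N} := hcl.preimage (by fun_prop)
    have hcl2 : IsClosed {p : E × (K × K) | (p.1, p.2.2) ∈ N} := hcl.preimage (by fun_prop)
    have hcl3 : IsClosed {p : E × (K × K) | θ ≤ p.2.2 - p.2.1} :=
      isClosed_le (by fun_prop) (by fun_prop)
    have h2 := ((hcl1.inter hcl2).inter hcl3).isOpen_compl.mem_nhds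
      (x := (x, (a, c))) (fun h => h1 ⟨⟨h.1.1, h.1.2⟩, h.2⟩)
    filter_upwards [h2] with p hp hpG
    exact hp ⟨⟨hpG.1.2.1, hpG.1.2.2.1⟩, hpG.2⟩

theorem BaseFam.fib_def {N : Set (E × K)} (hN : BaseFam N) (x : E) :
    Def K fun z : K => z ∈ fib N x :=
  Def.comp (P := fun p : E × K => p ∈ N) hN.def' (g := fun z : K => (x, z)) (by fun_prop)

theorem BaseFam.fib_closed {N : Set (E × K)} (hN : BaseFam N) (x : E) : IsClosed (fib N x) :=
  hN.closed.preimage (f := fun z : K => (x, z)) (by fun_prop)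

theorem gap_persist {N : Set (E × K)} (hN : BaseFam N) {x : E}
    (hl : ∀ z, (x, z) ∈ N → ∀ δ : K, 0 < δ → ∀ᶠ x' in nhds x, ∃ z', (x', z') ∈ N ∧ |z' - z| < δ)
    {a c : K} (hg : Gap (fib N x) a c) {δ : K} (hδ : 0 < δ) :
    ∀ᶠ x' in nhds x, ∃ a' c', Gap (fib N x') a' c' ∧ |a' - a| < δ ∧ |c' - c| < δ := by
  set ρ := min δ ((c - a) / 4) with hρ
  have hac := hg.1
  have hρ0 : 0 < ρ := lt_min hδ (by linarith)
  have hρ1 : ρ ≤ δ := min_le_left _ _
  have hρ2 : ρ ≤ (c - a) / 4 := min_le_right _ _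
  have e3 : ∀ᶠ x' in nhds x, ∀ z, a + ρ ≤ z → z ≤ c - ρ → (x', z) ∉ N := by
    by_contra hcon
    rw [eventually_near K] at hcon
    push Not at hcon
    have hcl2 : IsClosed {p : E × K | a + ρ ≤ p.2 ∧ p.2 ≤ c - ρ} :=
      (isClosed_le (by fun_prop) (by fun_prop)).inter (isClosed_le (by fun_prop) (by fun_prop))
    have key := cluster_graph (S := N ∩ {p : E × K | a + ρ ≤ p.2 ∧ p.2 ≤ c - ρ}) (x₀ := x) (R := 1)
      (hN.def'.and (Def.and (Def.le (by fun_prop) (by fun_prop)) (Def.le (by fun_prop)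
        (by fun_prop)))) (fun x z hz _ => hN.bdd x z hz.1) (fun ε hε => by
        obtain ⟨x', hx', z, hz1, hz2, hz3⟩ := hcon ε hε
        exact ⟨x', z, hx', hz3, hz1, hz2⟩)
    obtain ⟨z, hz⟩ := key
    rw [(hN.closed.inter hcl2).closure_eq] at hz
    obtain ⟨hz1, hz2, hz3⟩ := hz
    change a + ρ ≤ z at hz2
    change z ≤ c - ρ at hz3
    exact hg.2.2.2 z (by linarith) (by linarith) hz1
  filter_upwards [hl a hg.2.1 ρ hρ0, hl c hg.2.2.1 ρ hρ0, e3] with x' h1 h2 h3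
  obtain ⟨a₁, ha₁, hda⟩ := h1
  obtain ⟨c₁, hc₁, hdc⟩ := h2
  rw [abs_lt] at hda hdc
  obtain ⟨a', c', hg', k1, k2, k3, k4⟩ := gap_exists (w := (a + c) / 2) (hN.fib_def x')
    (hN.fib_closed x') ha₁ hc₁ (h3 _ (by linarith) (by linarith)) (by linarith) (by linarith)
  have k5 : a' < a + ρ := by
    by_contra hcon
    push Not at hcon
    exact h3 a' hcon (by linarith) hg'.2.1
  have k6 : c - ρ < c' := by
    by_contra hcon
    push Not at hcon
    exact h3 c' (by linarith) hcon hg'.2.2.1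
  refine ⟨a', c', hg', ?_, ?_⟩
  · rw [abs_lt]
    constructor <;> linarith
  · rw [abs_lt]
    constructor <;> linarith

/-- First reduction: the fibres have empty interior and vary lower semicontinuously. -/
theorem exists_lsc (hSB : SB K E) {N : Set (E × K)} (hN : BaseFam N) :
    ∃ U : Set E, ODD K U ∧ (∀ x ∈ U, interior (fib N x) = ∅) ∧
      ∀ x ∈ U, ∀ z, (x, z) ∈ N → ∀ δ : K, 0 < δ → ∀ᶠ x' in nhds x, ∃ z', (x', z') ∈ N ∧
        |z' - z| < δ := by
  let Q : K → Set E := fun ε => {x | ∃ z, (x, z) ∈ N ∧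
    ¬ ∀ᶠ x' in nhds x, ∃ z', (x', z') ∈ N ∧ |z' - z| < ε}
  have hQdef : Def K fun p : K × E => p.2 ∈ Q p.1 := by
    refine Def.ex (P := fun (p : K × E) z => (p.2, z) ∈ N ∧
      ¬ ∀ᶠ x' in nhds p.2, ∃ z', (x', z') ∈ N ∧ |z' - z| < p.1) ?_
    refine Def.and ?_ (Def.not ?_)
    · exact hN.def'.comp (g := fun p : (K × E) × K => (p.1.2, p.2)) (by fun_prop)
    · refine Def.eventually (P := fun (p : (K × E) × K) (x' : E) =>
        ∃ z', (x', z') ∈ N ∧ |z' - p.2| < p.1.1) (g := fun p => p.1.2) ?_ (by fun_prop)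
      refine Def.ex (P := fun (p : ((K × E) × K) × E) z' =>
        (p.2, z') ∈ N ∧ |z' - p.1.2| < p.1.1.1) ?_
      refine Def.and ?_ (Def.lt (by fun_prop) (by fun_prop))
      exact hN.def'.comp (g := fun p : (((K × E) × K) × E) × K => (p.1.2, p.2)) (by fun_prop)
  have hQnd : ∀ ε, 0 < ε → IsNowhereDense (Q ε) := by
    intro ε hε
    have h1 := nd_not_lsc (X := E) (Z := K) isOpen_univ (Def.const True) (F := fib N)
      (R := 1) ?_ (fun x _ z hz _ => hN.bdd x z hz) ?_ hε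
    · refine h1.mono ?_
      rintro x ⟨z, hz, hnot⟩
      refine ⟨Set.mem_univ x, z, hz, fun hcon => hnot ?_⟩
      filter_upwards [hcon] with x' hx'
      obtain ⟨z', hz', hd⟩ := hx'
      exact ⟨z', hz', near_self.mp hd⟩
    · exact hN.def'.comp (g := fun p : E × K => (p.1, p.2)) (by fun_prop)
    · intro x _ z hz
      exact hN.closed.isOpen_compl.mem_nhds (x := (x, z)) hz
  let Bad : K → Set E := fun ε => TT N (-1) 1 ε ∪ Q ε
  have hT : Def K fun p : K × E => p.2 ∈ TT N (-1) 1 p.1 :=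
    TT_def (A := fun _ => N) (hN.def'.comp (g := fun p : K × (E × K) => p.2) (by fun_prop)) (-1) 1
  have hBad := hSB Bad (Def.or hT hQdef)
    (fun ε hε => nd_union (TT_nd hN.def' hN.closed hN.int hε) (hQnd ε hε)) ?_
  · refine ⟨_, ODD.of_nd hBad ?_, ?_, ?_⟩
    · refine Def.ex (P := fun (x : E) ε => 0 < ε ∧ x ∈ Bad ε) ?_
      refine Def.and (Def.lt (by fun_prop) (by fun_prop)) ?_
      exact (Def.or hT hQdef).comp (g := fun p : E × K => (p.2, p.1)) (by fun_prop)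
    · intro x hx
      by_contra hne
      rw [← ne_eq, ← Set.nonempty_iff_ne_empty] at hne
      obtain ⟨z, hz⟩ := hne
      rw [mem_interior_iff_mem_nhds] at hz
      obtain ⟨ρ, hρ, hball⟩ := (eventually_near K).mp hz
      have hsub : ∀ w, z - ρ / 2 ≤ w → w ≤ z + ρ / 2 → (x, w) ∈ N := by
        intro w hw1 hw2
        refine hball w ?_
        rw [near_self, abs_lt]
        constructor <;> linarith
      have h1 := abs_le.mp (hN.bdd x _ (hsub (z - ρ / 2) le_rfl (by linarith)))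
      have h2 := abs_le.mp (hN.bdd x _ (hsub (z + ρ / 2) (by linarith) le_rfl))
      exact hx (subset_closure ⟨ρ, hρ, Or.inl ⟨z - ρ / 2, ⟨h1.1, by linarith [h2.2]⟩,
        fun w hw1 hw2 => hsub w hw1 (by linarith)⟩⟩)
    · intro x hx z hz δ hδ
      by_contra hcon
      exact hx (subset_closure ⟨δ, hδ, Or.inr ⟨z, hz, hcon⟩⟩)
  · rintro ε ε' h0 h1 x (⟨c', ⟨k1, k2⟩, k3⟩ | ⟨z, hz, hnot⟩)
    · exact Or.inl ⟨c', ⟨k1, by linarith⟩, fun w hw1 hw2 => k3 w hw1 (by linarith)⟩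
    · refine Or.inr ⟨z, hz, fun hcon => hnot ?_⟩
      filter_upwards [hcon] with x' hx'
      obtain ⟨z', hz', hd⟩ := hx'
      exact ⟨z', hz', hd.trans_le h1⟩

theorem GG_def {N : Set (E × K)} (hN : BaseFam N) :
    Def K fun p : (K × E) × (K × K) => p.2 ∈ GG N p.1.1 p.1.2 := by
  refine Def.and ?_ (Def.le (by fun_prop) (by fun_prop))
  refine Def.gap (S := fun p : (K × E) × (K × K) => fib N p.1.2) ?_ (by fun_prop) (by fun_prop)
  exact Def.comp (P := fun p : E × K => p ∈ N) hN.def'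
    (g := fun q : ((K × E) × (K × K)) × K => (q.1.1.2, q.2)) (by fun_prop)

theorem GG_bdd {N : Set (E × K)} (hN : BaseFam N) {θ : K} {x : E} {g : K × K}
    (hg : g ∈ GG N θ x) : |g.1| ≤ 1 ∧ |g.2| ≤ 1 ∧ θ ≤ 2 := by
  have h1 := hN.bdd x _ hg.1.2.1
  have h2 := hN.bdd x _ hg.1.2.2.1
  refine ⟨h1, h2, ?_⟩
  have := hg.2
  rw [abs_le] at h1 h2
  linarith [h1.1, h2.2]

/-- Second reduction. -/
theorem exists_nice (hSB : SB K E) {N : Set (E × K)} (hN : BaseFam N) :
    ∃ T : K → Set K, Thr T ∧ ∃ U : Set E, ODD K U ∧ Nice N T U := by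
  obtain ⟨U₁, hU₁, hint, hlsc⟩ := exists_lsc hSB hN
  by_cases hsc : ∃ Δ : Set K, IsScale Δ
  · obtain ⟨Δ, hΔ⟩ := hsc
    let T : K → Set K := fun ζ => {θ | θ ∈ Δ ∧ ζ ≤ θ ∧ θ ≤ 2}
    have hTdef : Def K fun p : K × K => p.2 ∈ T p.1 := by
      refine Def.and ?_ (Def.and (Def.le (by fun_prop) (by fun_prop)) (Def.le (by fun_prop)
        (by fun_prop)))
      exact hΔ.def'.comp (g := fun p : K × K => p.2) (by fun_prop)
    have hTdisc : ∀ ζ, 0 < ζ → ∃ s : K, 0 < s ∧ ∀ θ ∈ T ζ, ∀ θ' ∈ T ζ, |θ - θ'| < s → θ = θ' := by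
      intro ζ hζ
      obtain ⟨s, hs, h⟩ := hΔ.disc ζ hζ
      exact ⟨s, hs, fun θ hθ θ' hθ' => h θ hθ.1 θ' hθ'.1 hθ.2.1 hθ'.2.1⟩
    have hT : Thr T := by
      refine ⟨hTdef, ?_, ?_, ?_, hTdisc, ?_⟩
      · rintro ζ ζ' _ hle θ ⟨h1, h2, h3⟩
        exact ⟨h1, hle.trans h2, h3⟩
      · rintro ζ _ θ ⟨h1, _⟩
        exact (hΔ.pos θ h1).le
      · rintro ζ _ θ ⟨_, _, h3⟩
        exact h3
      · intro ζ hζ
        obtain ⟨δ, hδ, hlt⟩ := hΔ.acc (min ζ 2) (lt_min hζ two_pos)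
        exact ⟨δ, hΔ.pos δ hδ, (hlt.trans_le (min_le_left _ _)).le, δ, hδ, le_rfl,
          (hlt.trans_le (min_le_right _ _)).le⟩
    let F : K → E → Set (K × (K × K)) := fun ε x => {q | q.1 ∈ T ε ∧ q.2 ∈ GG N q.1 x}
    have hFdef : Def K fun p : (K × E) × (K × (K × K)) => p.2 ∈ F p.1.1 p.1.2 := by
      refine Def.and ?_ ?_
      · exact hTdef.comp (g := fun p : (K × E) × (K × (K × K)) => (p.1.1, p.2.1)) (by fun_prop)
      · exact (GG_def hN).comp (g := fun p : (K × E) × (K × (K × K)) =>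
          ((p.2.1, p.1.2), p.2.2)) (by fun_prop)
    let Q : K → Set E := fun ε => {x | x ∈ U₁ ∧ ∃ q : K × (K × K), (q.1 ∈ T ε ∧ q.2 ∈ GG N q.1 x) ∧
      ¬ ∀ᶠ x' in nhds x, ∃ g' : K × K, g' ∈ GG N q.1 x' ∧ near g' q.2 ε}
    have hQdef : Def K fun p : K × E => p.2 ∈ Q p.1 := by
      refine Def.and (hU₁.def'.comp (g := fun p : K × E => p.2) (by fun_prop)) ?_
      refine Def.ex (P := fun (p : K × E) (q : K × (K × K)) => (q.1 ∈ T p.1 ∧ q.2 ∈ GG N q.1 p.2) ∧
        ¬ ∀ᶠ x' in nhds p.2, ∃ g' : K × K, g' ∈ GG N q.1 x' ∧ near g' q.2 p.1) ?_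
      refine Def.and hFdef (Def.not ?_)
      refine Def.eventually (P := fun (p : (K × E) × (K × (K × K))) (x' : E) => ∃ g' : K × K,
        g' ∈ GG N p.2.1 x' ∧ near g' p.2.2 p.1.1) (g := fun p => p.1.2) ?_ (by fun_prop)
      refine Def.ex (P := fun (p : ((K × E) × (K × (K × K))) × E) (g' : K × K) =>
        g' ∈ GG N p.1.2.1 p.2 ∧ near g' p.1.2.2 p.1.1.1) ?_
      refine Def.and ?_ (Def.near (by fun_prop) (by fun_prop) (by fun_prop))
      exact (GG_def hN).comp (g := fun p : (((K × E) × (K × (K × K))) × E) × (K × K) =>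
        ((p.1.1.2.1, p.1.2), p.2)) (by fun_prop)
    have hQnd : ∀ ε, 0 < ε → IsNowhereDense (Q ε) := by
      intro ε hε
      obtain ⟨s, hs, hsep⟩ := hTdisc ε hε
      have hTcl : IsClosed (T ε) := closed_of_disc hs hsep
      have hε' : 0 < min ε s := lt_min hε hs
      have h1 := nd_not_lsc (X := E) (Z := K × (K × K)) hU₁.isOpen hU₁.def' (F := F ε) (R := 2)
        ?_ ?_ ?_ hε'
      · refine h1.mono ?_
        rintro x ⟨hx, q, hq, hnot⟩
        refine ⟨hx, q, hq, fun hcon => hnot ?_⟩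
        filter_upwards [hcon] with x' hx'
        obtain ⟨q', hq', hd⟩ := hx'
        obtain ⟨hd1, hd2⟩ := near_prod.mp hd
        have e : q'.1 = q.1 := hsep _ hq'.1 _ hq.1 ((near_self.mp hd1).trans_le (min_le_right _ _))
        refine ⟨q'.2, ?_, hd2.mono (min_le_left _ _)⟩
        rw [← e]
        exact hq'.2
      · exact hFdef.comp (g := fun p : E × (K × (K × K)) => ((ε, p.1), p.2)) (by fun_prop)
      · rintro x _ q ⟨hq1, hq2⟩ i
        obtain ⟨k1, k2, _⟩ := GG_bdd hN hq2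
        rcases i with i | i | i
        · change |q.1| ≤ 2
          rw [abs_of_nonneg (hT.nonneg ε hε _ hq1)]
          exact hq1.2.2
        · exact k1.trans one_le_two
        · exact k2.trans one_le_two
      · intro x hx q hq
        by_cases hq1 : q.1 ∈ T ε
        · have hq2 : q.2 ∉ GG N q.1 x := fun h => hq ⟨hq1, h⟩
          have h2 := gap_closed_at hN.closed (hlsc x hx) (hΔ.pos _ hq1.1) hq2
          have h3 : ∀ᶠ p : E × (K × (K × K)) in nhds (x, q), p.2.2 ∉ GG N q.1 p.1 := by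
            have hc : Continuous fun p : E × (K × (K × K)) => (p.1, p.2.2) := by fun_prop
            exact (hc.tendsto (x, q)).eventually h2
          have h4 : ∀ᶠ p : E × (K × (K × K)) in nhds (x, q), near p.2.1 q.1 s := by
            have hc : Continuous fun p : E × (K × (K × K)) => p.2.1 := by fun_prop
            exact (hc.tendsto (x, q)).eventually (near_mem_nhds q.1 hs)
          filter_upwards [h3, h4] with p hp1 hp2 hpF
          have e : p.2.1 = q.1 := hsep _ hpF.1 _ hq1 (near_self.mp hp2)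
          apply hp1
          rw [← e]
          exact hpF.2
        · have hc : Continuous fun p : E × (K × (K × K)) => p.2.1 := by fun_prop
          filter_upwards [(hc.tendsto (x, q)).eventually (hTcl.isOpen_compl.mem_nhds hq1)]
            with p hp hpF
          exact hp hpF.1
    have hBad := hSB Q hQdef hQnd ?_
    · refine ⟨T, hT, U₁ ∩ (closure {x | ∃ ε, 0 < ε ∧ x ∈ Q ε})ᶜ, hU₁.inter (ODD.of_nd hBad ?_), ?_⟩
      · refine Def.ex (P := fun (x : E) ε => 0 < ε ∧ x ∈ Q ε) ?_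
        refine Def.and (Def.lt (by fun_prop) (by fun_prop)) ?_
        exact hQdef.comp (g := fun p : E × K => (p.2, p.1)) (by fun_prop)
      · refine ⟨fun x hx => hlsc x hx.1, fun x hx => hint x hx.1, ?_, ?_, ?_⟩
        · intro ζ hζ θ hθ x hx g hg
          exact gap_closed_at hN.closed (hlsc x hx.1) (hΔ.pos _ hθ.1) hg
        · intro ζ hζ θ hθ x hx g hg ε hε
          by_contra hcon
          have hε' : 0 < min ε ζ := lt_min hε hζ
          refine hx.2 (subset_closure ⟨min ε ζ, hε', hx.1, (θ, g),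
            ⟨⟨hθ.1, (min_le_right _ _).trans hθ.2.1, hθ.2.2⟩, hg⟩, fun h => hcon ?_⟩)
          filter_upwards [h] with x' hx'
          obtain ⟨g', hg', hd⟩ := hx'
          exact ⟨g', hg', hd.mono (min_le_left _ _)⟩
        · intro x hx g hg
          obtain ⟨δ, hδ, hlt⟩ := hΔ.acc (g.2 - g.1) (by linarith [hg.1])
          have hmem : g ∈ GG N δ x := ⟨hg, hlt.le⟩
          exact ⟨δ, hΔ.pos δ hδ, δ, ⟨hδ, le_rfl, (GG_bdd hN hmem).2.2⟩, hmem⟩
    · rintro ε ε' h0 h1 x ⟨hx, q, ⟨⟨hq1, hq2, hq3⟩, hq4⟩, hnot⟩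
      refine ⟨hx, q, ⟨⟨hq1, h1.trans hq2, hq3⟩, hq4⟩, fun hcon => hnot ?_⟩
      filter_upwards [hcon] with x' hx'
      obtain ⟨g', hg', hd⟩ := hx'
      exact ⟨g', hg', hd.mono h1⟩
  · -- no scale
    have hT : Thr (fun _ : K => ({0} : Set K)) := by
      refine ⟨?_, fun _ _ _ _ => subset_rfl, ?_, ?_, ?_, ?_⟩
      · exact Def.eq (by fun_prop) (by fun_prop)
      · rintro ζ _ θ rfl
        exact le_rfl
      · rintro ζ _ θ rfl
        exact zero_le_two
      · intro ζ _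
        refine ⟨1, one_pos, ?_⟩
        rintro θ rfl θ' rfl _
        rfl
      · intro ζ hζ
        exact ⟨ζ, hζ, le_rfl, 0, rfl⟩
    let G : K → Set E := fun ε => {x | x ∈ U₁ ∧ ∀ g : K × K, Gap (fib N x) g.1 g.2 → ε ≤ g.2 - g.1}
    have hGdef : Def K fun p : K × E => p.2 ∈ G p.1 := by
      refine Def.and (hU₁.def'.comp (g := fun p : K × E => p.2) (by fun_prop)) ?_
      refine Def.all (P := fun (p : K × E) (g : K × K) =>
        Gap (fib N p.2) g.1 g.2 → p.1 ≤ g.2 - g.1) ?_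
      refine Def.imp ?_ (Def.le (by fun_prop) (by fun_prop))
      refine Def.gap (S := fun q : (K × E) × (K × K) => fib N q.1.2) ?_ (by fun_prop) (by fun_prop)
      exact Def.comp (P := fun p : E × K => p ∈ N) hN.def'
        (g := fun q : ((K × E) × (K × K)) × K => (q.1.1.2, q.2)) (by fun_prop)
    have hGmono : ∀ ε ε', ε ≤ ε' → G ε' ⊆ G ε := fun ε ε' h x hx =>
      ⟨hx.1, fun g hg => h.trans (hx.2 g hg)⟩
    have hGcl : ∀ ε, closure (G ε) ∩ U₁ ⊆ G ε := by
      rintro ε x ⟨hx, hxU⟩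
      refine ⟨hxU, fun g hg => ?_⟩
      by_contra hcon
      push Not at hcon
      have h0 : 0 < (ε - (g.2 - g.1)) / 2 := by linarith
      obtain ⟨x', hx1, a', c', hg', k1, k2⟩ := ((mem_closure_iff_frequently.mp hx).and_eventually
        (gap_persist hN (hlsc x hxU) hg h0)).exists
      have := hx1.2 (a', c') hg'
      rw [abs_lt] at k1 k2
      simp only [] at this
      linarith [k1.1, k2.2]
    let V : Set E := {x | ∃ ε : K, 0 < ε ∧ x ∈ interior (G ε)}
    have hVo : IsOpen V := by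
      have e : V = ⋃ ε : K, ⋃ _ : 0 < ε, interior (G ε) := by
        ext x
        simp [V]
      rw [e]
      exact isOpen_iUnion fun ε => isOpen_iUnion fun _ => isOpen_interior
    have hVU : V ⊆ U₁ := by
      rintro x ⟨ε, _, hx⟩
      exact (interior_subset hx).1
    have hfin : ∀ x ∈ U₁, ∃ ε : K, 0 < ε ∧ x ∈ G ε := by
      intro x hx
      obtain ⟨s, hs, h⟩ := unif_disc hsc (hN.fib_def x) (R := 1) (fun z hz => hN.bdd x z hz)
      exact ⟨s, hs, hx, fun g hg => h g.1 g.2 hg⟩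
    have hVd : Dense V := by
      rw [dense_iff_inter_open]
      intro O hO hOne
      by_contra hcon
      rw [Set.not_nonempty_iff_eq_empty] at hcon
      obtain ⟨x₀, hx₀O, hx₀U⟩ := hU₁.dense.inter_open_nonempty O hO hOne
      obtain ⟨r, hr, hball⟩ := (eventually_near K).mp ((hO.inter hU₁.isOpen).mem_nhds
        (show x₀ ∈ O ∩ U₁ from ⟨hx₀O, hx₀U⟩))
      have h1 := hSB (fun ε => {x | near x x₀ r ∧ x ∈ G ε}) ?_ ?_ ?_
      · have h2 : {x | near x x₀ r} ⊆ {x | ∃ ε : K, 0 < ε ∧ x ∈ {x | near x x₀ r ∧ x ∈ G ε}} := by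
          intro x hx
          obtain ⟨ε, hε, hxG⟩ := hfin x (hball x hx).2
          exact ⟨ε, hε, hx, hxG⟩
        have h3 := h1.mono h2
        rw [IsNowhereDense] at h3
        have h4 := interior_maximal subset_closure (isOpen_near x₀ r)
        rw [h3] at h4
        exact h4 (near.refl x₀ hr)
      · exact Def.and (Def.near (by fun_prop) (by fun_prop) (by fun_prop)) hGdef
      · intro ε hε
        by_contra hnn
        obtain ⟨y, ρ, hρ, hy⟩ := exists_ball K hnn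
        obtain ⟨w, hw1, hw2, hw3⟩ := mem_closure_iff.mp (hy y (near.refl y hρ)) _
          (isOpen_near y ρ) (near.refl y hρ)
        have hwV : w ∈ V := by
          refine ⟨ε, hε, ?_⟩
          rw [mem_interior_iff_mem_nhds]
          filter_upwards [(isOpen_near y ρ).mem_nhds hw1, (isOpen_near x₀ r).mem_nhds hw2]
            with w' h1 h2
          refine hGcl ε ⟨?_, (hball w' h2).2⟩
          exact closure_mono (fun v hv => hv.2) (hy w' h1)
        have : w ∈ O ∩ V := ⟨(hball w hw2).1, hwV⟩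
        rw [hcon] at this
        exact this
      · rintro ε ε' h0 h1 x ⟨hx1, hx2⟩
        exact ⟨hx1, hGmono ε ε' h1 hx2⟩
    refine ⟨fun _ => {0}, hT, V, ⟨hVo, hVd, ?_⟩, ?_⟩
    · refine Def.ex (P := fun (x : E) ε => 0 < ε ∧ x ∈ interior (G ε)) ?_
      refine Def.and (Def.lt (by fun_prop) (by fun_prop)) ?_
      refine Def.interior (S := fun p : E × K => G p.2) ?_ (by fun_prop)
      exact hGdef.comp (g := fun p : (E × K) × E => (p.1.2, p.2)) (by fun_prop)
    · refine ⟨fun x hx => hlsc x (hVU hx), fun x hx => hint x (hVU hx), ?_, ?_, ?_⟩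
      · rintro ζ hζ θ rfl x ⟨ε, hε, hx⟩ g hg
        have hg' : g ∉ GG N ε x := fun h => hg ⟨h.1, hε.le.trans h.2⟩
        have h1 := gap_closed_at hN.closed (hlsc x (interior_subset hx).1) hε hg'
        have h2 : ∀ᶠ p : E × (K × K) in nhds (x, g), p.1 ∈ interior (G ε) :=
          (continuous_fst.tendsto (x, g)).eventually (isOpen_interior.mem_nhds hx)
        filter_upwards [h1, h2] with p hp1 hp2 hpG
        exact hp1 ⟨hpG.1, (interior_subset hp2).2 _ hpG.1⟩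
      · rintro ζ hζ θ rfl x hx g hg ε hε
        filter_upwards [gap_persist hN (hlsc x (hVU hx)) hg.1 hε] with x' hx'
        obtain ⟨a', c', k1, k2, k3⟩ := hx'
        refine ⟨(a', c'), ⟨k1, ?_⟩, near_prod.mpr ⟨near_self.mpr k2, near_self.mpr k3⟩⟩
        have := k1.1
        change 0 ≤ c' - a'
        linarith
      · intro x hx g hg
        exact ⟨1, one_pos, 0, rfl, hg, by linarith [hg.1]⟩

end

end Pool.Agent.IMinK
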