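import Mathlib

/-!
# Definability over expansions of ordered fields, for spaces with finitely many coordinates
-/

set_option autoImplicit false
set_option linter.unusedSectionVars false

namespace Pool.Agent.IMinK

/-! ### Shortcut instances (they only speed up instance search) -/

section Shortcuts

variable (K : Type) [Field K] [LinearOrder K] [IsStrictOrderedRing K]

scoped instance (priority := 3000) sc1 : IsOrderedRing K := inferInstance
scoped instance (priority := 3000) sc2 : IsOrderedAddMonoid K := inferInstance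
scoped instance (priority := 3000) sc3 : AddLeftMono K := inferInstance
scoped instance (priority := 3000) sc4 : AddRightMono K := inferInstance
scoped instance (priority := 3000) sc5 : ZeroLEOneClass K := inferInstance
scoped instance (priority := 3000) sc6 : AddLeftStrictMono K := inferInstance
scoped instance (priority := 3000) sc7 : AddRightStrictMono K := inferInstance
scoped instance (priority := 3000) sc8 : PosMulMono K := inferInstance
scoped instance (priority := 3000) sc9 : MulPosMono K := inferInstance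
scoped instance (priority := 3000) sc10 : PosMulStrictMono K := inferInstance
scoped instance (priority := 3000) sc11 : MulPosStrictMono K := inferInstance
scoped instance (priority := 3000) sc12 : CharZero K := inferInstance
scoped instance (priority := 3000) sc13 : NoMaxOrder K := inferInstance
scoped instance (priority := 3000) sc14 : NoMinOrder K := inferInstance
scoped instance (priority := 3000) sc15 : DenselyOrdered K := inferInstance

variable [TopologicalSpace K] [OrderTopology K]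

scoped instance (priority := 3000) sc16 : T2Space K := inferInstance
scoped instance (priority := 3000) sc17 : ContinuousAdd K := inferInstance
scoped instance (priority := 3000) sc18 : ContinuousSub K := inferInstance
scoped instance (priority := 3000) sc19 : ContinuousMul K := inferInstance

end Shortcuts

section

open FirstOrder Set


/-- A first-order structure on `K`. -/
class Str (K : Type) where
  /-- the language -/
  L : FirstOrder.Language.{0, 0}
  /-- the structure -/
  str : L.Structure K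

attribute [instance, reducible] Str.str

/-- Spaces with finitely many coordinates in `K`. -/
class Coord (K : Type) [TopologicalSpace K] (E : Type) [TopologicalSpace E] where
  /-- index set of the coordinates -/
  ι : Type
  fin : Finite ι
  /-- the coordinates -/
  e : E ≃ₜ (ι → K)

attribute [instance] Coord.fin

instance instCoordSelf (K : Type) [TopologicalSpace K] : Coord K K :=
  ⟨Unit, inferInstance, (Homeomorph.funUnique Unit K).symm⟩

instance instCoordProd (K : Type) [TopologicalSpace K] (E F : Type) [TopologicalSpace E]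
    [TopologicalSpace F] [Coord K E] [Coord K F] : Coord K (E × F) :=
  ⟨Coord.ι K E ⊕ Coord.ι K F, inferInstance,
    ((Coord.e (K := K) (E := E)).prodCongr (Coord.e (K := K) (E := F))).trans
      (Homeomorph.sumArrowHomeomorphProdArrow).symm⟩

instance instCoordPi (K : Type) [TopologicalSpace K] (m : ℕ) : Coord K (Fin m → K) :=
  ⟨Fin m, inferInstance, Homeomorph.refl _⟩

section Basic

variable (K : Type) [TopologicalSpace K] [Str K]
variable {E F G : Type} [TopologicalSpace E] [TopologicalSpace F] [TopologicalSpace G]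
variable [Coord K E] [Coord K F] [Coord K G]

/-- Definable predicates. -/
def Def (P : E → Prop) : Prop :=
  (univ : Set K).Definable (Str.L K)
    {v : Coord.ι K E → K | P ((Coord.e (K := K) (E := E)).symm v)}

/-- Definable functions. -/
@[fun_prop]
def DefFun (g : E → F) : Prop := Def K fun p : E × F => g p.1 = p.2

variable {K}

theorem Def.congr {P Q : E → Prop} (hP : Def K P) (h : ∀ x, P x ↔ Q x) : Def K Q := by
  have : P = Q := funext fun x => propext (h x)
  rwa [← this]

theorem Def.and {P Q : E → Prop} (hP : Def K P) (hQ : Def K Q) : Def K fun x => P x ∧ Q x :=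
  Set.Definable.inter hP hQ

theorem Def.or {P Q : E → Prop} (hP : Def K P) (hQ : Def K Q) : Def K fun x => P x ∨ Q x :=
  Set.Definable.union hP hQ

theorem Def.not {P : E → Prop} (hP : Def K P) : Def K fun x => ¬ P x :=
  Set.Definable.compl hP

theorem Def.imp {P Q : E → Prop} (hP : Def K P) (hQ : Def K Q) : Def K fun x => P x → Q x :=
  (hP.not.or hQ).congr fun x => by tauto

theorem Def.iff {P Q : E → Prop} (hP : Def K P) (hQ : Def K Q) : Def K fun x => (P x ↔ Q x) :=
  ((hP.imp hQ).and (hQ.imp hP)).congr fun x => by tauto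

theorem Def.const (p : Prop) : Def K fun _ : E => p := by
  by_cases hp : p
  · have h := Set.definable_univ (A := (univ : Set K)) (L := Str.L K) (α := Coord.ι K E)
    have e : (Set.univ : Set (Coord.ι K E → K)) = {v | p} := by
      ext v
      simp [hp]
    rwa [e] at h
  · have h := Set.definable_empty (A := (univ : Set K)) (L := Str.L K) (α := Coord.ι K E)
    have e : (∅ : Set (Coord.ι K E → K)) = {v | p} := by
      ext v
      simp [hp]
    rwa [e] at h

theorem Def.ex {P : E → F → Prop} (hP : Def K fun p : E × F => P p.1 p.2) :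
    Def K fun x => ∃ y, P x y := by
  have h := Set.Definable.exists_of_finite (α := Coord.ι K E) (β := Coord.ι K F) hP
  unfold Def
  convert h using 1
  ext v
  simp only [Set.mem_ofPred_eq]
  constructor
  · rintro ⟨y, hy⟩
    refine ⟨Coord.e (K := K) y, ?_⟩
    have e1 : (Coord.e (K := K) (E := E × F)).symm (Sum.elim v (Coord.e (K := K) y)) =
        ((Coord.e (K := K) (E := E)).symm v, y) := by
      rw [Homeomorph.symm_apply_eq]
      change _ = Homeomorph.sumArrowHomeomorphProdArrow.symm _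
      ext i
      rcases i with i | i
      · change v i = (Coord.e (K := K) ((Coord.e (K := K) (E := E)).symm v)) i
        rw [Homeomorph.apply_symm_apply]
      · rfl
    change P ((Coord.e (K := K) (E := E × F)).symm (Sum.elim v (Coord.e (K := K) y))).1
      ((Coord.e (K := K) (E := E × F)).symm (Sum.elim v (Coord.e (K := K) y))).2
    rw [e1]
    exact hy
  · rintro ⟨u, hu⟩
    refine ⟨(Coord.e (K := K) (E := F)).symm u, ?_⟩
    exact hu

theorem Def.all {P : E → F → Prop} (hP : Def K fun p : E × F => P p.1 p.2) :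
    Def K fun x => ∀ y, P x y :=
  (Def.ex (P := fun x y => ¬ P x y) hP.not).not.congr fun x => by
    push Not
    rfl

theorem Def.finite_all {κ : Type} [Finite κ] {P : κ → E → Prop} (hP : ∀ i, Def K (P i)) :
    Def K fun x => ∀ i, P i x := by
  have h := Set.definable_iInter_of_finite hP
  unfold Def
  convert h using 1
  ext v
  simp

theorem Def.finite_ex {κ : Type} [Finite κ] {P : κ → E → Prop} (hP : ∀ i, Def K (P i)) :
    Def K fun x => ∃ i, P i x := by
  have h := Set.definable_iUnion_of_finite hP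
  unfold Def
  convert h using 1
  ext v
  simp

variable (K) in
/-- Maps that select coordinates. -/
def IsCoordMap (g : E → F) : Prop :=
  ∃ σ : Coord.ι K F → Coord.ι K E, ∀ x, Coord.e (K := K) (g x) = Coord.e (K := K) x ∘ σ

omit [Str K] in
theorem IsCoordMap.id : IsCoordMap K (fun x : E => x) := ⟨fun i => i, fun _ => rfl⟩

omit [Str K] in
theorem IsCoordMap.comp {g : F → G} {f : E → F} (hg : IsCoordMap K g) (hf : IsCoordMap K f) :
    IsCoordMap K fun x => g (f x) := by
  obtain ⟨σ, hσ⟩ := hg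
  obtain ⟨τ, hτ⟩ := hf
  exact ⟨fun i => τ (σ i), fun x => by rw [hσ, hτ]; rfl⟩

omit [Str K] in
theorem IsCoordMap.fst : IsCoordMap K (fun p : E × F => p.1) := ⟨Sum.inl, fun _ => rfl⟩

omit [Str K] in
theorem IsCoordMap.snd : IsCoordMap K (fun p : E × F => p.2) := ⟨Sum.inr, fun _ => rfl⟩

omit [Str K] in
theorem IsCoordMap.prodMk {f : E → F} {g : E → G} (hf : IsCoordMap K f) (hg : IsCoordMap K g) :
    IsCoordMap K fun x => (f x, g x) := by
  obtain ⟨σ, hσ⟩ := hf
  obtain ⟨τ, hτ⟩ := hg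
  refine ⟨Sum.elim σ τ, fun x => ?_⟩
  funext i
  rcases i with i | i
  · exact congrFun (hσ x) i
  · exact congrFun (hτ x) i

omit [Str K] in
theorem IsCoordMap.eval {m : ℕ} (i : Fin m) : IsCoordMap K (fun x : Fin m → K => x i) :=
  ⟨fun _ => i, fun _ => rfl⟩

theorem Def.comp_coord {P : F → Prop} (hP : Def K P) {g : E → F} (hg : IsCoordMap K g) :
    Def K fun x => P (g x) := by
  obtain ⟨σ, hσ⟩ := hg
  have h := Set.Definable.preimage_comp σ hP
  unfold Def
  convert h using 1
  ext v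
  simp only [Set.mem_ofPred_eq, Set.mem_preimage]
  have : g ((Coord.e (K := K) (E := E)).symm v) = (Coord.e (K := K) (E := F)).symm (v ∘ σ) := by
    rw [← Homeomorph.symm_apply_apply (Coord.e (K := K)) (g _), hσ, Homeomorph.apply_symm_apply]
  rw [this]

theorem Def.eq_self : Def K fun p : E × E => p.1 = p.2 := by
  have h : ∀ i : Coord.ι K E, Def K fun p : E × E =>
      Coord.e (K := K) p.1 i = Coord.e (K := K) p.2 i := by
    intro i
    have h1 := Set.DefinableFun.ofPred_eq (L := Str.L K) (A := (univ : Set K))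
      (f := fun v : Coord.ι K (E × E) → K => v (Sum.inl i)) (g := fun v => v (Sum.inr i))
      (Set.DefinableFun.proj (Str.L K)) (Set.DefinableFun.proj (Str.L K))
    unfold Def
    convert h1 using 1
    ext v
    simp only [Set.mem_ofPred_eq]
    have e1 : ∀ j, Coord.e (K := K) ((Coord.e (K := K) (E := E × E)).symm v).1 j =
        v (Sum.inl j) := by
      intro j
      change Coord.e (K := K) ((Coord.e (K := K) (E := E)).symm (fun j => v (Sum.inl j))) j = _
      rw [Homeomorph.apply_symm_apply]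
    have e2 : ∀ j, Coord.e (K := K) ((Coord.e (K := K) (E := E × E)).symm v).2 j =
        v (Sum.inr j) := by
      intro j
      change Coord.e (K := K) ((Coord.e (K := K) (E := E)).symm (fun j => v (Sum.inr j))) j = _
      rw [Homeomorph.apply_symm_apply]
    rw [e1, e2]
  refine (Def.finite_all h).congr fun p => ?_
  rw [← funext_iff]
  exact (Coord.e (K := K)).injective.eq_iff

theorem Def.coord_eq_const (i : Coord.ι K E) (c : K) :
    Def K fun x : E => Coord.e (K := K) x i = c := by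
  have h1 := Set.DefinableFun.ofPred_eq_const (L := Str.L K) (A := (univ : Set K))
    (f := fun v : Coord.ι K E → K => v i) (a := c) (Set.DefinableFun.proj (Str.L K))
    (Set.mem_univ _)
  unfold Def
  convert h1 using 1
  ext v
  simp only [Set.mem_ofPred_eq]
  rw [Homeomorph.apply_symm_apply]

theorem Def.eq_const (c : E) : Def K fun x : E => x = c := by
  have h : ∀ i : Coord.ι K E, Def K fun x : E => Coord.e (K := K) x i = Coord.e (K := K) c i :=
    fun i => Def.coord_eq_const i _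
  refine (Def.finite_all h).congr fun p => ?_
  rw [← funext_iff]
  exact (Coord.e (K := K)).injective.eq_iff

theorem DefFun.of_coord {g : E → F} (hg : IsCoordMap K g) : DefFun K g :=
  Def.eq_self.comp_coord (g := fun p : E × F => (g p.1, p.2))
    ((hg.comp IsCoordMap.fst).prodMk IsCoordMap.snd)

@[fun_prop]
theorem DefFun.id : DefFun K (fun x : E => x) := DefFun.of_coord IsCoordMap.id

@[fun_prop]
theorem DefFun.const (c : F) : DefFun K (fun _ : E => c) := by
  refine ((Def.eq_const (K := K) c).comp_coord (g := fun p : E × F => p.2) IsCoordMap.snd).congr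
    fun p => ?_
  exact eq_comm

theorem Def.comp {P : F → Prop} (hP : Def K P) {g : E → F} (hg : DefFun K g) :
    Def K fun x => P (g x) := by
  have h : Def K fun p : E × F => g p.1 = p.2 ∧ P p.2 := Def.and hg (hP.comp_coord IsCoordMap.snd)
  refine (Def.ex (P := fun x y => g x = y ∧ P y) h).congr fun x => ?_
  constructor
  · rintro ⟨y, rfl, hy⟩
    exact hy
  · intro hx
    exact ⟨_, rfl, hx⟩

@[fun_prop]
theorem DefFun.comp {g : F → G} {f : E → F} (hg : DefFun K g) (hf : DefFun K f) :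
    DefFun K fun x => g (f x) := by
  have h1 : Def K fun p : (E × G) × F => f p.1.1 = p.2 ∧ g p.2 = p.1.2 := by
    refine Def.and ?_ ?_
    · exact Def.comp_coord (P := fun p : E × F => f p.1 = p.2) hf
        (g := fun p : (E × G) × F => (p.1.1, p.2))
        ((IsCoordMap.fst.comp IsCoordMap.fst).prodMk IsCoordMap.snd)
    · exact Def.comp_coord (P := fun p : F × G => g p.1 = p.2) hg
        (g := fun p : (E × G) × F => (p.2, p.1.2))
        (IsCoordMap.snd.prodMk (IsCoordMap.snd.comp IsCoordMap.fst))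
  refine (Def.ex (P := fun (x : E × G) y => f x.1 = y ∧ g y = x.2) h1).congr fun x => ?_
  constructor
  · rintro ⟨y, rfl, hy⟩
    exact hy
  · intro hx
    exact ⟨_, rfl, hx⟩

@[fun_prop]
theorem DefFun.prodMk {f : E → F} {g : E → G} (hf : DefFun K f) (hg : DefFun K g) :
    DefFun K fun x => (f x, g x) := by
  have h1 : Def K fun p : E × (F × G) => f p.1 = p.2.1 ∧ g p.1 = p.2.2 := by
    refine Def.and ?_ ?_
    · exact Def.comp_coord (P := fun p : E × F => f p.1 = p.2) hf
        (g := fun p : E × (F × G) => (p.1, p.2.1))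
        (IsCoordMap.fst.prodMk (IsCoordMap.fst.comp IsCoordMap.snd))
    · exact Def.comp_coord (P := fun p : E × G => g p.1 = p.2) hg
        (g := fun p : E × (F × G) => (p.1, p.2.2))
        (IsCoordMap.fst.prodMk (IsCoordMap.snd.comp IsCoordMap.snd))
  refine h1.congr fun p => ?_
  rw [Prod.ext_iff]

@[fun_prop]
theorem DefFun.fst : DefFun K (fun p : E × F => p.1) := DefFun.of_coord IsCoordMap.fst

@[fun_prop]
theorem DefFun.snd : DefFun K (fun p : E × F => p.2) := DefFun.of_coord IsCoordMap.snd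

@[fun_prop]
theorem DefFun.eval {m : ℕ} (i : Fin m) : DefFun K (fun x : Fin m → K => x i) :=
  DefFun.of_coord (IsCoordMap.eval i)

theorem Def.eq {f g : E → F} (hf : DefFun K f) (hg : DefFun K g) : Def K fun x => f x = g x :=
  (Def.eq_self (K := K) (E := F)).comp (hf.prodMk hg)

theorem DefFun.pi {m : ℕ} {f : E → Fin m → K} (hf : ∀ i, DefFun K fun x => f x i) :
    DefFun K f := by
  have h : Def K fun p : E × (Fin m → K) => ∀ i, f p.1 i = p.2 i := by
    refine Def.finite_all fun i => Def.eq ?_ ?_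
    · exact DefFun.comp (hf i) DefFun.fst
    · exact DefFun.comp (DefFun.eval i) DefFun.snd
  exact h.congr fun p => funext_iff.symm

/-- The coordinate functions. -/
theorem DefFun.coord (i : Coord.ι K E) : DefFun K (fun x : E => Coord.e (K := K) x i) :=
  DefFun.of_coord ⟨fun _ => i, fun _ => rfl⟩

end Basic

/-- Restrained definably complete expansions of ordered fields. -/
class Res (K : Type) [Field K] [LinearOrder K] [TopologicalSpace K] [Str K] : Prop where
  add : (∅ : Set K).Definable (Str.L K) {v : Fin 3 → K | v 0 + v 1 = v 2}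
  mul : (∅ : Set K).Definable (Str.L K) {v : Fin 3 → K | v 0 * v 1 = v 2}
  lt : (∅ : Set K).Definable (Str.L K) {v : Fin 2 → K | v 0 < v 1}
  dc : ∀ X : Set K, (Set.univ : Set K).Definable (Str.L K) {v : Fin 1 → K | v 0 ∈ X} →
    X.Nonempty → BddAbove X → ∃ s, IsLUB X s
  res : ∀ (n : ℕ) (D : Set (Fin n → K)) (g : (Fin n → K) → K),
    (Set.univ : Set K).Definable (Str.L K) D → DiscreteTopology ↥D →
    (Set.univ : Set K).Definable (Str.L K)
      {v : Fin (n + 1) → K | Fin.init v ∈ D ∧ v (Fin.last n) = g (Fin.init v)} →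
    interior (closure (g '' D)) = ∅

section Arith

variable {K : Type} [Field K] [LinearOrder K] [IsStrictOrderedRing K] [TopologicalSpace K]
  [OrderTopology K] [Str K] [hK : Res K]
variable {E : Type} [TopologicalSpace E] [Coord K E]

omit [IsStrictOrderedRing K] [OrderTopology K] in
theorem DefFun.add' : DefFun K fun p : K × K => p.1 + p.2 := by
  have h := (hK.add.mono (empty_subset univ)).preimage_comp
    (![Sum.inl (Sum.inl ()), Sum.inl (Sum.inr ()), Sum.inr ()] :
      Fin 3 → (Unit ⊕ Unit) ⊕ Unit)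
  exact h

omit [IsStrictOrderedRing K] [OrderTopology K] in
theorem DefFun.mul' : DefFun K fun p : K × K => p.1 * p.2 := by
  have h := (hK.mul.mono (empty_subset univ)).preimage_comp
    (![Sum.inl (Sum.inl ()), Sum.inl (Sum.inr ()), Sum.inr ()] :
      Fin 3 → (Unit ⊕ Unit) ⊕ Unit)
  exact h

omit [IsStrictOrderedRing K] [OrderTopology K] in
theorem Def.lt' : Def K fun p : K × K => p.1 < p.2 := by
  have h := (hK.lt.mono (empty_subset univ)).preimage_comp
    (![Sum.inl (), Sum.inr ()] : Fin 2 → Unit ⊕ Unit)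
  exact h

omit [IsStrictOrderedRing K] [OrderTopology K] in
@[fun_prop]
theorem DefFun.add {f g : E → K} (hf : DefFun K f) (hg : DefFun K g) :
    DefFun K fun x => f x + g x := DefFun.comp (g := fun p : K × K => p.1 + p.2) DefFun.add'
  (hf.prodMk hg)

omit [IsStrictOrderedRing K] [OrderTopology K] in
@[fun_prop]
theorem DefFun.mul {f g : E → K} (hf : DefFun K f) (hg : DefFun K g) :
    DefFun K fun x => f x * g x := DefFun.comp (g := fun p : K × K => p.1 * p.2) DefFun.mul'
  (hf.prodMk hg)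

omit [IsStrictOrderedRing K] [OrderTopology K] in
theorem Def.lt {f g : E → K} (hf : DefFun K f) (hg : DefFun K g) : Def K fun x => f x < g x :=
  Def.comp (P := fun p : K × K => p.1 < p.2) Def.lt' (hf.prodMk hg)

omit [IsStrictOrderedRing K] [OrderTopology K] in
theorem Def.le {f g : E → K} (hf : DefFun K f) (hg : DefFun K g) : Def K fun x => f x ≤ g x :=
  (Def.lt hg hf).not.congr fun _ => not_lt

omit [IsStrictOrderedRing K] [OrderTopology K] in
@[fun_prop]
theorem DefFun.neg {f : E → K} (hf : DefFun K f) : DefFun K fun x => - f x := by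
  have h : Def K fun p : E × K => f p.1 + p.2 = 0 := Def.eq (by fun_prop) (by fun_prop)
  exact h.congr fun p => by rw [neg_eq_iff_add_eq_zero]

omit [IsStrictOrderedRing K] [OrderTopology K] in
@[fun_prop]
theorem DefFun.sub {f g : E → K} (hf : DefFun K f) (hg : DefFun K g) :
    DefFun K fun x => f x - g x := by
  simp_rw [sub_eq_add_neg]
  fun_prop

omit [IsStrictOrderedRing K] [OrderTopology K] in
@[fun_prop]
theorem DefFun.inv {f : E → K} (hf : DefFun K f) : DefFun K fun x => (f x)⁻¹ := by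
  have h : Def K fun p : E × K => (f p.1 * p.2 = 1) ∨ (f p.1 = 0 ∧ p.2 = 0) :=
    (Def.eq (by fun_prop) (by fun_prop)).or
      ((Def.eq (by fun_prop) (by fun_prop)).and (Def.eq (by fun_prop) (by fun_prop)))
  refine h.congr fun p => ?_
  change _ ↔ (f p.1)⁻¹ = p.2
  constructor
  · rintro (h | ⟨h1, h2⟩)
    · exact inv_eq_of_mul_eq_one_right h
    · rw [h1, h2, inv_zero]
  · intro h
    by_cases h0 : f p.1 = 0
    · right
      rw [h0, inv_zero] at h
      exact ⟨h0, h.symm⟩
    · left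
      rw [← h, mul_inv_cancel₀ h0]

omit [IsStrictOrderedRing K] [OrderTopology K] in
@[fun_prop]
theorem DefFun.div {f g : E → K} (hf : DefFun K f) (hg : DefFun K g) :
    DefFun K fun x => f x / g x := by
  simp_rw [div_eq_mul_inv]
  fun_prop

omit [OrderTopology K] in
@[fun_prop]
theorem DefFun.abs {f : E → K} (hf : DefFun K f) : DefFun K fun x => |f x| := by
  have h : Def K fun p : E × K => (0 ≤ f p.1 ∧ f p.1 = p.2) ∨ (f p.1 < 0 ∧ - f p.1 = p.2) :=
    ((Def.le (by fun_prop) (by fun_prop)).and (Def.eq (by fun_prop) (by fun_prop))).or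
      ((Def.lt (by fun_prop) (by fun_prop)).and (Def.eq (by fun_prop) (by fun_prop)))
  refine h.congr fun p => ?_
  change _ ↔ |f p.1| = p.2
  rcases le_or_gt 0 (f p.1) with h0 | h0
  · rw [abs_of_nonneg h0]
    constructor
    · rintro (h | h)
      · exact h.2
      · exact absurd h.1 (not_lt.mpr h0)
    · intro h
      exact Or.inl ⟨h0, h⟩
  · rw [abs_of_neg h0]
    constructor
    · rintro (h | h)
      · exact absurd h.1 (not_le.mpr h0)
      · exact h.2
    · intro h
      exact Or.inr ⟨h0, h⟩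

end Arith

section Near

variable {K : Type} [Field K] [LinearOrder K] [IsStrictOrderedRing K] [TopologicalSpace K]
  [OrderTopology K]
variable {E F : Type} [TopologicalSpace E] [Coord K E] [TopologicalSpace F] [Coord K F]

/-- `x` and `y` are at distance less than `ε`. -/
def near (x y : E) (ε : K) : Prop :=
  0 < ε ∧ ∀ i, |Coord.e (K := K) x i - Coord.e (K := K) y i| < ε

omit [OrderTopology K] in
theorem near.pos {x y : E} {ε : K} (h : near x y ε) : 0 < ε := h.1

omit [OrderTopology K] in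
theorem near.symm {x y : E} {ε : K} (h : near x y ε) : near y x ε :=
  ⟨h.1, fun i => by rw [abs_sub_comm]; exact h.2 i⟩

omit [OrderTopology K] in
theorem near.refl (x : E) {ε : K} (h : 0 < ε) : near x x ε :=
  ⟨h, fun i => by rw [sub_self, abs_zero]; exact h⟩

omit [OrderTopology K] in
theorem near.mono {x y : E} {ε δ : K} (h : near x y ε) (hle : ε ≤ δ) : near x y δ :=
  ⟨h.1.trans_le hle, fun i => (h.2 i).trans_le hle⟩

omit [OrderTopology K] in
theorem near.trans {x y z : E} {ε δ : K} (h : near x y ε) (h' : near y z δ) :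
    near x z (ε + δ) := by
  refine ⟨add_pos h.1 h'.1, fun i => ?_⟩
  calc |Coord.e (K := K) x i - Coord.e (K := K) z i|
      ≤ |Coord.e (K := K) x i - Coord.e (K := K) y i| +
        |Coord.e (K := K) y i - Coord.e (K := K) z i| := abs_sub_le _ _ _
    _ < ε + δ := add_lt_add (h.2 i) (h'.2 i)

omit [OrderTopology K] in
theorem near_self {x y ε : K} : near x y ε ↔ |x - y| < ε :=
  ⟨fun h => h.2 (), fun h => ⟨(abs_nonneg _).trans_lt h, fun _ => h⟩⟩

omit [OrderTopology K] in
theorem near_prod {x y : E × F} {ε : K} : near x y ε ↔ near x.1 y.1 ε ∧ near x.2 y.2 ε := by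
  constructor
  · rintro ⟨h0, h⟩
    exact ⟨⟨h0, fun i => h (Sum.inl i)⟩, ⟨h0, fun i => h (Sum.inr i)⟩⟩
  · rintro ⟨⟨h0, h1⟩, ⟨_, h2⟩⟩
    refine ⟨h0, fun i => ?_⟩
    rcases i with i | i
    · exact h1 i
    · exact h2 i

omit [OrderTopology K] in
theorem near_pi {m : ℕ} {x y : Fin m → K} {ε : K} : near x y ε ↔ 0 < ε ∧ ∀ i, |x i - y i| < ε :=
  Iff.rfl

variable (K) in
theorem nhds_near (x : E) : (nhds x).HasBasis (fun ε : K => 0 < ε) fun ε => {y | near y x ε} := by
  have hfin := Coord.fin (K := K) (E := E)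
  have h1 : nhds x = Filter.comap (Coord.e (K := K)) (nhds (Coord.e (K := K) x)) :=
    (Coord.e (K := K) (E := E)).isInducing.nhds_eq_comap x
  rw [Filter.hasBasis_iff]
  intro t
  rw [h1, nhds_pi, Filter.mem_comap]
  constructor
  · rintro ⟨s, hs, hst⟩
    rw [Filter.mem_pi'] at hs
    obtain ⟨I, V, hV, hIs⟩ := hs
    have h2 : ∀ i, ∃ ε : K, 0 < ε ∧ {b | |b - Coord.e (K := K) x i| < ε} ⊆ V i := fun i =>
      (nhds_basis_abs_sub_lt (Coord.e (K := K) x i)).mem_iff.mp (hV i)
    choose ε hε hεV using h2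
    rcases isEmpty_or_nonempty (Coord.ι K E) with he | hne
    · refine ⟨1, one_pos, fun y _ => hst (hIs ?_)⟩
      intro i
      exact he.elim i
    · cases nonempty_fintype (Coord.ι K E)
      refine ⟨Finset.univ.inf' Finset.univ_nonempty ε, ?_, fun y hy => hst (hIs ?_)⟩
      · rw [Finset.lt_inf'_iff]
        exact fun i _ => hε i
      · intro i _
        exact hεV i ((hy.2 i).trans_le (Finset.inf'_le _ (Finset.mem_univ i)))
  · rintro ⟨ε, hε, h⟩
    refine ⟨Set.univ.pi fun i => {b | |b - Coord.e (K := K) x i| < ε}, ?_, ?_⟩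
    · refine Filter.pi_mem_pi Set.finite_univ fun i _ => ?_
      exact (nhds_basis_abs_sub_lt (Coord.e (K := K) x i)).mem_of_mem hε
    · intro y hy
      exact h ⟨hε, fun i => hy i (Set.mem_univ i)⟩

variable (K) in
theorem eventually_near {P : E → Prop} {x : E} :
    (∀ᶠ y in nhds x, P y) ↔ ∃ ε : K, 0 < ε ∧ ∀ y, near y x ε → P y :=
  (nhds_near K x).eventually_iff

theorem near_mem_nhds (x : E) {ε : K} (h : 0 < ε) : ∀ᶠ y in nhds x, near y x ε :=
  (nhds_near K x).mem_of_mem h

variable (K) in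
theorem mem_closure_near {S : Set E} {x : E} :
    x ∈ closure S ↔ ∀ ε : K, 0 < ε → ∃ y ∈ S, near y x ε := by
  rw [mem_closure_iff_nhds_basis (nhds_near K x)]
  rfl

end Near

section Top

variable {K : Type} [Field K] [LinearOrder K] [IsStrictOrderedRing K] [TopologicalSpace K]
  [OrderTopology K] [Str K] [hK : Res K]
variable {E F : Type} [TopologicalSpace E] [Coord K E] [TopologicalSpace F] [Coord K F]

omit [OrderTopology K] in
theorem Def.near {f g : E → F} {r : E → K} (hf : DefFun K f) (hg : DefFun K g)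
    (hr : DefFun K r) : Def K fun x => near (f x) (g x) (r x) := by
  refine Def.and (Def.lt (by fun_prop) hr) (Def.finite_all fun i => ?_)
  have h1 : DefFun K fun x => Coord.e (K := K) (f x) i := DefFun.comp (DefFun.coord i) hf
  have h2 : DefFun K fun x => Coord.e (K := K) (g x) i := DefFun.comp (DefFun.coord i) hg
  exact Def.lt (by fun_prop) hr

/-- Membership in the closure of a definable family of sets. -/
theorem Def.closure {S : E → Set F} {g : E → F} (hS : Def K fun p : E × F => p.2 ∈ S p.1)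
    (hg : DefFun K g) : Def K fun x => g x ∈ closure (S x) := by
  have h1 : Def K fun p : (E × K) × F => p.2 ∈ S p.1.1 ∧ IMinK.near p.2 (g p.1.1) p.1.2 := by
    refine Def.and ?_ ?_
    · exact hS.comp (g := fun p : (E × K) × F => (p.1.1, p.2)) (by fun_prop)
    · exact Def.near (by fun_prop) (by fun_prop) (by fun_prop)
  have h2 : Def K fun p : E × K => 0 < p.2 → ∃ y, y ∈ S p.1 ∧ IMinK.near y (g p.1) p.2 :=
    (Def.lt (by fun_prop) (by fun_prop)).imp
      (Def.ex (P := fun (p : E × K) y => y ∈ S p.1 ∧ IMinK.near y (g p.1) p.2) h1)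
  refine (Def.all (P := fun x ε => 0 < ε → ∃ y, y ∈ S x ∧ IMinK.near y (g x) ε) h2).congr
    fun x => ?_
  rw [mem_closure_near K]

/-- Membership in the interior of a definable family of sets. -/
theorem Def.interior {S : E → Set F} {g : E → F} (hS : Def K fun p : E × F => p.2 ∈ S p.1)
    (hg : DefFun K g) : Def K fun x => g x ∈ interior (S x) := by
  have h := (Def.closure (S := fun x => (S x)ᶜ) hS.not hg).not
  refine h.congr fun x => ?_
  rw [closure_compl, Set.notMem_compl_iff]

/-- Local quantifiers. -/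
theorem Def.eventually {P : E → F → Prop} {g : E → F} (hP : Def K fun p : E × F => P p.1 p.2)
    (hg : DefFun K g) : Def K fun x => ∀ᶠ y in nhds (g x), P x y := by
  have h := Def.interior (S := fun x => {y | P x y}) hP hg
  refine h.congr fun x => ?_
  rw [mem_interior_iff_mem_nhds]
  rfl

end Top

end

/-!
# Definable completeness: suprema, connectedness, compactness; genericity lemmas
-/

section

open FirstOrder Set Filter


section Gen

variable {X : Type} [TopologicalSpace X]

theorem nd_union {s t : Set X} (hs : IsNowhereDense s) (ht : IsNowhereDense t) :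
    IsNowhereDense (s ∪ t) := by
  rw [IsNowhereDense] at hs ht ⊢
  rw [closure_union, interior_union_isClosed_of_interior_empty isClosed_closure ht, hs]

theorem nd_of_closed {S : Set X} (hS : IsClosed S) (h : ∀ O : Set X, IsOpen O → O ⊆ S → O = ∅) :
    IsNowhereDense S := by
  rw [hS.isNowhereDense_iff]
  exact h _ isOpen_interior interior_subset

theorem nd_sdiff_interior {P Q : Set X} (hP : IsClosed P) (hPQ : P ⊆ Q) :
    IsNowhereDense (P \ interior Q) := by
  refine nd_of_closed (hP.sdiff isOpen_interior) fun O hO hOs => ?_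
  have h1 : O ⊆ interior Q := interior_maximal (fun x hx => hPQ (hOs hx).1) hO
  ext x
  constructor
  · intro hx
    exact (hOs hx).2 (h1 hx)
  · intro hx
    exact hx.elim

/-- A nonempty open set has a nonempty open subset that misses a given nowhere dense set. -/
theorem exists_open_disjoint {S O : Set X} (hS : IsNowhereDense S) (hO : IsOpen O)
    (hne : O.Nonempty) : ∃ O' : Set X, IsOpen O' ∧ O'.Nonempty ∧ O' ⊆ O ∧ Disjoint O' S := by
  refine ⟨O \ closure S, hO.sdiff isClosed_closure, ?_, sdiff_subset, ?_⟩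
  · by_contra hcon
    rw [Set.not_nonempty_iff_eq_empty, Set.sdiff_eq_empty] at hcon
    have h1 := interior_maximal hcon hO
    rw [hS] at h1
    obtain ⟨x, hx⟩ := hne
    exact h1 hx
  · rw [Set.disjoint_left]
    intro x hx hxS
    exact hx.2 (subset_closure hxS)

end Gen

variable {K : Type} [Field K] [LinearOrder K] [IsStrictOrderedRing K] [TopologicalSpace K]
  [OrderTopology K] [Str K] [hK : Res K]
variable {X Z : Type} [TopologicalSpace X] [Coord K X] [TopologicalSpace Z] [Coord K Z]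

theorem exists_lub {S : Set K} (hS : Def K fun x : K => x ∈ S) (hne : S.Nonempty)
    (hb : BddAbove S) : ∃ s, IsLUB S s := by
  refine Res.dc S ?_ hne hb
  exact hS.comp (g := fun v : Fin 1 → K => v 0) (by fun_prop)

theorem exists_glb {S : Set K} (hS : Def K fun x : K => x ∈ S) (hne : S.Nonempty)
    (hb : BddBelow S) : ∃ s, IsGLB S s := by
  obtain ⟨s, hs⟩ := exists_lub (S := -S) (hS.comp (g := fun x : K => -x) (by fun_prop))
    hne.neg hb.neg
  refine ⟨-s, ?_⟩
  rw [← isLUB_neg']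
  simpa using hs

/-- Definable connectedness of intervals. -/
theorem conn {P : K → Prop} (hP : Def K P) {a b : K} (hab : a ≤ b)
    (hloc : ∀ z, a ≤ z → z ≤ b → ∀ᶠ z' in nhds z, a ≤ z' → z' ≤ b → (P z' ↔ P z))
    (ha : P a) : P b := by
  let S : Set K := {x | (a ≤ x ∧ x ≤ b) ∧ ∀ z, a ≤ z → z ≤ x → P z}
  have hS : Def K fun x : K => x ∈ S := by
    refine Def.and (Def.and (Def.le (by fun_prop) (by fun_prop)) (Def.le (by fun_prop)
      (by fun_prop))) ?_
    refine Def.all (P := fun (x z : K) => a ≤ z → z ≤ x → P z) ?_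
    refine Def.imp (Def.le (by fun_prop) (by fun_prop)) (Def.imp (Def.le (by fun_prop)
      (by fun_prop)) ?_)
    exact hP.comp (g := fun p : K × K => p.2) (by fun_prop)
  have haS : a ∈ S := by
    refine ⟨⟨le_rfl, hab⟩, fun z h1 h2 => ?_⟩
    rwa [le_antisymm h2 h1]
  obtain ⟨s, hs⟩ := exists_lub hS ⟨a, haS⟩ ⟨b, fun x hx => hx.1.2⟩
  have has : a ≤ s := hs.1 haS
  have hsb : s ≤ b := hs.2 fun x hx => hx.1.2
  obtain ⟨ε, hε, hε'⟩ := (eventually_near K).mp (hloc s has hsb)
  obtain ⟨x, hxS, hx⟩ : ∃ x ∈ S, s - ε < x := by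
    by_contra hcon
    push Not at hcon
    have := hs.2 hcon
    linarith
  have hxs : x ≤ s := hs.1 hxS
  have hPs : P s := by
    have h1 := hε' x (near_self.mpr (by rw [abs_lt]; constructor <;> linarith)) hxS.1.1 hxS.1.2
    exact h1.mp (hxS.2 x hxS.1.1 le_rfl)
  have hall : ∀ z, a ≤ z → z ≤ b → z < s + ε → P z := by
    intro z h1 h2 h3
    rcases le_or_gt z x with h4 | h4
    · exact hxS.2 z h1 h4
    · exact (hε' z (near_self.mpr (by rw [abs_lt]; constructor <;> linarith)) h1 h2).mpr hPs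
  have hmin : min b (s + ε / 2) ∈ S := by
    refine ⟨⟨le_min hab (by linarith), min_le_left _ _⟩, fun z h1 h2 => ?_⟩
    have h3 := h2.trans (min_le_right _ _)
    exact hall z h1 (h2.trans (min_le_left _ _)) (by linarith)
  have h1 := hs.1 hmin
  rcases min_choice b (s + ε / 2) with h2 | h2
  · rw [h2] at h1
    exact hall b hab le_rfl (by linarith)
  · rw [h2] at h1
    linarith

theorem cluster1 {A : K → Set Z} (hA : Def K fun p : K × Z => p.2 ∈ A p.1)
    (hne : ∀ ζ, 0 < ζ → (A ζ).Nonempty) (hmono : ∀ ζ ζ', 0 < ζ → ζ ≤ ζ' → A ζ ⊆ A ζ')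
    {f : Z → K} (hf : DefFun K f) {R : K} (hb : ∀ ζ, 0 < ζ → ∀ z ∈ A ζ, |f z| ≤ R) :
    ∃ a : K, ∀ ζ, 0 < ζ → ∃ z ∈ A ζ, |f z - a| < ζ := by
  let S : Set K := {a | ∃ ζ, 0 < ζ ∧ ∀ z, z ∈ A ζ → a ≤ f z}
  have hS : Def K fun x : K => x ∈ S := by
    refine Def.ex (P := fun (a ζ : K) => 0 < ζ ∧ ∀ z, z ∈ A ζ → a ≤ f z) ?_
    refine Def.and (Def.lt (by fun_prop) (by fun_prop)) ?_
    refine Def.all (P := fun (p : K × K) z => z ∈ A p.2 → p.1 ≤ f z) ?_
    refine Def.imp ?_ (Def.le (by fun_prop) (by fun_prop))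
    exact hA.comp (g := fun p : (K × K) × Z => (p.1.2, p.2)) (by fun_prop)
  have h1 : (-R) ∈ S := ⟨1, one_pos, fun z hz => (abs_le.mp (hb 1 one_pos z hz)).1⟩
  have h2 : BddAbove S := by
    refine ⟨R, ?_⟩
    rintro a ⟨ζ, hζ, ha⟩
    obtain ⟨z, hz⟩ := hne ζ hζ
    exact (ha z hz).trans (abs_le.mp (hb ζ hζ z hz)).2
  obtain ⟨a, ha⟩ := exists_lub hS ⟨_, h1⟩ h2
  refine ⟨a, fun ζ hζ => ?_⟩
  obtain ⟨a', ⟨ζ₁, hζ₁, ha'⟩, hlt⟩ : ∃ a' ∈ S, a - ζ < a' := by
    by_contra hcon
    push Not at hcon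
    have := ha.2 hcon
    linarith
  have h3 : a + ζ ∉ S := by
    intro h
    have := ha.1 h
    linarith
  have hmin : 0 < min ζ ζ₁ := lt_min hζ hζ₁
  have h4 : ∃ z ∈ A (min ζ ζ₁), f z < a + ζ := by
    by_contra hcon
    push Not at hcon
    exact h3 ⟨min ζ ζ₁, hmin, hcon⟩
  obtain ⟨z, hz, hz2⟩ := h4
  refine ⟨z, hmono _ _ hmin (min_le_left _ _) hz, ?_⟩
  have h5 := ha' z (hmono _ _ hmin (min_le_right _ _) hz)
  rw [abs_lt]
  constructor <;> linarith

/-- Definable compactness. -/
theorem exists_cluster {A : K → Set Z} (hA : Def K fun p : K × Z => p.2 ∈ A p.1)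
    (hne : ∀ ζ, 0 < ζ → (A ζ).Nonempty) (hmono : ∀ ζ ζ', 0 < ζ → ζ ≤ ζ' → A ζ ⊆ A ζ')
    {R : K} (hb : ∀ ζ, 0 < ζ → ∀ z ∈ A ζ, ∀ i, |Coord.e (K := K) z i| ≤ R) :
    ∃ z₀ : Z, ∀ ζ : K, 0 < ζ → ∀ ε : K, 0 < ε → ∃ z ∈ A ζ, near z z₀ ε := by
  classical
  cases nonempty_fintype (Coord.ι K Z)
  have key : ∀ s : Finset (Coord.ι K Z), ∃ w : Coord.ι K Z → K, ∀ ζ, 0 < ζ →
      ∃ z ∈ A ζ, ∀ i ∈ s, |Coord.e (K := K) z i - w i| < ζ := by
    intro s
    induction s using Finset.induction_on with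
    | empty =>
      refine ⟨fun _ => 0, fun ζ hζ => ?_⟩
      obtain ⟨z, hz⟩ := hne ζ hζ
      exact ⟨z, hz, by simp⟩
    | insert i s his ih =>
      obtain ⟨w, hw⟩ := ih
      have key := cluster1 (A := fun ζ => {z | z ∈ A ζ ∧ ∀ i ∈ s,
        |Coord.e (K := K) z i - w i| < ζ}) (f := fun z => Coord.e (K := K) z i) ?_ ?_ ?_
        (DefFun.coord i) (R := R) ?_
      · obtain ⟨a, ha⟩ := key
        refine ⟨Function.update w i a, fun ζ hζ => ?_⟩
        obtain ⟨z, ⟨hz1, hz2⟩, hz3⟩ := ha ζ hζ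
        refine ⟨z, hz1, fun j hj => ?_⟩
        rcases Finset.mem_insert.mp hj with rfl | hj'
        · rw [Function.update_self]
          exact hz3
        · rw [Function.update_of_ne (by rintro rfl; exact his hj')]
          exact hz2 j hj'
      · refine Def.and hA ?_
        have h1 : Def K fun p : K × Z => ∀ j : s, |Coord.e (K := K) p.2 j - w j| < p.1 := by
          refine Def.finite_all fun j => ?_
          have h2 : DefFun K fun p : K × Z => Coord.e (K := K) p.2 j :=
            DefFun.comp (DefFun.coord _) (by fun_prop)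
          exact Def.lt (by fun_prop) (by fun_prop)
        exact h1.congr fun p => ⟨fun h i hi => h ⟨i, hi⟩, fun h i => h i i.2⟩
      · intro ζ hζ
        obtain ⟨z, hz1, hz2⟩ := hw ζ hζ
        exact ⟨z, hz1, hz2⟩
      · rintro ζ ζ' hζ hle z ⟨hz1, hz2⟩
        exact ⟨hmono ζ ζ' hζ hle hz1, fun i hi => (hz2 i hi).trans_le hle⟩
      · rintro ζ hζ z ⟨hz1, _⟩
        exact hb ζ hζ z hz1 i
  obtain ⟨w, hw⟩ := key Finset.univ
  refine ⟨(Coord.e (K := K) (E := Z)).symm w, fun ζ hζ ε hε => ?_⟩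
  have hmin : 0 < min ζ ε := lt_min hζ hε
  obtain ⟨z, hz1, hz2⟩ := hw (min ζ ε) hmin
  refine ⟨z, hmono _ _ hmin (min_le_left _ _) hz1, hε, fun i => ?_⟩
  rw [Homeomorph.apply_symm_apply]
  exact (hz2 i (Finset.mem_univ i)).trans_le (min_le_right _ _)

/-- Compactness for graphs. -/
theorem cluster_graph {S : Set (X × Z)} (hS : Def K fun p : X × Z => p ∈ S) {x₀ : X} {R : K}
    (hb : ∀ x z, (x, z) ∈ S → ∀ i, |Coord.e (K := K) z i| ≤ R)
    (h : ∀ ε : K, 0 < ε → ∃ x z, near x x₀ ε ∧ (x, z) ∈ S) :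
    ∃ z₀ : Z, (x₀, z₀) ∈ closure S := by
  have key := exists_cluster (A := fun ζ : K => {z : Z | ∃ x, near x x₀ ζ ∧ (x, z) ∈ S})
    (R := R) ?_ ?_ ?_ ?_
  · obtain ⟨z₀, hz₀⟩ := key
    refine ⟨z₀, ?_⟩
    rw [mem_closure_near K]
    intro ε hε
    obtain ⟨z, ⟨x, hx1, hx2⟩, hz⟩ := hz₀ ε hε ε hε
    exact ⟨(x, z), hx2, near_prod.mpr ⟨hx1, hz⟩⟩
  · refine Def.ex (P := fun (p : K × Z) x => near x x₀ p.1 ∧ (x, p.2) ∈ S) ?_
    refine Def.and (Def.near (by fun_prop) (by fun_prop) (by fun_prop)) ?_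
    exact hS.comp (g := fun p : (K × Z) × X => (p.2, p.1.2)) (by fun_prop)
  · intro ζ hζ
    obtain ⟨x, z, h1, h2⟩ := h ζ hζ
    exact ⟨z, x, h1, h2⟩
  · rintro ζ ζ' hζ hle z ⟨x, h1, h2⟩
    exact ⟨x, h1.mono hle, h2⟩
  · rintro ζ hζ z ⟨x, h1, h2⟩
    exact hb x z h2

omit [Str K] hK in
theorem isOpen_near (x : X) (ε : K) : IsOpen {y : X | near y x ε} := by
  by_cases hε : 0 < ε
  · have e : {y : X | near y x ε} = ⋂ i, {y | |Coord.e (K := K) y i - Coord.e (K := K) x i| < ε} := by
      ext y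
      simp only [Set.mem_ofPred_eq, Set.mem_iInter]
      exact ⟨fun h => h.2, fun h => ⟨hε, h⟩⟩
    rw [e]
    refine isOpen_iInter_of_finite fun i => ?_
    have hc : Continuous fun y : X => Coord.e (K := K) y i :=
      (continuous_apply i).comp (Coord.e (K := K) (E := X)).continuous
    exact isOpen_lt (by fun_prop) continuous_const
  · have e : {y : X | near y x ε} = ∅ := by
      ext y
      simp only [Set.mem_ofPred_eq, Set.mem_empty_iff_false, iff_false]
      exact fun h => hε h.1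
    rw [e]
    exact isOpen_empty

theorem Def.ball (x : X) (ε : K) : Def K fun y : X => IMinK.near y x ε :=
  Def.near (by fun_prop) (by fun_prop) (by fun_prop)

theorem loc1 {B : Set (X × Z)} (hB : Def K fun p : X × Z => p ∈ B) {f : Z → K}
    (hf : DefFun K f) {R : K} (hb : ∀ x z, (x, z) ∈ B → |f z| ≤ R) {O : Set X} (hO : IsOpen O)
    (hOd : Def K fun x : X => x ∈ O) (hOne : O.Nonempty)
    (hd : ∀ O' : Set X, IsOpen O' → O'.Nonempty → O' ⊆ O → ∃ x ∈ O', ∃ z, (x, z) ∈ B)
    {δ : K} (hδ : 0 < δ) : ∃ O' : Set X, IsOpen O' ∧ O'.Nonempty ∧ O' ⊆ O ∧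
      (Def K fun x : X => x ∈ O') ∧ ∃ a : K, ∀ O'' : Set X, IsOpen O'' → O''.Nonempty → O'' ⊆ O' →
        ∃ x ∈ O'', ∃ z, (x, z) ∈ B ∧ |f z - a| < δ := by
  let F : K → Set X := fun a => {x | ∃ z, (x, z) ∈ B ∧ f z ≤ a}
  have hF : Def K fun p : K × X => p.2 ∈ F p.1 := by
    refine Def.ex (P := fun (p : K × X) z => (p.2, z) ∈ B ∧ f z ≤ p.1) ?_
    refine Def.and ?_ (Def.le (by fun_prop) (by fun_prop))
    exact hB.comp (g := fun p : (K × X) × Z => (p.1.2, p.2)) (by fun_prop)
  let S : Set K := {a | ∃ q : X × K, 0 < q.2 ∧ ∀ y, near y q.1 q.2 → y ∈ O ∧ y ∈ closure (F a)}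
  have hS : Def K fun a : K => a ∈ S := by
    refine Def.ex (P := fun (a : K) (q : X × K) => 0 < q.2 ∧ ∀ y, near y q.1 q.2 →
      y ∈ O ∧ y ∈ closure (F a)) ?_
    refine Def.and (Def.lt (by fun_prop) (by fun_prop)) ?_
    refine Def.all (P := fun (p : K × (X × K)) y => near y p.2.1 p.2.2 →
      y ∈ O ∧ y ∈ closure (F p.1)) ?_
    refine Def.imp (Def.near (by fun_prop) (by fun_prop) (by fun_prop)) (Def.and ?_ ?_)
    · exact hOd.comp (g := fun p : (K × (X × K)) × X => p.2) (by fun_prop)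
    · refine Def.closure (S := fun p : (K × (X × K)) × X => F p.1.1) ?_ (by fun_prop)
      exact hF.comp (g := fun p : ((K × (X × K)) × X) × X => (p.1.1.1, p.2)) (by fun_prop)
  have hRS : R ∈ S := by
    obtain ⟨x, hx⟩ := hOne
    obtain ⟨ε, hε, hball⟩ := (eventually_near K).mp (hO.mem_nhds hx)
    refine ⟨(x, ε), hε, fun y hy => ⟨hball y hy, ?_⟩⟩
    rw [mem_closure_iff]
    intro O' hO' hyO'
    obtain ⟨x', hx', z, hz⟩ := hd (O' ∩ O) (hO'.inter hO) ⟨y, hyO', hball y hy⟩ inter_subset_right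
    exact ⟨x', hx'.1, z, hz, (le_abs_self _).trans (hb x' z hz)⟩
  have hSb : BddBelow S := by
    refine ⟨-R, ?_⟩
    rintro a ⟨q, hq, ha⟩
    have h1 := (ha q.1 (near.refl _ hq)).2
    obtain ⟨x, z, hz, hza⟩ := closure_nonempty_iff.mp ⟨_, h1⟩
    exact (abs_le.mp (hb x z hz)).1.trans hza
  obtain ⟨a, ha⟩ := exists_glb hS ⟨R, hRS⟩ hSb
  obtain ⟨b, ⟨q, hq, hbS⟩, hlt⟩ : ∃ b ∈ S, b < a + δ := by
    by_contra hcon
    push Not at hcon
    have := ha.2 hcon
    linarith
  have h1 : a - δ ∉ S := by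
    intro h
    have := ha.1 h
    linarith
  have h2 : ∃ y, near y q.1 q.2 ∧ y ∉ closure (F (a - δ)) := by
    by_contra hcon
    push Not at hcon
    exact h1 ⟨q, hq, fun y hy => ⟨(hbS y hy).1, hcon y hy⟩⟩
  obtain ⟨y, hy1, hy2⟩ := h2
  have h3 : ∀ᶠ y' in nhds y, near y' q.1 q.2 ∧ y' ∉ closure (F (a - δ)) :=
    Filter.Eventually.and ((isOpen_near q.1 q.2).mem_nhds hy1)
      (isClosed_closure.isOpen_compl.mem_nhds hy2)
  obtain ⟨ε, hε, hball⟩ := (eventually_near K).mp h3
  refine ⟨{y' | near y' y ε}, isOpen_near y ε, ⟨y, near.refl y hε⟩,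
    fun y' hy' => (hbS y' (hball y' hy').1).1, Def.ball y ε, a, ?_⟩
  intro O'' hO'' hne hsub
  obtain ⟨y', hy'⟩ := hne
  have h4 := (hbS y' (hball y' (hsub hy')).1).2
  obtain ⟨x, hxO, z, hz, hzb⟩ := mem_closure_iff.mp h4 O'' hO'' hy'
  refine ⟨x, hxO, z, hz, ?_⟩
  have h5 := (hball x (hsub hxO)).2
  have h6 : a - δ < f z := by
    by_contra hcon
    push Not at hcon
    exact h5 (subset_closure ⟨z, hz, hcon⟩)
  rw [abs_lt]
  constructor <;> linarith

/-- Localisation of a densely defined bounded definable relation. -/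
theorem loc {B : Set (X × Z)} (hB : Def K fun p : X × Z => p ∈ B) {R : K}
    (hb : ∀ x z, (x, z) ∈ B → ∀ i, |Coord.e (K := K) z i| ≤ R) {O : Set X} (hO : IsOpen O)
    (hOd : Def K fun x : X => x ∈ O) (hOne : O.Nonempty)
    (hd : ∀ O' : Set X, IsOpen O' → O'.Nonempty → O' ⊆ O → ∃ x ∈ O', ∃ z, (x, z) ∈ B)
    {δ : K} (hδ : 0 < δ) : ∃ O' : Set X, IsOpen O' ∧ O'.Nonempty ∧ O' ⊆ O ∧
      (Def K fun x : X => x ∈ O') ∧ ∃ z₀ : Z, ∀ O'' : Set X, IsOpen O'' → O''.Nonempty →
        O'' ⊆ O' → ∃ x ∈ O'', ∃ z, (x, z) ∈ B ∧ near z z₀ δ := by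
  classical
  cases nonempty_fintype (Coord.ι K Z)
  have key : ∀ s : Finset (Coord.ι K Z), ∃ O' : Set X, IsOpen O' ∧ O'.Nonempty ∧ O' ⊆ O ∧
      (Def K fun x : X => x ∈ O') ∧ ∃ w : Coord.ι K Z → K, ∀ O'' : Set X, IsOpen O'' →
        O''.Nonempty → O'' ⊆ O' → ∃ x ∈ O'', ∃ z, (x, z) ∈ B ∧
          ∀ i ∈ s, |Coord.e (K := K) z i - w i| < δ := by
    intro s
    induction s using Finset.induction_on with
    | empty =>
      refine ⟨O, hO, hOne, subset_rfl, hOd, fun _ => 0, fun O'' h1 h2 h3 => ?_⟩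
      obtain ⟨x, hx, z, hz⟩ := hd O'' h1 h2 h3
      exact ⟨x, hx, z, hz, by simp⟩
    | insert i s his ih =>
      obtain ⟨O₁, hO₁, hO₁ne, hO₁O, hO₁d, w, hw⟩ := ih
      have key := loc1 (B := {p : X × Z | p ∈ B ∧ ∀ i ∈ s,
        |Coord.e (K := K) p.2 i - w i| < δ}) ?_ (f := fun z => Coord.e (K := K) z i)
        (DefFun.coord i) (R := R) ?_ hO₁ hO₁d hO₁ne ?_ hδ
      · obtain ⟨O₂, hO₂, hO₂ne, hO₂O, hO₂d, a, ha⟩ := key
        refine ⟨O₂, hO₂, hO₂ne, hO₂O.trans hO₁O, hO₂d, Function.update w i a,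
          fun O'' h1 h2 h3 => ?_⟩
        obtain ⟨x, hx, z, ⟨hz1, hz2⟩, hz3⟩ := ha O'' h1 h2 h3
        refine ⟨x, hx, z, hz1, fun j hj => ?_⟩
        rcases Finset.mem_insert.mp hj with rfl | hj'
        · rw [Function.update_self]
          exact hz3
        · rw [Function.update_of_ne (by rintro rfl; exact his hj')]
          exact hz2 j hj'
      · refine Def.and hB ?_
        have h1 : Def K fun p : X × Z => ∀ j : s, |Coord.e (K := K) p.2 j - w j| < δ := by
          refine Def.finite_all fun j => ?_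
          have h2 : DefFun K fun p : X × Z => Coord.e (K := K) p.2 j :=
            DefFun.comp (DefFun.coord _) (by fun_prop)
          exact Def.lt (by fun_prop) (by fun_prop)
        exact h1.congr fun p => ⟨fun h i hi => h ⟨i, hi⟩, fun h i => h i i.2⟩
      · rintro x z ⟨hz, _⟩
        exact hb x z hz i
      · intro O' h1 h2 h3
        obtain ⟨x, hx, z, hz1, hz2⟩ := hw O' h1 h2 h3
        exact ⟨x, hx, z, hz1, hz2⟩
  obtain ⟨O', h1, h2, h3, h4, w, hw⟩ := key Finset.univ
  refine ⟨O', h1, h2, h3, h4, (Coord.e (K := K) (E := Z)).symm w, fun O'' k1 k2 k3 => ?_⟩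
  obtain ⟨x, hx, z, hz1, hz2⟩ := hw O'' k1 k2 k3
  refine ⟨x, hx, z, hz1, hδ, fun i => ?_⟩
  rw [Homeomorph.apply_symm_apply]
  exact hz2 i (Finset.mem_univ i)

/-- Failure of lower semicontinuity is nowhere dense. -/
theorem nd_not_lsc {U : Set X} (hU : IsOpen U) (hUd : Def K fun x : X => x ∈ U) {F : X → Set Z}
    (hF : Def K fun p : X × Z => p.2 ∈ F p.1) {R : K}
    (hb : ∀ x ∈ U, ∀ z ∈ F x, ∀ i, |Coord.e (K := K) z i| ≤ R)
    (hcl : ∀ x ∈ U, ∀ y, y ∉ F x → ∀ᶠ p : X × Z in nhds (x, y), p.2 ∉ F p.1) {ε : K}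
    (hε : 0 < ε) :
    IsNowhereDense {x | x ∈ U ∧ ∃ y ∈ F x, ¬ ∀ᶠ x' in nhds x, ∃ y' ∈ F x', near y' y ε} := by
  by_contra hcon
  rw [IsNowhereDense, ← ne_eq, ← Set.nonempty_iff_ne_empty] at hcon
  set Bad : Set X := {x | x ∈ U ∧ ∃ y ∈ F x, ¬ ∀ᶠ x' in nhds x, ∃ y' ∈ F x', near y' y ε} with hBad
  obtain ⟨x₀, hx₀⟩ := hcon
  obtain ⟨x₁, hx₁, hx₁B⟩ := mem_closure_iff.mp (interior_subset hx₀) _ isOpen_interior hx₀
  obtain ⟨r, hr, hball⟩ := (eventually_near K).mp ((isOpen_interior.inter hU).mem_nhds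
    (show x₁ ∈ interior (closure Bad) ∩ U from ⟨hx₁, hx₁B.1⟩))
  let B : Set (X × Z) := {p | p.1 ∈ U ∧ p.2 ∈ F p.1 ∧
    ¬ ∀ᶠ x' in nhds p.1, ∃ y', y' ∈ F x' ∧ near y' p.2 ε}
  have hBd : Def K fun p : X × Z => p ∈ B := by
    refine Def.and (hUd.comp (by fun_prop)) (Def.and hF (Def.not ?_))
    refine Def.eventually (P := fun (p : X × Z) x' => ∃ y', y' ∈ F x' ∧ near y' p.2 ε) ?_
      (by fun_prop)
    refine Def.ex (P := fun (p : (X × Z) × X) y' => y' ∈ F p.2 ∧ near y' p.1.2 ε) ?_
    refine Def.and ?_ (Def.near (by fun_prop) (by fun_prop) (by fun_prop))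
    exact hF.comp (g := fun p : ((X × Z) × X) × Z => (p.1.2, p.2)) (by fun_prop)
  obtain ⟨O', hO', hO'ne, hO'O, hO'd, z₀, hz₀⟩ := loc hBd (R := R)
    (fun x z h => hb x h.1 z h.2.1) (isOpen_near x₁ r) (Def.ball x₁ r) ⟨x₁, near.refl x₁ hr⟩
    (fun O' h1 h2 h3 => by
      obtain ⟨y, hy⟩ := h2
      have h4 := (hball y (h3 hy)).1
      obtain ⟨x, hx, hxU, z, hz1, hz2⟩ := mem_closure_iff.mp (interior_subset h4) O' h1 hy
      exact ⟨x, hx, z, hxU, hz1, hz2⟩) (half_pos hε)
  have hP : ∀ x ∈ O', ∃ y ∈ F x, ∀ i, |Coord.e (K := K) y i - Coord.e (K := K) z₀ i| ≤ ε / 2 := by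
    intro x hx
    have hxU : x ∈ U := (hball x (hO'O hx)).2
    let S : Set (X × Z) := {p | p.1 ∈ O' ∧ p.2 ∈ F p.1 ∧ near p.2 z₀ (ε / 2)}
    have hS : Def K fun p : X × Z => p ∈ S := by
      refine Def.and (hO'd.comp (by fun_prop)) (Def.and hF ?_)
      exact Def.near (by fun_prop) (by fun_prop) (by fun_prop)
    obtain ⟨y, hy⟩ := cluster_graph hS (x₀ := x) (R := R)
      (fun x' z h => hb x' (hball x' (hO'O h.1)).2 z h.2.1) (fun η hη => by
        obtain ⟨x', hx', z, hz1, hz2⟩ := hz₀ (O' ∩ {x' | near x' x η})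
          (hO'.inter (isOpen_near x η)) ⟨x, hx, near.refl x hη⟩ inter_subset_left
        exact ⟨x', z, hx'.2, hx'.1, hz1.2.1, hz2⟩)
    refine ⟨y, ?_, fun i => ?_⟩
    · by_contra hyF
      obtain ⟨p, hp1, hp2⟩ := ((mem_closure_iff_frequently.mp hy).and_eventually
        (hcl x hxU y hyF)).exists
      exact hp2 hp1.2.1
    · refine le_of_forall_pos_lt_add fun η hη => ?_
      obtain ⟨p, hp1, hp2⟩ := (mem_closure_near K).mp hy η hη
      have h1 := (near_prod.mp hp2).2.symm.trans hp1.2.2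
      have h2 := h1.2 i
      linarith
  obtain ⟨x, hx, y, ⟨hxU, hyF, hnot⟩, hy⟩ := hz₀ O' hO' hO'ne subset_rfl
  apply hnot
  filter_upwards [hO'.mem_nhds hx] with x' hx'
  obtain ⟨y', hy'F, hy'⟩ := hP x' hx'
  refine ⟨y', hy'F, hε, fun i => ?_⟩
  have h1 := hy' i
  have h2 := hy.2 i
  calc |Coord.e (K := K) y' i - Coord.e (K := K) y i|
      ≤ |Coord.e (K := K) y' i - Coord.e (K := K) z₀ i| +
        |Coord.e (K := K) z₀ i - Coord.e (K := K) y i| := abs_sub_le _ _ _
    _ < ε := by
      rw [abs_sub_comm (Coord.e (K := K) z₀ i)]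
      linarith

/-- Projections of closed definable sets along closed bounded intervals. -/
theorem isClosed_proj {S : Set (X × K)} (hS : Def K fun p : X × K => p ∈ S) (hcl : IsClosed S)
    (p q : K) : IsClosed {x | ∃ z, (p ≤ z ∧ z ≤ q) ∧ (x, z) ∈ S} := by
  rw [← closure_subset_iff_isClosed]
  intro x₀ hx₀
  have hcl2 : IsClosed {w : X × K | p ≤ w.2 ∧ w.2 ≤ q} :=
    (isClosed_le (by fun_prop) (by fun_prop)).inter (isClosed_le (by fun_prop) (by fun_prop))
  have key := cluster_graph (S := S ∩ {w : X × K | p ≤ w.2 ∧ w.2 ≤ q}) (x₀ := x₀)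
    (R := max |p| |q|) ?_ ?_ ?_
  · obtain ⟨z, hz⟩ := key
    rw [(hcl.inter hcl2).closure_eq] at hz
    exact ⟨z, hz.2, hz.1⟩
  · exact hS.and ((Def.le (by fun_prop) (by fun_prop)).and (Def.le (by fun_prop) (by fun_prop)))
  · rintro x z ⟨_, hz⟩ i
    exact abs_le_max_abs_abs hz.1 hz.2
  · intro ε hε
    obtain ⟨x, ⟨z, hz1, hz2⟩, hx⟩ := (mem_closure_near K).mp hx₀ ε hε
    exact ⟨x, z, hx, hz2, hz1⟩

end

/-!
# Gaps, scales, and unions of increasing families of nowhere dense subsets of the line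
-/

section

open FirstOrder Set Filter


/-- `(a, b)` is a gap of `C`. -/
def Gap {K : Type} [LinearOrder K] (C : Set K) (a b : K) : Prop :=
  a < b ∧ a ∈ C ∧ b ∈ C ∧ ∀ z, a < z → z < b → z ∉ C

section Ord

variable {K : Type} [LinearOrder K]

theorem Gap.unique {C : Set K} {a b a' b' m : K} (h : Gap C a b) (h' : Gap C a' b')
    (h1 : a < m) (h2 : m < b) (h3 : a' < m) (h4 : m < b') : a = a' ∧ b = b' := by
  obtain ⟨hab, ha, hb, hz⟩ := h
  obtain ⟨hab', ha', hb', hz'⟩ := h'
  constructor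
  · rcases lt_trichotomy a a' with h | h | h
    · exact absurd ha' (hz a' h (h3.trans h2))
    · exact h
    · exact absurd ha (hz' a h (h1.trans h4))
  · rcases lt_trichotomy b b' with h | h | h
    · exact absurd hb (hz' b (h3.trans h2) h)
    · exact h
    · exact absurd hb' (hz b' (h1.trans h4) h)

/-- A point of `C` is on one side of a gap. -/
theorem Gap.le_or_le {C : Set K} {a b z : K} (h : Gap C a b) (hz : z ∈ C) : z ≤ a ∨ b ≤ z := by
  by_contra hcon
  push Not at hcon
  exact h.2.2.2 z hcon.1 hcon.2 hz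

/-- Two gaps are ordered or equal. -/
theorem Gap.cases {C : Set K} {a b a' b' : K} (h : Gap C a b) (h' : Gap C a' b') :
    (a = a' ∧ b = b') ∨ b ≤ a' ∨ b' ≤ a := by
  rcases h.le_or_le h'.2.1 with h1 | h1
  · rcases h'.le_or_le h.2.1 with h2 | h2
    · left
      have e : a = a' := le_antisymm h2 h1
      subst e
      refine ⟨rfl, ?_⟩
      rcases h.le_or_le h'.2.2.1 with h3 | h3
      · exact absurd (h'.1.trans_le h3) (lt_irrefl _)
      · rcases h'.le_or_le h.2.2.1 with h4 | h4
        · exact absurd (h.1.trans_le h4) (lt_irrefl _)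
        · exact le_antisymm h3 h4
    · exact Or.inr (Or.inr h2)
  · exact Or.inr (Or.inl h1)

end Ord

variable {K : Type} [Field K] [LinearOrder K] [IsStrictOrderedRing K] [TopologicalSpace K]
  [OrderTopology K] [Str K] [hK : Res K]
variable {E F : Type} [TopologicalSpace E] [Coord K E] [TopologicalSpace F] [Coord K F]

theorem Def.gap {S : E → Set K} {f g : E → K} (hS : Def K fun p : E × K => p.2 ∈ S p.1)
    (hf : DefFun K f) (hg : DefFun K g) : Def K fun x => Gap (S x) (f x) (g x) := by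
  refine (Def.lt hf hg).and (Def.and ?_ (Def.and ?_ ?_))
  · exact hS.comp (g := fun x => (x, f x)) (by fun_prop)
  · exact hS.comp (g := fun x => (x, g x)) (by fun_prop)
  · refine Def.all (P := fun x z => f x < z → z < g x → z ∉ S x) ?_
    exact (Def.lt (by fun_prop) (by fun_prop)).imp
      ((Def.lt (by fun_prop) (by fun_prop)).imp hS.not)

theorem gap_exists {C : Set K} (hCd : Def K fun x : K => x ∈ C) (hC : IsClosed C) {c w c' : K}
    (hc : c ∈ C) (hc' : c' ∈ C) (hw : w ∉ C) (h1 : c < w) (h2 : w < c') :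
    ∃ a b, Gap C a b ∧ c ≤ a ∧ a < w ∧ w < b ∧ b ≤ c' := by
  obtain ⟨a, ha⟩ := exists_lub (S := C ∩ Iic w) (hCd.and (Def.le (by fun_prop) (by fun_prop)))
    ⟨c, hc, h1.le⟩ ⟨w, fun x hx => hx.2⟩
  obtain ⟨b, hb⟩ := exists_glb (S := C ∩ Ici w) (hCd.and (Def.le (by fun_prop) (by fun_prop)))
    ⟨c', hc', h2.le⟩ ⟨w, fun x hx => hx.2⟩
  have haC : a ∈ C ∩ Iic w := ha.mem_of_isClosed ⟨c, hc, h1.le⟩ (hC.inter isClosed_Iic)
  have hbC : b ∈ C ∩ Ici w := hb.mem_of_isClosed ⟨c', hc', h2.le⟩ (hC.inter isClosed_Ici)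
  have haw : a < w := lt_of_le_of_ne haC.2 fun h => hw (h ▸ haC.1)
  have hwb : w < b := lt_of_le_of_ne hbC.2 fun h => hw (h.symm ▸ hbC.1)
  refine ⟨a, b, ⟨haw.trans hwb, haC.1, hbC.1, ?_⟩, ha.1 ⟨hc, h1.le⟩, haw, hwb, hb.1 ⟨hc', h2.le⟩⟩
  intro z haz hzb hz
  rcases le_total z w with h | h
  · exact absurd (ha.1 ⟨hz, h⟩) (not_le.mpr haz)
  · exact absurd (hb.1 ⟨hz, h⟩) (not_le.mpr hzb)

/-- In a closed set with empty interior any two points are separated by a gap. -/
theorem gap_between {C : Set K} (hCd : Def K fun x : K => x ∈ C) (hC : IsClosed C)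
    (hint : interior C = ∅) {c c' : K} (hc : c ∈ C) (hc' : c' ∈ C) (hlt : c < c') :
    ∃ a b, Gap C a b ∧ c ≤ a ∧ b ≤ c' := by
  obtain ⟨w, hw1, hw2⟩ : ∃ w ∈ Ioo c c', w ∉ C := by
    by_contra hcon
    push Not at hcon
    have : Ioo c c' ⊆ interior C := interior_maximal hcon isOpen_Ioo
    rw [hint] at this
    obtain ⟨m, hm⟩ := exists_between hlt
    exact this hm
  obtain ⟨a, b, h, h1, _, _, h2⟩ := gap_exists hCd hC hc hc' hw2 hw1.1 hw1.2
  exact ⟨a, b, h, h1, h2⟩

theorem restrained_coord (D : Set E) (g : E → K) (hD : Def K fun x : E => x ∈ D)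
    (hdisc : ∀ x ∈ D, ∃ U : Set E, IsOpen U ∧ x ∈ U ∧ ∀ y ∈ D, y ∈ U → y = x)
    (hg : Def K fun p : E × K => p.1 ∈ D ∧ p.2 = g p.1) : interior (closure (g '' D)) = ∅ := by
  obtain ⟨n, ⟨σ⟩⟩ := Finite.exists_equiv_fin (Coord.ι K E)
  let h : (Fin n → K) → E := fun v => (Coord.e (K := K) (E := E)).symm (v ∘ σ)
  have hcont : Continuous h := by
    refine (Coord.e (K := K) (E := E)).symm.continuous.comp ?_
    exact continuous_pi fun i => continuous_apply (σ i)
  have hsurj : Function.Surjective h := by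
    intro x
    refine ⟨Coord.e (K := K) x ∘ σ.symm, ?_⟩
    change (Coord.e (K := K) (E := E)).symm _ = x
    rw [Homeomorph.symm_apply_eq]
    funext i
    simp
  have hinj : Function.Injective h := by
    intro v w hvw
    have h1 := (Coord.e (K := K) (E := E)).symm.injective hvw
    funext i
    have h2 := congrFun h1 (σ.symm i)
    simpa using h2
  have himg : g '' D = (fun v => g (h v)) '' (h ⁻¹' D) := by
    ext y
    constructor
    · rintro ⟨x, hx, rfl⟩
      obtain ⟨v, rfl⟩ := hsurj x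
      exact ⟨v, hx, rfl⟩
    · rintro ⟨v, hv, rfl⟩
      exact ⟨h v, hv, rfl⟩
  rw [himg]
  refine Res.res n (h ⁻¹' D) (fun v => g (h v)) ?_ ?_ ?_
  · exact hD.preimage_comp σ
  · rw [discreteTopology_subtype_iff']
    intro v hv
    obtain ⟨U, hU, hvU, hUD⟩ := hdisc (h v) hv
    refine ⟨h ⁻¹' U, hU.preimage hcont, ?_⟩
    ext w
    constructor
    · rintro ⟨hw1, hw2⟩
      exact hinj (hUD _ hw2 hw1)
    · intro hw
      have : w = v := hw
      subst this
      exact ⟨hvU, hv⟩
  · have h1 := Set.Definable.preimage_comp (L := Str.L K) (A := (univ : Set K))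
      (Sum.elim (fun i => (σ i).castSucc) (fun _ => Fin.last n) :
        Coord.ι K E ⊕ Unit → Fin (n + 1)) hg
    exact h1

/-- A scale: a definable set of positive elements that accumulates at `0` and is uniformly
discrete away from `0`. -/
structure IsScale (Δ : Set K) : Prop where
  def' : Def K fun x : K => x ∈ Δ
  pos : ∀ δ ∈ Δ, 0 < δ
  disc : ∀ η : K, 0 < η → ∃ s : K, 0 < s ∧ ∀ δ ∈ Δ, ∀ δ' ∈ Δ, η ≤ δ → η ≤ δ' → |δ - δ'| < s → δ = δ'
  acc : ∀ η : K, 0 < η → ∃ δ ∈ Δ, δ < η

theorem exists_scale {C : Set K} (hdef : Def K fun x : K => x ∈ C) {R : K}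
    (hb : ∀ x ∈ C, |x| ≤ R) (hinf : ∀ s : K, 0 < s → ∃ a b, Gap C a b ∧ b - a < s) :
    ∃ Δ : Set K, IsScale Δ := by
  have hΔ : Def K fun δ : K => ∃ a b, Gap C a b ∧ δ = b - a := by
    refine Def.ex (P := fun δ a => ∃ b, Gap C a b ∧ δ = b - a) ?_
    refine Def.ex (P := fun (p : K × K) b => Gap C p.2 b ∧ p.1 = b - p.2) ?_
    refine Def.and ?_ ?_
    · exact Def.gap (S := fun _ => C) (hdef.comp (by fun_prop)) (by fun_prop) (by fun_prop)
    · exact Def.eq (by fun_prop) (by fun_prop)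
  refine ⟨{δ | ∃ a b, Gap C a b ∧ δ = b - a}, hΔ, ?_, ?_, ?_⟩
  · rintro δ ⟨a, b, h, rfl⟩
    have := h.1
    linarith
  · intro η hη
    -- gap lengths at least `η` to the left of `z`
    let Λ : K → Set K := fun z => {l | ∃ a b, (Gap C a b ∧ b ≤ z) ∧ η ≤ b - a ∧ l = b - a}
    have hΛ : Def K fun p : K × K => p.2 ∈ Λ p.1 := by
      refine Def.ex (P := fun (p : K × K) a => ∃ b, (Gap C a b ∧ b ≤ p.1) ∧ η ≤ b - a ∧
        p.2 = b - a) ?_
      refine Def.ex (P := fun (p : (K × K) × K) b => (Gap C p.2 b ∧ b ≤ p.1.1) ∧ η ≤ b - p.2 ∧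
        p.1.2 = b - p.2) ?_
      refine Def.and (Def.and ?_ (Def.le (by fun_prop) (by fun_prop))) (Def.and
        (Def.le (by fun_prop) (by fun_prop)) (Def.eq (by fun_prop) (by fun_prop)))
      exact Def.gap (S := fun _ => C) (hdef.comp (by fun_prop)) (by fun_prop) (by fun_prop)
    let Q : K → Prop := fun z => ∃ s : K, 0 < s ∧ ∀ l l', l ∈ Λ z → l' ∈ Λ z → |l - l'| < s → l = l'
    have hQ : Def K Q := by
      refine Def.ex (P := fun (z s : K) => 0 < s ∧ ∀ l l', l ∈ Λ z → l' ∈ Λ z → |l - l'| < s →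
        l = l') ?_
      refine Def.and (Def.lt (by fun_prop) (by fun_prop)) ?_
      refine Def.all (P := fun (p : K × K) l => ∀ l', l ∈ Λ p.1 → l' ∈ Λ p.1 → |l - l'| < p.2 →
        l = l') ?_
      refine Def.all (P := fun (p : (K × K) × K) l' => p.2 ∈ Λ p.1.1 → l' ∈ Λ p.1.1 →
        |p.2 - l'| < p.1.2 → p.2 = l') ?_
      refine Def.imp ?_ (Def.imp ?_ (Def.imp (Def.lt (by fun_prop) (by fun_prop))
        (Def.eq (by fun_prop) (by fun_prop))))
      · exact hΛ.comp (g := fun p : ((K × K) × K) × K => (p.1.1.1, p.1.2)) (by fun_prop)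
      · exact hΛ.comp (g := fun p : ((K × K) × K) × K => (p.1.1.1, p.2)) (by fun_prop)
    have hstep : ∀ z, Q z → Q (z + η / 2) := by
      rintro z ⟨s, hs, hsep⟩
      by_cases hnew : ∃ a b, Gap C a b ∧ z < b ∧ b ≤ z + η / 2 ∧ η ≤ b - a
      · obtain ⟨a, b, hg, hb1, hb2, hl⟩ := hnew
        have hsub : ∀ l ∈ Λ (z + η / 2), l ∈ Λ z ∨ l = b - a := by
          rintro l ⟨a', b', ⟨hg', hb'⟩, hl', rfl⟩
          rcases le_or_gt b' z with h | h
          · exact Or.inl ⟨a', b', ⟨hg', h⟩, hl', rfl⟩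
          · right
            rcases hg.cases hg' with ⟨rfl, rfl⟩ | h1 | h1
            · rfl
            · linarith
            · linarith
        by_cases hcl : ∃ l₁ ∈ Λ z, l₁ ≠ b - a ∧ |l₁ - (b - a)| < s / 2
        · obtain ⟨l₁, hl₁, hne, hlt⟩ := hcl
          have hpos : 0 < |l₁ - (b - a)| := abs_pos.mpr (sub_ne_zero.mpr hne)
          have haux : ∀ l ∈ Λ z, |l - (b - a)| < min (s / 2) |l₁ - (b - a)| → l = b - a := by
            intro l hl2 hlt2
            by_contra hne2
            have h1 := hlt2.trans_le (min_le_left _ _)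
            have h2 := hlt2.trans_le (min_le_right _ _)
            have h3 : |l - l₁| < s := by
              calc |l - l₁| ≤ |l - (b - a)| + |(b - a) - l₁| := abs_sub_le _ _ _
                _ < s := by rw [abs_sub_comm (b - a)]; linarith
            have h4 := hsep l l₁ hl2 hl₁ h3
            rw [h4] at h2
            exact lt_irrefl _ h2
          refine ⟨min (s / 2) |l₁ - (b - a)|, lt_min (half_pos hs) hpos, ?_⟩
          intro l l' hl1 hl2 hlt2
          rcases hsub l hl1 with h1 | rfl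
          · rcases hsub l' hl2 with h2 | rfl
            · refine hsep l l' h1 h2 (hlt2.trans_le ((min_le_left _ _).trans ?_))
              linarith
            · exact haux l h1 hlt2
          · rcases hsub l' hl2 with h2 | rfl
            · rw [abs_sub_comm] at hlt2
              exact (haux l' h2 hlt2).symm
            · rfl
        · push Not at hcl
          have haux : ∀ l ∈ Λ z, |l - (b - a)| < s / 2 → l = b - a := by
            intro l hl2 hlt2
            by_contra hne2
            exact absurd hlt2 (not_lt.mpr (hcl l hl2 hne2))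
          refine ⟨s / 2, half_pos hs, ?_⟩
          intro l l' hl1 hl2 hlt2
          rcases hsub l hl1 with h1 | rfl
          · rcases hsub l' hl2 with h2 | rfl
            · exact hsep l l' h1 h2 (hlt2.trans (half_lt_self hs))
            · exact haux l h1 hlt2
          · rcases hsub l' hl2 with h2 | rfl
            · rw [abs_sub_comm] at hlt2
              exact (haux l' h2 hlt2).symm
            · rfl
      · push Not at hnew
        have hsub : ∀ l ∈ Λ (z + η / 2), l ∈ Λ z := by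
          rintro l ⟨a', b', ⟨hg', hb'⟩, hl', rfl⟩
          rcases le_or_gt b' z with h | h
          · exact ⟨a', b', ⟨hg', h⟩, hl', rfl⟩
          · have := hnew a' b' hg' h hb'
            linarith
        exact ⟨s, hs, fun l l' h1 h2 => hsep l l' (hsub l h1) (hsub l' h2)⟩
    have hmono : ∀ z z', z ≤ z' → Q z' → Q z := by
      rintro z z' hzz ⟨s, hs, hsep⟩
      refine ⟨s, hs, fun l l' h1 h2 => hsep l l' ?_ ?_⟩
      · obtain ⟨a, b, ⟨hg, h3⟩, h4⟩ := h1
        exact ⟨a, b, ⟨hg, h3.trans hzz⟩, h4⟩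
      · obtain ⟨a, b, ⟨hg, h3⟩, h4⟩ := h2
        exact ⟨a, b, ⟨hg, h3.trans hzz⟩, h4⟩
    have hQR : Q R := by
      by_contra hcon
      obtain ⟨z₀, hz₀⟩ := exists_lub (S := {z | Q z}) hQ ⟨-R - 1, ⟨1, one_pos, by
        rintro l l' ⟨a, b, ⟨hg, h3⟩, _⟩
        have := (abs_le.mp (hb b hg.2.2.1)).1
        linarith⟩⟩ ⟨R, fun z hz => by
        by_contra h
        push Not at h
        exact hcon (hmono R z h.le hz)⟩
      obtain ⟨z, hz, hlt⟩ : ∃ z, Q z ∧ z₀ - η / 4 < z := by
        by_contra hc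
        push Not at hc
        have := hz₀.2 (fun z hz => hc z hz)
        linarith
      have := hz₀.1 (hstep z hz)
      linarith
    obtain ⟨s, hs, hsep⟩ := hQR
    refine ⟨s, hs, ?_⟩
    rintro δ ⟨a, b, hg, rfl⟩ δ' ⟨a', b', hg', rfl⟩ h1 h2 h3
    exact hsep _ _ ⟨a, b, ⟨hg, (abs_le.mp (hb b hg.2.2.1)).2⟩, h1, rfl⟩
      ⟨a', b', ⟨hg', (abs_le.mp (hb b' hg'.2.2.1)).2⟩, h2, rfl⟩ h3
  · intro η hη
    obtain ⟨a, b, hg, hlt⟩ := hinf η hη
    exact ⟨b - a, ⟨a, b, hg, rfl⟩, hlt⟩

/-- If there is no scale, closed bounded definable sets with empty interior are uniformly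
discrete. -/
theorem unif_disc (hsc : ¬ ∃ Δ : Set K, IsScale Δ) {C : Set K} (hdef : Def K fun x : K => x ∈ C)
    {R : K} (hb : ∀ x ∈ C, |x| ≤ R) : ∃ s : K, 0 < s ∧ ∀ a b, Gap C a b → s ≤ b - a := by
  by_contra hcon
  push Not at hcon
  exact hsc (exists_scale hdef hb hcon)

variable (K) in
/-- The union of an increasing definable family of nowhere dense subsets of `E` is nowhere
dense. -/
def SB (E : Type) [TopologicalSpace E] [Coord K E] : Prop :=
  ∀ A : K → Set E, Def K (fun p : K × E => p.2 ∈ A p.1) → (∀ ε, 0 < ε → IsNowhereDense (A ε)) →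
    (∀ ε ε', 0 < ε → ε ≤ ε' → A ε' ⊆ A ε) → IsNowhereDense {x | ∃ ε, 0 < ε ∧ x ∈ A ε}

theorem exists_Icc_of_not_nowhereDense {S : Set K} (hS : ¬ IsNowhereDense S) :
    ∃ u v, u < v ∧ Icc u v ⊆ closure S := by
  rw [IsNowhereDense, ← ne_eq, ← Set.nonempty_iff_ne_empty] at hS
  obtain ⟨x, hx⟩ := hS
  rw [mem_interior_iff_mem_nhds] at hx
  obtain ⟨ε, hε, h⟩ := (eventually_near K).mp hx
  refine ⟨x - ε / 2, x + ε / 2, by linarith, fun y hy => h y ?_⟩
  rw [near_self, abs_lt]
  constructor <;> linarith [hy.1, hy.2]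

theorem SB_line : SB K K := by
  intro A hA hnd hmono
  by_contra hcon
  obtain ⟨u, v, huv, hcl⟩ := exists_Icc_of_not_nowhereDense hcon
  -- auxiliary closed sets
  let C : K → Set K := fun δ => {z | (z ∈ closure (A δ) ∧ u ≤ z ∧ z ≤ v) ∨ z = u ∨ z = v}
  have hCdef : Def K fun p : K × K => p.2 ∈ C p.1 := by
    refine Def.or (Def.and (Def.closure ?_ (by fun_prop)) (Def.and ?_ ?_)) (Def.or ?_ ?_)
    · exact hA.comp (g := fun p : (K × K) × K => (p.1.1, p.2)) (by fun_prop)
    · exact Def.le (by fun_prop) (by fun_prop)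
    · exact Def.le (by fun_prop) (by fun_prop)
    · exact Def.eq (by fun_prop) (by fun_prop)
    · exact Def.eq (by fun_prop) (by fun_prop)
  have hCdef1 : ∀ δ, Def K fun z : K => z ∈ C δ := fun δ =>
    hCdef.comp (g := fun z : K => (δ, z)) (by fun_prop)
  have hCcl : ∀ δ, IsClosed (C δ) := by
    intro δ
    have e : C δ = (closure (A δ) ∩ Icc u v) ∪ ({u} ∪ {v}) := by
      ext z
      rfl
    rw [e]
    exact (isClosed_closure.inter isClosed_Icc).union (isClosed_singleton.union isClosed_singleton)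
  have hCb : ∀ δ, ∀ z ∈ C δ, |z| ≤ max |u| |v| := by
    rintro δ z (⟨_, h1, h2⟩ | rfl | rfl)
    · exact abs_le_max_abs_abs h1 h2
    · exact le_max_left _ _
    · exact le_max_right _ _
  have hCint : ∀ δ, 0 < δ → interior (C δ) = ∅ := by
    intro δ hδ
    rw [Set.eq_empty_iff_forall_notMem]
    intro z hz
    obtain ⟨ε, hε, h⟩ := (eventually_near K).mp (isOpen_interior.mem_nhds hz)
    have h1 : ∀ w, |w - z| < ε → w ∈ C δ := fun w hw => interior_subset (h w (near_self.mpr hw))
    have h2 : ∀ w, |w - z| < ε → u ≤ w ∧ w ≤ v := by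
      intro w hw
      rcases h1 w hw with ⟨_, h⟩ | rfl | rfl
      · exact h
      · exact ⟨le_rfl, huv.le⟩
      · exact ⟨huv.le, le_rfl⟩
    have h3 : Ioo (z - ε / 2) (z + ε / 2) ⊆ closure (A δ) := by
      intro w hw
      have hw1 := hw.1
      have hw2 := hw.2
      rcases h1 w (by rw [abs_lt]; constructor <;> linarith) with h | rfl | rfl
      · exact h.1
      · have := (h2 (w - ε / 4) (by rw [abs_lt]; constructor <;> linarith)).1
        linarith
      · have := (h2 (w + ε / 4) (by rw [abs_lt]; constructor <;> linarith)).2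
        linarith
    have h4 := interior_maximal h3 isOpen_Ioo
    rw [hnd δ hδ] at h4
    exact h4 (show z ∈ Ioo (z - ε / 2) (z + ε / 2) from ⟨by linarith, by linarith⟩)
  by_cases hsc : ∃ Δ : Set K, IsScale Δ
  · obtain ⟨Δ, hΔ⟩ := hsc
    let D : Set ((K × K) × K) := {p | p.1.1 ∈ Δ ∧ Gap (C p.1.1) p.1.2 p.2}
    have hD : Def K fun p : (K × K) × K => p ∈ D := by
      refine Def.and ?_ ?_
      · exact hΔ.def'.comp (g := fun p : (K × K) × K => p.1.1) (by fun_prop)
      · refine Def.gap (S := fun p : (K × K) × K => C p.1.1) ?_ (by fun_prop) (by fun_prop)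
        exact hCdef.comp (g := fun p : ((K × K) × K) × K => (p.1.1.1, p.2)) (by fun_prop)
    have key := restrained_coord D (fun p => p.1.2) hD ?_ ?_
    · have hsub : Ioo u v ⊆ closure ((fun p : (K × K) × K => p.1.2) '' D) := by
        have h1 : Ioo u v ∩ {x | ∃ ε, 0 < ε ∧ x ∈ A ε} ⊆
            closure ((fun p : (K × K) × K => p.1.2) '' D) := by
          rintro x ⟨hx, ε, hε, hxA⟩
          obtain ⟨δ, hδ, hδε⟩ := hΔ.acc ε hε
          have hδ0 := hΔ.pos δ hδ
          have hxC : x ∈ C δ :=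
            Or.inl ⟨subset_closure (hmono δ ε hδ0 hδε.le hxA), hx.1.le, hx.2.le⟩
          rw [mem_closure_near K]
          intro ρ hρ
          obtain ⟨w, hw1, hw2⟩ : ∃ w ∈ Ioo x (min (x + ρ) v), w ∉ C δ := by
            by_contra hcon
            push Not at hcon
            have hlt : x < min (x + ρ) v := lt_min (by linarith) hx.2
            have h3 := interior_maximal (s := C δ) hcon isOpen_Ioo
            rw [hCint δ hδ0] at h3
            obtain ⟨m, hm⟩ := exists_between hlt
            exact h3 hm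
          have hvC : v ∈ C δ := Or.inr (Or.inr rfl)
          obtain ⟨a, b, hgap, h1, h2, _, _⟩ := gap_exists (hCdef1 δ) (hCcl δ) hxC hvC hw2 hw1.1
            (hw1.2.trans_le (min_le_right _ _))
          refine ⟨a, ⟨((δ, a), b), ⟨hδ, hgap⟩, rfl⟩, ?_⟩
          rw [near_self, abs_of_nonneg (by linarith)]
          have := hw1.2.trans_le (min_le_left _ _)
          linarith
        intro x hx
        have h2 := hcl (Ioo_subset_Icc_self hx)
        have h3 : x ∈ closure (Ioo u v ∩ {x | ∃ ε, 0 < ε ∧ x ∈ A ε}) := by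
          have := isOpen_Ioo.inter_closure ⟨hx, h2⟩
          exact this
        exact (closure_minimal h1 isClosed_closure) h3
      have h4 := interior_maximal hsub isOpen_Ioo
      rw [key] at h4
      obtain ⟨m, hm⟩ := exists_between huv
      exact h4 hm
    · rintro ⟨⟨δ, a⟩, b⟩ ⟨hδ, hgap⟩
      have hδ0 := hΔ.pos δ hδ
      have hδ' : δ ∈ Δ := hδ
      have hgap' : Gap (C δ) a b := hgap
      obtain ⟨s, hs, hsep⟩ := hΔ.disc (δ / 2) (half_pos hδ0)
      let U : Set ((K × K) × K) := ({p : (K × K) × K | δ / 2 < p.1.1} ∩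
        {p : (K × K) × K | |p.1.1 - δ| < s}) ∩
        ({p : (K × K) × K | p.1.2 < (a + b) / 2} ∩ {p : (K × K) × K | (a + b) / 2 < p.2})
      refine ⟨U, ?_, ?_, ?_⟩
      · refine IsOpen.inter (IsOpen.inter ?_ ?_) (IsOpen.inter ?_ ?_)
        · exact isOpen_lt (by fun_prop) (by fun_prop)
        · exact isOpen_lt (by fun_prop) (by fun_prop)
        · exact isOpen_lt (by fun_prop) (by fun_prop)
        · exact isOpen_lt (by fun_prop) (by fun_prop)
      · have := hgap'.1
        refine ⟨⟨half_lt_self hδ0, ?_⟩, ?_, ?_⟩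
        · change |δ - δ| < s
          rw [sub_self, abs_zero]
          exact hs
        · change a < (a + b) / 2
          linarith
        · change (a + b) / 2 < b
          linarith
      · rintro ⟨⟨δ', a'⟩, b'⟩ ⟨hδ1, hg1⟩ ⟨⟨h1, h2⟩, h3, h4⟩
        have h1' : δ / 2 < δ' := h1
        have e1 : δ' = δ := hsep δ' hδ1 δ hδ' h1'.le (half_le_self hδ0.le) h2
        subst e1
        have hab := hgap'.1
        have := Gap.unique (C := C δ') hg1 hgap' (m := (a + b) / 2) h3 h4 (by linarith) (by linarith)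
        obtain ⟨rfl, rfl⟩ := this
        rfl
    · refine Def.and ?_ ?_
      · exact hD.comp (g := fun p : ((K × K) × K) × K => p.1) (by fun_prop)
      · exact Def.eq (by fun_prop) (by fun_prop)
  · -- no scale: bounded nowhere dense definable sets are uniformly discrete
    have hsep : ∀ ε, 0 < ε → ∃ s : K, 0 < s ∧ ∀ x ∈ A ε, ∀ y ∈ A ε, (u ≤ x ∧ x ≤ v) →
        (u ≤ y ∧ y ≤ v) → |x - y| < s → x = y := by
      intro ε hε
      obtain ⟨s, hs, hg⟩ := unif_disc hsc (hCdef1 ε) (hCb ε)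
      refine ⟨s, hs, ?_⟩
      have aux : ∀ x ∈ A ε, ∀ y ∈ A ε, (u ≤ x ∧ x ≤ v) → (u ≤ y ∧ y ≤ v) → x < y →
          s ≤ y - x := by
        intro x hx y hy hx' hy' hlt
        obtain ⟨a, b, hgab, h1, h2⟩ := gap_between (hCdef1 ε) (hCcl ε) (hCint ε hε)
          (Or.inl ⟨subset_closure hx, hx'⟩) (Or.inl ⟨subset_closure hy, hy'⟩) hlt
        have := hg a b hgab
        linarith
      intro x hx y hy hx' hy' hlt
      rw [abs_lt] at hlt
      rcases lt_trichotomy x y with h | h | h
      · have := aux x hx y hy hx' hy' h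
        linarith [hlt.1, hlt.2]
      · exact h
      · have := aux y hy x hx hy' hx' h
        linarith [hlt.1, hlt.2]
    let D : Set (K × K) := {p | (u ≤ p.2 ∧ p.2 ≤ v) ∧ (0 < p.1 ∧ p.1 ≤ 1) ∧
      (∀ ε, 0 < ε ∧ ε < p.1 → p.2 ∈ A ε) ∧ ∀ ε, p.1 < ε ∧ ε ≤ 1 → p.2 ∉ A ε}
    have hD : Def K fun p : K × K => p ∈ D := by
      refine Def.and (Def.and ?_ ?_) (Def.and (Def.and ?_ ?_) (Def.and ?_ ?_))
      · exact Def.le (by fun_prop) (by fun_prop)
      · exact Def.le (by fun_prop) (by fun_prop)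
      · exact Def.lt (by fun_prop) (by fun_prop)
      · exact Def.le (by fun_prop) (by fun_prop)
      · refine Def.all (P := fun (p : K × K) ε => 0 < ε ∧ ε < p.1 → p.2 ∈ A ε) (Def.imp
          (Def.and (Def.lt (by fun_prop) (by fun_prop)) (Def.lt (by fun_prop) (by fun_prop))) ?_)
        exact hA.comp (g := fun p : (K × K) × K => (p.2, p.1.2)) (by fun_prop)
      · refine Def.all (P := fun (p : K × K) ε => p.1 < ε ∧ ε ≤ 1 → p.2 ∉ A ε) (Def.imp
          (Def.and (Def.lt (by fun_prop) (by fun_prop)) (Def.le (by fun_prop) (by fun_prop)))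
          (Def.not ?_))
        exact hA.comp (g := fun p : (K × K) × K => (p.2, p.1.2)) (by fun_prop)
    have huniq : ∀ r r' x, (r, x) ∈ D → (r', x) ∈ D → r = r' := by
      have aux : ∀ r r' x, (r, x) ∈ D → (r', x) ∈ D → ¬ r < r' := by
        intro r r' x h h' hlt
        obtain ⟨_, ⟨hr0, hr1⟩, h1, h2⟩ := h
        obtain ⟨_, ⟨hr0', hr1'⟩, h1', h2'⟩ := h'
        change 0 < r at hr0
        change r' ≤ 1 at hr1'
        obtain ⟨m, hm1, hm2⟩ := exists_between hlt
        exact h2 m ⟨hm1, hm2.le.trans hr1'⟩ (h1' m ⟨hr0.trans hm1, hm2⟩)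
      intro r r' x h h'
      rcases lt_trichotomy r r' with hlt | heq | hlt
      · exact absurd hlt (aux _ _ _ h h')
      · exact heq
      · exact absurd hlt (aux _ _ _ h' h)
    have key := restrained_coord D (fun p => p.2) hD ?_ ?_
    · have hsub : Icc u v ∩ {x | ∃ ε, 0 < ε ∧ x ∈ A ε} ⊆ (fun p : K × K => p.2) '' D := by
        rintro x ⟨hx, ε, hε, hxA⟩
        let S : Set K := {ε | (0 < ε ∧ ε ≤ 1) ∧ x ∈ A ε}
        have hSd : Def K fun ε : K => ε ∈ S := by
          refine Def.and (Def.and (Def.lt (by fun_prop) (by fun_prop)) (Def.le (by fun_prop)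
            (by fun_prop))) ?_
          exact hA.comp (g := fun ε : K => (ε, x)) (by fun_prop)
        have hS1 : min ε 1 ∈ S := by
          refine ⟨⟨lt_min hε one_pos, min_le_right _ _⟩, ?_⟩
          exact hmono _ ε (lt_min hε one_pos) (min_le_left _ _) hxA
        obtain ⟨t, ht⟩ := exists_lub hSd ⟨_, hS1⟩ ⟨1, fun y hy => hy.1.2⟩
        have ht0 : 0 < t := (lt_min hε one_pos).trans_le (ht.1 hS1)
        refine ⟨(t, x), ⟨hx, ⟨ht0, ht.2 fun y hy => hy.1.2⟩, ?_, ?_⟩, rfl⟩
        · rintro ε' ⟨h0, h1⟩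
          change ε' < t at h1
          obtain ⟨y, hy, hy'⟩ : ∃ y ∈ S, ε' < y := by
            by_contra hc
            push Not at hc
            exact absurd (ht.2 hc) (not_le.mpr h1)
          exact hmono ε' y h0 hy'.le hy.2
        · rintro ε' ⟨h0, h1⟩ h2
          change t < ε' at h0
          exact absurd (ht.1 ⟨⟨ht0.trans h0, h1⟩, h2⟩) (not_le.mpr h0)
      have h2 : Ioo u v ⊆ closure ((fun p : K × K => p.2) '' D) := by
        intro x hx
        have h3 : x ∈ closure (Ioo u v ∩ {x | ∃ ε, 0 < ε ∧ x ∈ A ε}) :=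
          isOpen_Ioo.inter_closure ⟨hx, hcl (Ioo_subset_Icc_self hx)⟩
        exact closure_mono ((inter_subset_inter_left _ Ioo_subset_Icc_self).trans hsub) h3
      have h4 := interior_maximal h2 isOpen_Ioo
      rw [key] at h4
      obtain ⟨m, hm⟩ := exists_between huv
      exact h4 hm
    · rintro ⟨r, x⟩ hrx
      have hr0 : 0 < r := hrx.2.1.1
      obtain ⟨s, hs, hsep'⟩ := hsep (r / 2) (half_pos hr0)
      refine ⟨{p | r / 2 < p.1} ∩ {p | |p.2 - x| < s},
        (isOpen_lt (by fun_prop) (by fun_prop)).inter (isOpen_lt (by fun_prop) (by fun_prop)),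
        ⟨half_lt_self hr0, ?_⟩, ?_⟩
      · change |x - x| < s
        rw [sub_self, abs_zero]
        exact hs
      · rintro ⟨r', x'⟩ hp ⟨h1, h2⟩
        have e : x' = x := hsep' x' (hp.2.2.1 (r / 2) ⟨half_pos hr0, h1⟩) x
          (hrx.2.2.1 (r / 2) ⟨half_pos hr0, half_lt_self hr0⟩) hp.1 hrx.1 h2
        subst e
        rw [huniq r' r x' hp hrx]
    · refine Def.and ?_ ?_
      · exact hD.comp (g := fun p : (K × K) × K => p.1) (by fun_prop)
      · exact Def.eq (by fun_prop) (by fun_prop)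

end

end Pool.Agent.IMinK
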