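import Pool.Agent.Lib.MP_ac65b7_lc.KSys

/-!
# Quantifiers, formulas of the open core, and i-minimality
-/

set_option autoImplicit false
set_option linter.unusedSectionVars false

namespace Pool.Agent.IMinK

section

open FirstOrder Set Filter


variable {K : Type} [Field K] [LinearOrder K] [IsStrictOrderedRing K] [TopologicalSpace K]
  [OrderTopology K] [Str K] [hK : Res K]
variable {E : Type} [TopologicalSpace E] [Coord K E]

/-- Compression of the line to `(-1, 1)`. -/
def kap (w : K) : K := w / (1 + |w|)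

/-- The inverse of the compression. -/
def psi (y : K) : K := y / (1 - |y|)

omit [TopologicalSpace K] [OrderTopology K] [Str K] hK in
theorem kap_lt (w : K) : |kap w| < 1 := by
  unfold kap
  have h : 0 < 1 + |w| := by positivity
  rw [abs_div, abs_of_pos h, div_lt_one h]
  linarith [abs_nonneg w]

omit [TopologicalSpace K] [OrderTopology K] [Str K] hK in
theorem psi_kap (w : K) : psi (kap w) = w := by
  unfold psi kap
  have h : 0 < 1 + |w| := by positivity
  rw [abs_div, abs_of_pos h]
  field_simp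
  ring

omit [TopologicalSpace K] [OrderTopology K] [Str K] hK in
theorem kap_psi {y : K} (hy : |y| < 1) : kap (psi y) = y := by
  unfold psi kap
  have h : 0 < 1 - |y| := by linarith
  rw [abs_div, abs_of_pos h]
  field_simp
  ring

omit [Str K] hK in
theorem kap_cont : Continuous (kap : K → K) := by
  unfold kap
  refine Continuous.div (by fun_prop) (by fun_prop) fun w => ?_
  have h : 0 < 1 + |w| := by positivity
  exact h.ne'

omit [Str K] hK in
theorem psi_cont {y : K} (hy : |y| < 1) : ContinuousAt psi y := by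
  unfold psi
  refine ContinuousAt.div (by fun_prop) (by fun_prop) ?_
  have h : 0 < 1 - |y| := by linarith
  exact h.ne'

@[fun_prop]
theorem DefFun.psi' {f : E → K} (hf : DefFun K f) : DefFun K fun x => psi (f x) := by
  unfold psi
  fun_prop

/-- The base family over `E × K` induced by a base family over `E`. -/
def liftN (N : Set (E × K)) : Set ((E × K) × K) := {p | (p.1.1, p.2) ∈ N}

theorem BaseFam.lift {N : Set (E × K)} (hN : BaseFam N) : BaseFam (liftN N) := by
  refine ⟨?_, ?_, ?_, ?_, ?_, ?_⟩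
  · exact hN.def'.comp (g := fun p : (E × K) × K => (p.1.1, p.2)) (by fun_prop)
  · exact hN.closed.preimage (f := fun p : (E × K) × K => (p.1.1, p.2)) (by fun_prop)
  · rw [Set.eq_empty_iff_forall_notMem]
    rintro ⟨⟨x, w⟩, z⟩ hp
    have h1 : IsOpen ((fun q : E × K => ((q.1, w), q.2)) ⁻¹' interior (liftN N)) :=
      isOpen_interior.preimage (by fun_prop)
    have h2 : (fun q : E × K => ((q.1, w), q.2)) ⁻¹' interior (liftN N) ⊆ N := by
      intro q hq
      have h3 : ((q.1, w), q.2) ∈ liftN N := interior_subset hq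
      exact h3
    have h3 := interior_maximal h2 h1
    rw [hN.int] at h3
    exact h3 (show (x, z) ∈ _ from hp)
  · rintro ⟨x, w⟩ z h
    exact hN.bdd x z h
  · rintro ⟨x, w⟩
    exact hN.one x
  · rintro ⟨x, w⟩
    exact hN.neg_one x

/-- The base family obtained by adding the complement of an open dense set. -/
def addN (N : Set (E × K)) (U : Set (E × K)) : Set (E × K) :=
  N ∪ {p | |p.2| ≤ 1 ∧ (|p.2| = 1 ∨ (p.1, psi p.2) ∉ U)}

theorem BaseFam.add {N : Set (E × K)} (hN : BaseFam N) {U : Set (E × K)} (hU : ODD K U) :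
    BaseFam (addN N U) := by
  have hcl : IsClosed {p : E × K | |p.2| ≤ 1 ∧ (|p.2| = 1 ∨ (p.1, psi p.2) ∉ U)} := by
    rw [← isOpen_compl_iff, isOpen_iff_mem_nhds]
    rintro ⟨x, z⟩ hp
    by_cases h1 : |z| ≤ 1
    · have h2 : ¬ (|z| = 1 ∨ (x, psi z) ∉ U) := fun h2 => hp ⟨h1, h2⟩
      push Not at h2
      have h3 : |z| < 1 := lt_of_le_of_ne h1 h2.1
      have h4 : ContinuousAt (fun p : E × K => (p.1, psi p.2)) (x, z) := by
        refine ContinuousAt.prodMk continuousAt_fst ?_
        exact ContinuousAt.comp (f := fun p : E × K => p.2) (x := (x, z)) (psi_cont h3)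
          continuousAt_snd
      have h5 : ∀ᶠ p : E × K in nhds (x, z), (p.1, psi p.2) ∈ U :=
        h4.eventually (hU.isOpen.mem_nhds h2.2)
      have h6 : ∀ᶠ p : E × K in nhds (x, z), |p.2| < 1 :=
        (isOpen_lt (f := fun p : E × K => |p.2|) (by fun_prop) (by fun_prop)).mem_nhds h3
      filter_upwards [h5, h6] with p hp1 hp2 hpS
      rcases hpS.2 with h | h
      · exact absurd h hp2.ne
      · exact h hp1
    · push Not at h1
      have h6 : ∀ᶠ p : E × K in nhds (x, z), 1 < |p.2| :=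
        (isOpen_lt (g := fun p : E × K => |p.2|) (by fun_prop) (by fun_prop)).mem_nhds h1
      filter_upwards [h6] with p hp1 hpS
      exact absurd hpS.1 (not_le.mpr hp1)
  have hint : interior {p : E × K | |p.2| ≤ 1 ∧ (|p.2| = 1 ∨ (p.1, psi p.2) ∉ U)} = ∅ := by
    rw [Set.eq_empty_iff_forall_notMem]
    rintro ⟨x, z⟩ hp
    obtain ⟨z₁, hz₁, hz₂⟩ : ∃ z₁, |z₁| < 1 ∧ (x, z₁) ∈
        interior {p : E × K | |p.2| ≤ 1 ∧ (|p.2| = 1 ∨ (p.1, psi p.2) ∉ U)} := by
      have hz : |z| ≤ 1 := (interior_subset hp).1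
      have h1 : ContinuousAt (fun t : K => (x, t * z)) 1 := by fun_prop
      have h2 : ∀ᶠ t : K in nhds 1, (x, t * z) ∈
          interior {p : E × K | |p.2| ≤ 1 ∧ (|p.2| = 1 ∨ (p.1, psi p.2) ∉ U)} := by
        refine h1.eventually (isOpen_interior.mem_nhds ?_)
        change (x, 1 * z) ∈ _
        rw [one_mul]
        exact hp
      obtain ⟨ρ, hρ, hball⟩ := (eventually_near K).mp h2
      set t : K := max 0 (1 - ρ / 2) with ht
      have ht0 : 0 ≤ t := le_max_left _ _
      have ht1 : t < 1 := max_lt one_pos (by linarith)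
      have ht2 : 1 - ρ / 2 ≤ t := le_max_right _ _
      refine ⟨t * z, ?_, hball _ ?_⟩
      · rw [abs_mul, abs_of_nonneg ht0]
        calc t * |z| ≤ t * 1 := mul_le_mul_of_nonneg_left hz ht0
          _ < 1 := by linarith
      · rw [near_self, abs_lt]
        constructor <;> linarith
    have h1 : IsOpen ((fun q : E × K => (q.1, kap q.2)) ⁻¹'
        interior {p : E × K | |p.2| ≤ 1 ∧ (|p.2| = 1 ∨ (p.1, psi p.2) ∉ U)}) := by
      refine isOpen_interior.preimage ?_
      exact continuous_fst.prodMk (kap_cont.comp continuous_snd)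
    obtain ⟨q, hq1, hq2⟩ := hU.dense.inter_open_nonempty _ h1 ⟨(x, psi z₁), by
      rw [Set.mem_preimage]
      change (x, kap (psi z₁)) ∈ interior _
      rw [kap_psi hz₁]
      exact hz₂⟩
    have h2 := (interior_subset hq1).2
    change |kap q.2| = 1 ∨ (q.1, psi (kap q.2)) ∉ U at h2
    rw [psi_kap] at h2
    rcases h2 with h | h
    · exact absurd h (kap_lt q.2).ne
    · exact h hq2
  refine ⟨?_, ?_, ?_, ?_, ?_, ?_⟩
  · refine hN.def'.or (Def.and (Def.le (by fun_prop) (by fun_prop)) (Def.or (Def.eq (by fun_prop)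
      (by fun_prop)) (Def.not ?_)))
    exact hU.def'.comp (g := fun p : E × K => (p.1, psi p.2)) (by fun_prop)
  · exact hN.closed.union hcl
  · unfold addN
    rw [interior_union_isClosed_of_interior_empty hN.closed hint, hN.int]
  · rintro x z (h | h)
    · exact hN.bdd x z h
    · exact h.1
  · exact fun x => Or.inl (hN.one x)
  · exact fun x => Or.inl (hN.neg_one x)

theorem MM_def {N : Set (E × K)} (hN : BaseFam N) {U : Set E} (hU : ODD K U) (m : ℕ) :
    Def K fun z : E × (Fin m → K) => z ∈ MM N U m := by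
  refine Def.and (hU.def'.comp (by fun_prop)) (Def.finite_all fun j => ?_)
  exact hN.def'.comp (g := fun q : E × (Fin m → K) => (q.1, q.2 j)) (by fun_prop)

theorem snoc_def (m : ℕ) : DefFun K fun q : (E × (Fin m → K)) × K =>
    (q.1.1, (Fin.snoc (α := fun _ => K) q.1.2 q.2 : Fin (m + 1) → K)) := by
  refine DefFun.prodMk (by fun_prop) (DefFun.pi fun i => ?_)
  refine Fin.lastCases ?_ (fun j => ?_) i
  · simp only [Fin.snoc_last]
    fun_prop
  · simp only [Fin.snoc_castSucc]
    fun_prop

omit [Field K] [LinearOrder K] [IsStrictOrderedRing K] [OrderTopology K] [Str K] hK in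
theorem snoc_cont (m : ℕ) : Continuous fun q : (E × (Fin m → K)) × K =>
    (q.1.1, (Fin.snoc (α := fun _ => K) q.1.2 q.2 : Fin (m + 1) → K)) := by
  refine Continuous.prodMk (by fun_prop) (continuous_pi fun i => ?_)
  refine Fin.lastCases ?_ (fun j => ?_) i
  · simp only [Fin.snoc_last]
    fun_prop
  · simp only [Fin.snoc_castSucc]
    fun_prop

/-- Universal quantification. -/
theorem Tame.all (hSB : SB K E) {N : Set (E × K)} (hN : BaseFam N) {m : ℕ}
    {P : E → (Fin m → K) → K → Prop}
    (h1 : Tame (liftN N) (fun (p : E × K) (y : Fin m → K) => P p.1 y p.2))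
    (h2 : ∀ N' : Set (E × K), BaseFam N' → Tame N' (fun (x : E) (y : Fin (m + 1) → K) =>
      P x (fun j => y j.castSucc) (psi (y (Fin.last m))))) :
    Tame N (fun x y => ∀ w, P x y w) := by
  obtain ⟨V₁, hV₁, R₁, hR₁, hinv1⟩ := h1
  set N' := addN N V₁ with hN'def
  have hN' : BaseFam N' := hN.add hV₁
  have hNN' : N ⊆ N' := subset_union_left
  obtain ⟨U₂, hU₂, R₂, hR₂, hinv2⟩ := h2 _ hN'
  obtain ⟨T, hT, U₀, hU₀, hnice⟩ := exists_nice hSB hN'
  set U := U₀ ∩ U₂ with hUdef
  have hU : ODD K U := hU₀.inter hU₂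
  -- fibre points
  have hA : LiftData (K := K) (MM N U m) (MM N' U₂ (m + 1)) R₂ (fun _ z => fib N' z.1)
      (fun q : (E × (Fin m → K)) × K =>
        (q.1.1, (Fin.snoc (α := fun _ => K) q.1.2 q.2 : Fin (m + 1) → K))) (fun _ => (0 : K)) := by
    refine ⟨MM_def hN hU m, hR₂, ?_, ⟨1, ?_⟩, fun _ _ _ _ _ _ => subset_rfl, ?_, ?_, snoc_def m,
      ?_, ?_, by fun_prop, fun _ _ _ _ _ _ => Filter.Eventually.of_forall fun _ _ _ => rfl,
      fun _ _ _ _ _ _ _ _ _ _ _ h _ => h⟩
    · exact hN'.def'.comp (g := fun p : (K × (E × (Fin m → K))) × K => (p.1.2.1, p.2))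
        (by fun_prop)
    · intro ζ _ z _ c hc i
      exact hN'.bdd z.1 c hc
    · intro ζ _ z _ c hc
      have h3 : IsClosed {p : (E × (Fin m → K)) × K | (p.1.1, p.2) ∈ N'} :=
        hN'.closed.preimage (by fun_prop)
      filter_upwards [h3.isOpen_compl.mem_nhds (x := (z, c)) hc] with p hp _ hpF
      exact hp hpF
    · intro ζ _ z hz c hc ε hε
      filter_upwards [(continuous_fst.tendsto z).eventually
        (hnice.lsc z.1 hz.1.1 c hc ε hε)] with z' h1 _
      obtain ⟨c', hc', hlt⟩ := h1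
      exact ⟨c', hc', near_self.mpr hlt⟩
    · intro ζ _ z hz c hc
      refine ⟨hz.1.2, fun i => ?_⟩
      refine Fin.lastCases ?_ (fun j => ?_) i
      · simp only [Fin.snoc_last]
        exact hc
      · simp only [Fin.snoc_castSucc]
        exact hNN' (hz.2 j)
    · intro ζ _ z _ c _
      exact (snoc_cont m).continuousAt
  -- gaps
  have hmid : ∀ (x : E) (θ : K) (g : K × K), g ∈ GG N' θ x → ∀ ω, g.1 < ω → ω < g.2 →
      |ω| < 1 ∧ (x, psi ω) ∈ V₁ := by
    intro x θ g hg ω h1 h2
    obtain ⟨k1, k2, _⟩ := GG_bdd hN' hg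
    rw [abs_le] at k1 k2
    have h3 : |ω| < 1 := by
      rw [abs_lt]
      constructor <;> linarith [k1.1, k2.2]
    refine ⟨h3, ?_⟩
    by_contra hcon
    exact hg.1.2.2.2 ω h1 h2 (Or.inr ⟨h3.le, Or.inr hcon⟩)
  have hmid' : ∀ (x : E) (θ : K) (g : K × K), g ∈ GG N' θ x →
      g.1 < (g.1 + g.2) / 2 ∧ (g.1 + g.2) / 2 < g.2 := by
    intro x θ g hg
    have := hg.1.1
    constructor <;> linarith
  have hB : LiftData (K := K) (MM N U m) (MM (liftN N) V₁ m) R₁
      (fun ζ z => {q : K × (K × K) | q.1 ∈ T ζ ∧ q.2 ∈ GG N' q.1 z.1})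
      (fun q : (E × (Fin m → K)) × (K × (K × K)) =>
        ((q.1.1, psi ((q.2.2.1 + q.2.2.2) / 2)), q.1.2)) (fun q => q.1) := by
    refine ⟨MM_def hN hU m, hR₁, ?_, ⟨2, ?_⟩, ?_, ?_, ?_, by fun_prop, ?_, ?_, by fun_prop, ?_, ?_⟩
    · refine Def.and ?_ ?_
      · exact hT.def'.comp (g := fun p : (K × (E × (Fin m → K))) × (K × (K × K)) =>
          (p.1.1, p.2.1)) (by fun_prop)
      · exact (GG_def hN').comp (g := fun p : (K × (E × (Fin m → K))) × (K × (K × K)) =>
          ((p.2.1, p.1.2.1), p.2.2)) (by fun_prop)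
    · rintro ζ hζ z _ q ⟨hq1, hq2⟩ i
      obtain ⟨k1, k2, _⟩ := GG_bdd hN' hq2
      rcases i with i | i | i
      · change |q.1| ≤ 2
        rw [abs_of_nonneg (hT.nonneg ζ hζ _ hq1)]
        exact hT.le_two ζ hζ _ hq1
      · exact k1.trans one_le_two
      · exact k2.trans one_le_two
    · rintro ζ ζ' hζ hle z _ q ⟨hq1, hq2⟩
      exact ⟨hT.mono ζ ζ' hζ hle hq1, hq2⟩
    · intro ζ hζ z hz q hq
      obtain ⟨s, hs, hsep⟩ := hT.disc ζ hζ
      by_cases hq1 : q.1 ∈ T ζ
      · have hq2 : q.2 ∉ GG N' q.1 z.1 := fun h => hq ⟨hq1, h⟩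
        have h2 := hnice.gcl ζ hζ q.1 hq1 z.1 hz.1.1 q.2 hq2
        have hc : Continuous fun p : (E × (Fin m → K)) × (K × (K × K)) => (p.1.1, p.2.2) := by
          fun_prop
        have hc' : Continuous fun p : (E × (Fin m → K)) × (K × (K × K)) => p.2.1 := by fun_prop
        filter_upwards [(hc.tendsto (z, q)).eventually h2,
          (hc'.tendsto (z, q)).eventually (near_mem_nhds q.1 hs)] with p hp1 hp2 _ hpF
        have e : p.2.1 = q.1 := hsep _ hpF.1 _ hq1 (near_self.mp hp2)
        apply hp1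
        rw [← e]
        exact hpF.2
      · have hc : Continuous fun p : (E × (Fin m → K)) × (K × (K × K)) => p.2.1 := by fun_prop
        filter_upwards [(hc.tendsto (z, q)).eventually
          ((closed_of_disc hs hsep).isOpen_compl.mem_nhds hq1)] with p hp _ hpF
        exact hp hpF.1
    · rintro ζ hζ z hz q ⟨hq1, hq2⟩ ε hε
      filter_upwards [(continuous_fst.tendsto z).eventually
        (hnice.glsc ζ hζ q.1 hq1 z.1 hz.1.1 q.2 hq2 ε hε)] with z' h1 _
      obtain ⟨g', hg', hd⟩ := h1
      exact ⟨(q.1, g'), ⟨hq1, hg'⟩, near_prod.mpr ⟨near.refl _ hε, hd⟩⟩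
    · rintro ζ hζ z hz q ⟨hq1, hq2⟩
      obtain ⟨k1, k2⟩ := hmid' z.1 q.1 q.2 hq2
      exact ⟨(hmid z.1 q.1 q.2 hq2 _ k1 k2).2, fun j => hz.2 j⟩
    · rintro ζ hζ z hz q ⟨hq1, hq2⟩
      obtain ⟨k1, k2⟩ := hmid' z.1 q.1 q.2 hq2
      have k3 := (hmid z.1 q.1 q.2 hq2 _ k1 k2).1
      have hc : ContinuousAt (fun p : (E × (Fin m → K)) × (K × (K × K)) =>
          psi ((p.2.2.1 + p.2.2.2) / 2)) (z, q) :=
        ContinuousAt.comp (f := fun p : (E × (Fin m → K)) × (K × (K × K)) =>
          (p.2.2.1 + p.2.2.2) / 2) (g := psi) (x := (z, q)) (psi_cont k3)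
          (Continuous.continuousAt (by fun_prop))
      exact ContinuousAt.prodMk (ContinuousAt.prodMk (by fun_prop) hc) (by fun_prop)
    · rintro ζ hζ z hz q ⟨hq1, hq2⟩
      obtain ⟨s, hs, hsep⟩ := hT.disc ζ hζ
      have hc' : Continuous fun p : (E × (Fin m → K)) × (K × (K × K)) => p.2.1 := by fun_prop
      filter_upwards [(hc'.tendsto (z, q)).eventually (near_mem_nhds q.1 hs)] with p hp _ hpF
      exact (hsep _ hpF.1 _ hq1 (near_self.mp hp)).symm
    · rintro ζ ζ' hζ hle z hz q ⟨hq1, hq2⟩ z' hz' q' ⟨hq1', hq2'⟩ he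
      refine ⟨?_, hq2'⟩
      rw [← show q.1 = q'.1 from he]
      exact hq1
  refine ⟨U, hU, _, hA.lift.and hB.lift, fun z hz z' hz' hgood hint => ?_⟩
  have hgA : ∀ ζ, 0 < ζ → lft R₂ (fun _ z => fib N' z.1) (fun q : (E × (Fin m → K)) × K =>
        (q.1.1, (Fin.snoc (α := fun _ => K) q.1.2 q.2 : Fin (m + 1) → K))) (fun _ => (0 : K))
        ζ z' z := fun ζ hζ => hA.lift.symm ζ hζ z hz z' hz' (hgood ζ hζ).1
  have hgB := fun ζ hζ => hB.lift.symm ζ hζ z hz z' hz' (hgood ζ hζ).2
  -- the interior condition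
  have hint' : ∀ j, |z'.2 j| < 1 := by
    obtain ⟨a, c, hg, -, -⟩ := gap_between (hN'.fib_def z.1) (hN'.fib_closed z.1)
      (hnice.int z.1 hz.1.1) (hN'.neg_one z.1) (hN'.one z.1)
      (show (-1 : K) < 1 by linarith [one_pos (α := K)])
    obtain ⟨ζ, hζ, θ, hθ, hmem⟩ := hnice.small z.1 hz.1.1 (a, c) hg
    obtain ⟨q, ⟨hq1, hq2⟩, hq⟩ := hB.limit hz hz' (fun ζ hζ => (hgood ζ hζ).2) hζ
      (c := (θ, (a, c))) ⟨hθ, hmem⟩
    have hm1 := hB.fmem ζ hζ z hz (θ, (a, c)) ⟨hθ, hmem⟩
    have hm2 := hB.fmem ζ hζ z' hz' q ⟨hq1, hq2⟩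
    exact (hinv1 _ hm1 _ hm2 hq hint).1
  refine ⟨hint', fun hall w => ?_⟩
  have hκ := abs_lt.mp (kap_lt w)
  by_cases hω : kap w ∈ fib N' z'.1
  · obtain ⟨ω, hω1, hω2⟩ := hA.limit hz' hz hgA one_pos hω
    have hmem' : ((z'.1, (Fin.snoc (α := fun _ => K) z'.2 (kap w) : Fin (m + 1) → K)) :
        E × (Fin (m + 1) → K)) ∈ MM N' U₂ (m + 1) := hA.fmem 1 one_pos z' hz' _ hω
    have hmem : ((z.1, (Fin.snoc (α := fun _ => K) z.2 ω : Fin (m + 1) → K)) :
        E × (Fin (m + 1) → K)) ∈ MM N' U₂ (m + 1) := hA.fmem 1 one_pos z hz _ hω1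
    have hsn : ∀ j, |(Fin.snoc (α := fun _ => K) z'.2 (kap w) : Fin (m + 1) → K) j| < 1 := by
      intro i
      refine Fin.lastCases ?_ (fun j => ?_) i
      · simp only [Fin.snoc_last]
        exact kap_lt w
      · simp only [Fin.snoc_castSucc]
        exact hint' j
    have h3 := (hinv2 _ hmem' _ hmem hω2 hsn).1
    have h4 := (hinv2 _ hmem _ hmem' (fun ζ hζ => hR₂.symm ζ hζ _ hmem' _ hmem (hω2 ζ hζ)) h3).2
    simp only [Fin.snoc_castSucc, Fin.snoc_last, psi_kap] at h4
    exact h4 (hall _)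
  · obtain ⟨a, c, hg, k1, k2, k3, k4⟩ := gap_exists (hN'.fib_def z'.1) (hN'.fib_closed z'.1)
      (hN'.neg_one z'.1) (hN'.one z'.1) hω hκ.1 hκ.2
    obtain ⟨ζ, hζ, θ, hθ, hmem⟩ := hnice.small z'.1 hz'.1.1 (a, c) hg
    obtain ⟨q, ⟨hq1, hq2⟩, hq⟩ := hB.limit hz' hz hgB hζ (c := (θ, (a, c))) ⟨hθ, hmem⟩
    obtain ⟨l1, l2⟩ := hmid' z'.1 θ (a, c) hmem
    obtain ⟨l3, l4⟩ := hmid' z.1 q.1 q.2 hq2
    set μ : K := (a + c) / 2 with hμ
    set ν : K := (q.2.1 + q.2.2) / 2 with hν
    have hmz : ((z.1, psi ν), z.2) ∈ MM (liftN N) V₁ m :=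
      ⟨(hmid z.1 q.1 q.2 hq2 _ l3 l4).2, fun j => hz.2 j⟩
    have hmz' : ∀ ω, a < ω → ω < c → ((z'.1, psi ω), z'.2) ∈ MM (liftN N) V₁ m :=
      fun ω h1 h2 => ⟨(hmid z'.1 θ (a, c) hmem ω h1 h2).2, fun j => hz'.2 j⟩
    have hRμ : ∀ ζ, 0 < ζ → R₁ ζ ((z.1, psi ν), z.2) ((z'.1, psi μ), z'.2) := fun ζ hζ =>
      hR₁.symm ζ hζ _ (hmz' μ l1 l2) _ hmz (hq ζ hζ)
    have hmove : ∀ ζ, 0 < ζ → R₁ ζ ((z'.1, psi μ), z'.2) ((z'.1, psi (kap w)), z'.2) := by
      intro ζ hζ
      have hfdef : DefFun K fun t : K => ((z'.1, psi t), z'.2) := by fun_prop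
      have hfc : ∀ t, a < t → t < c → ContinuousAt (fun t : K => ((z'.1, psi t), z'.2)) t := by
        intro t h1 h2
        have h3 := psi_cont (hmid z'.1 θ (a, c) hmem t h1 h2).1
        exact ContinuousAt.prodMk (ContinuousAt.prodMk continuousAt_const h3) continuousAt_const
      rcases le_total μ (kap w) with h | h
      · exact hR₁.along hfdef h (fun t h1 h2 => hmz' t (l1.trans_le h1) (h2.trans_lt k3))
          (fun t h1 h2 => hfc t (l1.trans_le h1) (h2.trans_lt k3)) hζ
      · have h5 := hR₁.along hfdef h (fun t h1 h2 => hmz' t (k2.trans_le h1) (h2.trans_lt l2))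
          (fun t h1 h2 => hfc t (k2.trans_le h1) (h2.trans_lt l2)) hζ
        exact hR₁.symm ζ hζ _ (hmz' _ k2 k3) _ (hmz' μ l1 l2) h5
    have hfin := (hinv1 _ hmz _ (hmz' (kap w) k2 k3) (fun ζ hζ => hR₁.trans ζ hζ _ hmz _
      (hmz' μ l1 l2) _ (hmz' _ k2 k3) (hRμ ζ hζ) (hmove ζ hζ)) hint).2
    simp only [psi_kap] at hfin
    exact hfin (hall _)

/-- Admissible values of the variables. -/
structure Adm {m : ℕ} (q : E → (Fin m → K) → K) : Prop where
  def' : DefFun K fun p : E × (Fin m → K) => q p.1 p.2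
  cont : ∀ x y, (∀ j, |y j| < 1) →
    ContinuousAt (fun p : E × (Fin m → K) => q p.1 p.2) (x, y)

theorem main_tame (L' : FirstOrder.Language.{0, 0}) [L'.Structure K]
    (hF : ∀ n, IsEmpty (L'.Functions n))
    (hRel : ∀ (n : ℕ) (R : L'.Relations n),
      IsOpen {v : Fin n → K | FirstOrder.Language.Structure.RelMap R v} ∧
      (Set.univ : Set K).Definable (Str.L K)
        {v : Fin n → K | FirstOrder.Language.Structure.RelMap R v})
    {α : Type} {k : ℕ} (φ : L'.BoundedFormula α k) :
    ∀ (E : Type) [TopologicalSpace E] [Coord K E], SB K E → ∀ (m : ℕ)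
      (N : Set (E × K)), BaseFam N → ∀ q : α ⊕ Fin k → E → (Fin m → K) → K,
      (∀ v, Adm (q v)) →
      Tame N (fun x y => φ.Realize (fun i => q (Sum.inl i) x y) (fun i => q (Sum.inr i) x y)) := by
  have hterm : ∀ {k : ℕ} (t : L'.Term (α ⊕ Fin k)), ∃ v, ∀ val : α ⊕ Fin k → K,
      t.realize val = val v := by
    intro k t
    cases t with
    | var v => exact ⟨v, fun _ => rfl⟩
    | func f ts => exact ((hF _).false f).elim
  have helim : ∀ {E : Type} {m k : ℕ} (q : α ⊕ Fin k → E → (Fin m → K) → K) (x : E)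
      (y : Fin m → K), Sum.elim (fun i => q (Sum.inl i) x y) (fun i => q (Sum.inr i) x y) =
      fun v => q v x y := by
    intro E m k q x y
    funext v
    rcases v with v | v <;> rfl
  have hfalse : ∀ (E : Type) [TopologicalSpace E] [Coord K E], SB K E → ∀ (m : ℕ)
      (N : Set (E × K)), BaseFam N → Tame N (fun (_ : E) (_ : Fin m → K) => False) := by
    intro E _ _ hSB m N hN
    refine (Tame.of_closed hSB hN (P := fun _ _ => True) (Def.const True) ?_).imp
      (Tame.of_closed hSB hN (P := fun _ _ => False) (Def.const False) ?_) |>.congr ?_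
    · intro x y _ h
      exact absurd trivial h
    · intro x y _ h
      exact Filter.Eventually.of_forall fun _ => h
    · intro x y
      tauto
  induction φ with
  | falsum =>
    intro E _ _ hSB m N hN q hq
    exact hfalse E hSB m N hN
  | equal t₁ t₂ =>
    intro E _ _ hSB m N hN q hq
    obtain ⟨v₁, h₁⟩ := hterm t₁
    obtain ⟨v₂, h₂⟩ := hterm t₂
    refine Tame.congr (P := fun x y => q v₁ x y = q v₂ x y) (Tame.of_closed hSB hN
      (Def.eq (hq v₁).def' (hq v₂).def') ?_) ?_
    · intro x y hy hne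
      exact ((hq v₁).cont x y hy).ne_iff_eventually_ne ((hq v₂).cont x y hy) |>.mp hne
    · intro x y
      change _ ↔ t₁.realize _ = t₂.realize _
      rw [h₁, h₂, helim]
  | @rel k n R ts =>
    intro E _ _ hSB m N hN q hq
    choose v hv using fun i => hterm (ts i)
    obtain ⟨hRo, hRd⟩ := hRel n R
    have hRd' : Def K fun w : Fin n → K => FirstOrder.Language.Structure.RelMap R w := hRd
    have hneg : Tame N (fun x y => ¬ FirstOrder.Language.Structure.RelMap R
        (fun i => q (v i) x y)) := by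
      refine Tame.of_closed hSB hN (Def.not ?_) ?_
      · exact hRd'.comp (g := fun (p : E × (Fin m → K)) i => q (v i) p.1 p.2)
          (DefFun.pi fun i => (hq (v i)).def')
      · intro x y hy hnn
        rw [not_not] at hnn
        have hc : ContinuousAt (fun (p : E × (Fin m → K)) i => q (v i) p.1 p.2) (x, y) := by
          rw [continuousAt_pi]
          exact fun i => (hq (v i)).cont x y hy
        filter_upwards [hc.eventually (hRo.mem_nhds hnn)] with p hp
        rw [not_not]
        exact hp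
    refine (hneg.imp (hfalse E hSB m N hN)).congr fun x y => ?_
    rw [imp_false, not_not]
    change _ ↔ FirstOrder.Language.Structure.RelMap R fun i => (ts i).realize _
    simp_rw [hv, helim]
  | imp f₁ f₂ ih₁ ih₂ =>
    intro E _ _ hSB m N hN q hq
    exact (ih₁ E hSB m N hN q hq).imp (ih₂ E hSB m N hN q hq)
  | @all k f ih =>
    intro E _ _ hSB m N hN q hq
    have key := Tame.all hSB hN (m := m) (P := fun x y w => f.Realize
      (fun i => q (Sum.inl i) x y) (Fin.snoc (α := fun _ => K) (fun i => q (Sum.inr i) x y) w))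
      ?_ ?_
    · exact key
    · have h1 := ih (E × K) (SB_prod hSB) m (liftN N) hN.lift
        (fun v (p : E × K) y => Sum.elim (fun i => q (Sum.inl i) p.1 y)
          (fun i => Fin.snoc (α := fun _ => K) (fun i => q (Sum.inr i) p.1 y) p.2 i) v) ?_
      · exact h1
      · have hcomp : ∀ v, Adm (fun (p : E × K) (y : Fin m → K) => q v p.1 y) := by
          intro v
          refine ⟨?_, ?_⟩
          · exact DefFun.comp (g := fun p : E × (Fin m → K) => q v p.1 p.2)
              (f := fun p : (E × K) × (Fin m → K) => (p.1.1, p.2)) (hq v).def' (by fun_prop)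
          · rintro ⟨x, w⟩ y hy
            exact ContinuousAt.comp (f := fun p : (E × K) × (Fin m → K) => (p.1.1, p.2))
              (g := fun p : E × (Fin m → K) => q v p.1 p.2) (x := ((x, w), y))
              ((hq v).cont x y hy) (by fun_prop)
        intro v
        rcases v with v | v
        · exact hcomp _
        · refine Fin.lastCases ?_ (fun j => ?_) v
          · simp only [Sum.elim_inr, Fin.snoc_last]
            exact ⟨by fun_prop, fun _ _ _ => by fun_prop⟩
          · simp only [Sum.elim_inr, Fin.snoc_castSucc]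
            exact hcomp _
    · intro N' hN'
      have h1 := ih E hSB (m + 1) N' hN'
        (fun v (x : E) y => Sum.elim (fun i => q (Sum.inl i) x (fun j => y j.castSucc))
          (fun i => Fin.snoc (α := fun _ => K) (fun i => q (Sum.inr i) x (fun j => y j.castSucc))
            (psi (y (Fin.last m))) i) v) ?_
      · exact h1
      · have hcomp : ∀ v, Adm (fun (x : E) (y : Fin (m + 1) → K) =>
            q v x (fun j => y j.castSucc)) := by
          intro v
          refine ⟨?_, ?_⟩
          · exact DefFun.comp (g := fun p : E × (Fin m → K) => q v p.1 p.2)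
              (f := fun p : E × (Fin (m + 1) → K) => (p.1, fun j => p.2 j.castSucc)) (hq v).def'
              (DefFun.prodMk (by fun_prop) (DefFun.pi fun j => by fun_prop))
          · rintro x y hy
            exact ContinuousAt.comp
              (f := fun p : E × (Fin (m + 1) → K) => (p.1, fun j => p.2 j.castSucc))
              (g := fun p : E × (Fin m → K) => q v p.1 p.2) (x := (x, y))
              ((hq v).cont x _ fun j => hy j.castSucc) (by fun_prop)
        intro v
        rcases v with v | v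
        · exact hcomp _
        · refine Fin.lastCases ?_ (fun j => ?_) v
          · simp only [Sum.elim_inr, Fin.snoc_last]
            refine ⟨by fun_prop, fun x y hy => ?_⟩
            exact ContinuousAt.comp (f := fun p : E × (Fin (m + 1) → K) => p.2 (Fin.last m))
              (g := psi) (x := (x, y)) (psi_cont (hy _)) (by fun_prop)
          · simp only [Sum.elim_inr, Fin.snoc_castSucc]
            exact hcomp _

/-- The open core of a restrained definably complete expansion of an ordered field is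
i-minimal. -/
theorem iminimal (L' : FirstOrder.Language.{0, 0}) [L'.Structure K]
    (hF : ∀ n, IsEmpty (L'.Functions n))
    (hRel : ∀ (n : ℕ) (R : L'.Relations n),
      IsOpen {v : Fin n → K | FirstOrder.Language.Structure.RelMap R v} ∧
      (Set.univ : Set K).Definable (Str.L K)
        {v : Fin n → K | FirstOrder.Language.Structure.RelMap R v})
    (X : Set K) (hX : (Set.univ : Set K).Definable L' {v : Fin 1 → K | v 0 ∈ X}) :
    (interior X).Nonempty ∨ interior (closure X) = ∅ := by
  obtain ⟨φ, hφ⟩ := Set.definable_iff_exists_formula_sum.mp hX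
  let N : Set (K × K) := {p | p.2 = 1 ∨ p.2 = -1}
  have hN : BaseFam N := by
    refine ⟨?_, ?_, ?_, ?_, fun x => Or.inl rfl, fun x => Or.inr rfl⟩
    · exact Def.or (Def.eq (by fun_prop) (by fun_prop)) (Def.eq (by fun_prop) (by fun_prop))
    · exact (isClosed_eq (by fun_prop) (by fun_prop)).union
        (isClosed_eq (by fun_prop) (by fun_prop))
    · rw [Set.eq_empty_iff_forall_notMem]
      rintro ⟨x, z⟩ hp
      obtain ⟨ε, hε, hball⟩ := (eventually_near K).mp (isOpen_interior.mem_nhds hp)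
      have h1 : ∀ w, |w - z| < ε → w = 1 ∨ w = -1 := by
        intro w hw
        have h2 : (x, w) ∈ interior N :=
          hball (x, w) (near_prod.mpr ⟨near.refl x hε, near_self.mpr hw⟩)
        have h3 : (x, w) ∈ N := interior_subset h2
        exact h3
      set ρ : K := min ε 1 with hρ
      have hρ0 : 0 < ρ := lt_min hε one_pos
      have hρ1 : ρ ≤ ε := min_le_left _ _
      have hρ2 : ρ ≤ 1 := min_le_right _ _
      have h2 := h1 z (by rw [sub_self, abs_zero]; exact hε)
      have h3 := h1 (z + ρ / 2) (by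
        rw [abs_lt]
        constructor <;> linarith)
      rcases h2 with h2 | h2 <;> rcases h3 with h3 | h3 <;> linarith
    · rintro x z (h | h)
      · have h' : z = 1 := h
        rw [h', abs_one]
      · have h' : z = -1 := h
        rw [h', abs_neg, abs_one]
  obtain ⟨U, hU, R, hR, hinv⟩ := main_tame L' hF hRel φ K SB_line 0 N hN
    (fun v x _ => Sum.elim (fun i => Sum.elim (fun a : (Set.univ : Set K) => (a : K))
      (fun _ : Fin 1 => x) i) (fun i : Fin 0 => i.elim0) v) (by
        intro v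
        rcases v with (v | v) | v
        · exact ⟨by simp only [Sum.elim_inl]; fun_prop, fun _ _ _ => by
            simp only [Sum.elim_inl]; fun_prop⟩
        · exact ⟨by simp only [Sum.elim_inl, Sum.elim_inr]; fun_prop, fun _ _ _ => by
            simp only [Sum.elim_inl, Sum.elim_inr]; fun_prop⟩
        · exact v.elim0)
  have hmem : ∀ x : K, x ∈ X ↔ φ.Realize (Sum.elim (fun a : (Set.univ : Set K) => (a : K))
      (fun _ : Fin 1 => x)) := by
    intro x
    have h1 : (fun _ : Fin 1 => x) ∈ {v : Fin 1 → K | v 0 ∈ X} ↔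
        (fun _ : Fin 1 => x) ∈ {v : Fin 1 → K | φ.Realize (Sum.elim (fun a : (Set.univ : Set K) =>
          (a : K)) v)} := by rw [hφ]
    exact h1
  have hmov : ∀ x y : K, x ≤ y → (∀ t, x ≤ t → t ≤ y → t ∈ U) → (x ∈ X ↔ y ∈ X) := by
    intro x y hxy hxyU
    have hMM : ∀ t, t ∈ U → ((t, (fun i => i.elim0 : Fin 0 → K)) : K × (Fin 0 → K)) ∈ MM N U 0 :=
      fun t ht => ⟨ht, fun i => i.elim0⟩
    have hR1 : ∀ ζ, 0 < ζ → R ζ ((x, (fun i => i.elim0 : Fin 0 → K)) : K × (Fin 0 → K))
        (y, (fun i => i.elim0 : Fin 0 → K)) := by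
      intro ζ hζ
      exact hR.along (f := fun t => (t, (fun i => i.elim0 : Fin 0 → K))) (by fun_prop) hxy
        (fun t h1 h2 => hMM t (hxyU t h1 h2)) (fun t _ _ => by fun_prop) hζ
    have e0 : ∀ (v : (Set.univ : Set K) ⊕ Fin 1 → K) (d d' : Fin 0 → K),
        Language.BoundedFormula.Realize φ v d → Language.BoundedFormula.Realize φ v d' := by
      intro v d d' h
      rwa [Subsingleton.elim d' d]
    have hx := hMM x (hxyU x le_rfl hxy)
    have hy := hMM y (hxyU y hxy le_rfl)
    rw [hmem, hmem]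
    constructor
    · intro h
      exact e0 _ _ _ ((hinv _ hx _ hy hR1 (fun j => j.elim0)).2 (e0 _ _ _ h))
    · intro h
      exact e0 _ _ _ ((hinv _ hy _ hx (fun ζ hζ => hR.symm ζ hζ _ hx _ hy (hR1 ζ hζ))
        (fun j => j.elim0)).2 (e0 _ _ _ h))
  by_cases hne : (X ∩ U).Nonempty
  · left
    obtain ⟨x₀, hx₀, hx₀U⟩ := hne
    obtain ⟨r, hr, hball⟩ := (eventually_near K).mp (hU.isOpen.mem_nhds hx₀U)
    refine ⟨x₀, ?_⟩
    rw [mem_interior_iff_mem_nhds]
    refine (eventually_near K).mpr ⟨r, hr, fun x₁ hx₁ => ?_⟩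
    rw [near_self, abs_lt] at hx₁
    rcases le_total x₀ x₁ with h | h
    · refine (hmov x₀ x₁ h fun t h1 h2 => hball t ?_).mp hx₀
      rw [near_self, abs_lt]
      constructor <;> linarith
    · refine (hmov x₁ x₀ h fun t h1 h2 => hball t ?_).mpr hx₀
      rw [near_self, abs_lt]
      constructor <;> linarith
  · right
    rw [Set.not_nonempty_iff_eq_empty] at hne
    have h1 : X ⊆ Uᶜ := by
      intro x hx hxU
      have : x ∈ X ∩ U := ⟨hx, hxU⟩
      rw [hne] at this
      exact this
    have h2 : closure X ⊆ Uᶜ := closure_minimal h1 hU.isOpen.isClosed_compl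
    have h3 : interior Uᶜ = ∅ := by
      rw [interior_compl, hU.dense.closure_eq, Set.compl_univ]
    exact Set.subset_eq_empty (interior_mono h2) h3

end


/-!
# Subsets of all finite powers
-/

section

open FirstOrder Set Filter


variable {K : Type} [Field K] [LinearOrder K] [IsStrictOrderedRing K] [TopologicalSpace K]
  [OrderTopology K] [Str K] [hK : Res K]
variable {E F : Type} [TopologicalSpace E] [Coord K E] [TopologicalSpace F] [Coord K F]

theorem SB.of_homeo (hE : SB K E) (h : E ≃ₜ F) (hd : DefFun K (fun x => h x)) : SB K F := by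
  intro A hA hnd hmono
  have hpre : ∀ s : Set F, interior (closure (h ⁻¹' s)) = h ⁻¹' (interior (closure s)) := by
    intro s
    rw [← h.preimage_closure, ← h.preimage_interior]
  have h1 := hE (fun ε => h ⁻¹' A ε) ?_ ?_ ?_
  · have h2 : h ⁻¹' {x | ∃ ε, 0 < ε ∧ x ∈ A ε} = {x | ∃ ε, 0 < ε ∧ x ∈ h ⁻¹' A ε} := rfl
    rw [← h2, IsNowhereDense, hpre] at h1
    rw [IsNowhereDense]
    have h3 := congrArg (fun s => h '' s) h1
    simpa using h3
  · exact hA.comp (g := fun p : K × E => (p.1, h p.2)) (by fun_prop)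
  · intro ε hε
    rw [IsNowhereDense, hpre, hnd ε hε, Set.preimage_empty]
  · intro ε ε' h0 h1
    exact Set.preimage_mono (hmono ε ε' h0 h1)

/-- Splitting off the last coordinate. -/
def snocHomeo (K : Type) [TopologicalSpace K] (n : ℕ) :
    ((Fin n → K) × K) ≃ₜ (Fin (n + 1) → K) where
  toFun p := Fin.snoc (α := fun _ => K) p.1 p.2
  invFun v := (fun j => v j.castSucc, v (Fin.last n))
  left_inv p := by
    ext j
    · simp
    · simp
  right_inv v := by
    funext i
    refine Fin.lastCases ?_ (fun j => ?_) i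
    · simp
    · simp
  continuous_toFun := by
    refine continuous_pi fun i => ?_
    refine Fin.lastCases ?_ (fun j => ?_) i
    · simp only [Fin.snoc_last]
      fun_prop
    · simp only [Fin.snoc_castSucc]
      fun_prop
  continuous_invFun := by fun_prop

theorem SB_pi (n : ℕ) : SB K (Fin n → K) := by
  induction n with
  | zero =>
    intro A hA hnd hmono
    have h1 : {x : Fin 0 → K | ∃ ε : K, 0 < ε ∧ x ∈ A ε} = ∅ := by
      rw [Set.eq_empty_iff_forall_notMem]
      rintro x ⟨ε, hε, hx⟩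
      have h2 := hnd ε hε
      have h3 : A ε = Set.univ := by
        rw [Set.eq_univ_iff_forall]
        intro y
        rw [Subsingleton.elim y x]
        exact hx
      rw [IsNowhereDense, h3, closure_univ, interior_univ] at h2
      exact Set.univ_nonempty.ne_empty h2
    rw [h1]
    exact isNowhereDense_empty
  | succ n ih =>
    refine SB.of_homeo (SB_prod ih) (snocHomeo K n) (DefFun.pi fun i => ?_)
    refine Fin.lastCases ?_ (fun j => ?_) i
    · have e : (fun p : (Fin n → K) × K => snocHomeo K n p (Fin.last n)) = fun p => p.2 := by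
        funext p
        exact Fin.snoc_last (α := fun _ => K) _ _
      rw [e]
      fun_prop
    · have e : (fun p : (Fin n → K) × K => snocHomeo K n p j.castSucc) = fun p => p.1 j := by
        funext p
        exact Fin.snoc_castSucc (α := fun _ => K) _ _ _
      rw [e]
      fun_prop

/-- Every set definable in the open core of a restrained definably complete expansion of an
ordered field has interior or is nowhere dense. -/
theorem iminimal_pi (L' : FirstOrder.Language.{0, 0}) [L'.Structure K]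
    (hF : ∀ n, IsEmpty (L'.Functions n))
    (hRel : ∀ (n : ℕ) (R : L'.Relations n),
      IsOpen {v : Fin n → K | FirstOrder.Language.Structure.RelMap R v} ∧
      (Set.univ : Set K).Definable (Str.L K)
        {v : Fin n → K | FirstOrder.Language.Structure.RelMap R v})
    (n : ℕ) (X : Set (Fin n → K)) (hX : (Set.univ : Set K).Definable L' X) :
    ∃ U : Set (Fin n → K), ((IsOpen U ∧ Dense U) ∧
      (Set.univ : Set K).Definable (Str.L K) U) ∧ ∀ x ∈ U, (∀ᶠ y in nhds x, y ∈ X) ∨
        ∀ᶠ y in nhds x, y ∉ X := by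
  obtain ⟨φ, hφ⟩ := Set.definable_iff_exists_formula_sum.mp hX
  let N : Set ((Fin n → K) × K) := {p | p.2 = 1 ∨ p.2 = -1}
  have hN : BaseFam N := by
    refine ⟨?_, ?_, ?_, ?_, fun x => Or.inl rfl, fun x => Or.inr rfl⟩
    · exact Def.or (Def.eq (by fun_prop) (by fun_prop)) (Def.eq (by fun_prop) (by fun_prop))
    · exact (isClosed_eq (by fun_prop) (by fun_prop)).union
        (isClosed_eq (by fun_prop) (by fun_prop))
    · rw [Set.eq_empty_iff_forall_notMem]
      rintro ⟨x, z⟩ hp
      obtain ⟨ε, hε, hball⟩ := (eventually_near K).mp (isOpen_interior.mem_nhds hp)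
      have h1 : ∀ w, |w - z| < ε → w = 1 ∨ w = -1 := by
        intro w hw
        have h2 : (x, w) ∈ interior N :=
          hball (x, w) (near_prod.mpr ⟨near.refl x hε, near_self.mpr hw⟩)
        have h3 : (x, w) ∈ N := interior_subset h2
        exact h3
      set ρ : K := min ε 1 with hρ
      have hρ0 : 0 < ρ := lt_min hε one_pos
      have hρ1 : ρ ≤ ε := min_le_left _ _
      have hρ2 : ρ ≤ 1 := min_le_right _ _
      have h2 := h1 z (by rw [sub_self, abs_zero]; exact hε)
      have h3 := h1 (z + ρ / 2) (by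
        rw [abs_lt]
        constructor <;> linarith)
      rcases h2 with h2 | h2 <;> rcases h3 with h3 | h3 <;> linarith
    · rintro x z (h | h)
      · have h' : z = 1 := h
        rw [h', abs_one]
      · have h' : z = -1 := h
        rw [h', abs_neg, abs_one]
  obtain ⟨U, hU, R, hR, hinv⟩ := main_tame L' hF hRel φ (Fin n → K) (SB_pi n) 0 N hN
    (fun v x _ => Sum.elim (fun i => Sum.elim (fun a : (Set.univ : Set K) => (a : K))
      (fun i : Fin n => x i) i) (fun i : Fin 0 => i.elim0) v) (by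
        intro v
        rcases v with (v | v) | v
        · exact ⟨by simp only [Sum.elim_inl]; fun_prop, fun _ _ _ => by
            simp only [Sum.elim_inl]; fun_prop⟩
        · exact ⟨by simp only [Sum.elim_inl, Sum.elim_inr]; fun_prop, fun _ _ _ => by
            simp only [Sum.elim_inl, Sum.elim_inr]; fun_prop⟩
        · exact v.elim0)
  have hmem : ∀ x : Fin n → K, x ∈ X ↔ φ.Realize (Sum.elim
      (fun a : (Set.univ : Set K) => (a : K)) (fun i : Fin n => x i)) := by
    intro x
    rw [hφ]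
    rfl
  have hmov : ∀ x y : Fin n → K, (∀ t : K, 0 ≤ t → t ≤ 1 → (fun i => x i + t * (y i - x i)) ∈ U) →
      (x ∈ X ↔ y ∈ X) := by
    intro x y hxyU
    have hMM : ∀ t, t ∈ U → ((t, (fun i => i.elim0 : Fin 0 → K)) : (Fin n → K) × (Fin 0 → K)) ∈
        MM N U 0 := fun t ht => ⟨ht, fun i => i.elim0⟩
    have hR1 : ∀ ζ, 0 < ζ → R ζ ((x, (fun i => i.elim0 : Fin 0 → K)) :
        (Fin n → K) × (Fin 0 → K)) (y, (fun i => i.elim0 : Fin 0 → K)) := by
      intro ζ hζ
      have h1 := hR.along (f := fun t : K => ((fun i => x i + t * (y i - x i)),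
        (fun i => i.elim0 : Fin 0 → K))) (DefFun.prodMk (DefFun.pi fun i => by fun_prop)
        (by fun_prop)) (zero_le_one (α := K)) (fun t h1 h2 => hMM _ (hxyU t h1 h2))
        (fun t _ _ => by fun_prop) hζ
      simpa using h1
    have e0 : ∀ (v : (Set.univ : Set K) ⊕ Fin n → K) (d d' : Fin 0 → K),
        Language.BoundedFormula.Realize φ v d → Language.BoundedFormula.Realize φ v d' := by
      intro v d d' h
      rwa [Subsingleton.elim d' d]
    have hx0 : x ∈ U := by simpa using hxyU 0 le_rfl zero_le_one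
    have hy0 : y ∈ U := by simpa using hxyU 1 zero_le_one le_rfl
    have hx := hMM x hx0
    have hy := hMM y hy0
    rw [hmem, hmem]
    constructor
    · intro h
      exact e0 _ _ _ ((hinv _ hx _ hy hR1 (fun j => j.elim0)).2 (e0 _ _ _ h))
    · intro h
      exact e0 _ _ _ ((hinv _ hy _ hx (fun ζ hζ => hR.symm ζ hζ _ hx _ hy (hR1 ζ hζ))
        (fun j => j.elim0)).2 (e0 _ _ _ h))
  refine ⟨U, ⟨⟨hU.isOpen, hU.dense⟩, hU.def'⟩, fun x hx => ?_⟩
  obtain ⟨r, hr, hball⟩ := (eventually_near K).mp (hU.isOpen.mem_nhds hx)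
  have hloc : ∀ y, near y x r → (x ∈ X ↔ y ∈ X) := by
    intro y hy
    refine hmov x y fun t ht0 ht1 => hball _ ?_
    rw [near_pi] at hy ⊢
    refine ⟨hr, fun i => ?_⟩
    have h1 : x i + t * (y i - x i) - x i = t * (y i - x i) := by ring
    rw [h1, abs_mul, abs_of_nonneg ht0]
    exact lt_of_le_of_lt (mul_le_of_le_one_left (abs_nonneg _) ht1) (hy.2 i)
  by_cases hxX : x ∈ X
  · left
    exact (eventually_near K).mpr ⟨r, hr, fun y hy => (hloc y hy).mp hxX⟩
  · right
    exact (eventually_near K).mpr ⟨r, hr, fun y hy hyX => hxX ((hloc y hy).mpr hyX)⟩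

end

end Pool.Agent.IMinK
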