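import Pool.Agent.Lib.MP_ac65b7_lc.KBaire

/-!
# Definable systems of locally constant equivalence relations
-/

set_option autoImplicit false
set_option linter.unusedSectionVars false

namespace Pool.Agent.IMinK

section

open FirstOrder Set Filter


variable {K : Type} [Field K] [LinearOrder K] [IsStrictOrderedRing K] [TopologicalSpace K]
  [OrderTopology K] [Str K] [hK : Res K]
variable {Z Y W : Type} [TopologicalSpace Z] [Coord K Z] [TopologicalSpace Y] [Coord K Y]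
  [TopologicalSpace W] [Coord K W]

/-- A decreasing definable family of equivalence relations on `M` with open classes. -/
structure Sys (M : Set Z) (R : K → Z → Z → Prop) : Prop where
  def' : Def K fun p : K × (Z × Z) => R p.1 p.2.1 p.2.2
  refl : ∀ ζ, 0 < ζ → ∀ z ∈ M, R ζ z z
  symm : ∀ ζ, 0 < ζ → ∀ z ∈ M, ∀ z' ∈ M, R ζ z z' → R ζ z' z
  trans : ∀ ζ, 0 < ζ → ∀ z ∈ M, ∀ z' ∈ M, ∀ z'' ∈ M, R ζ z z' → R ζ z' z'' → R ζ z z''
  mono : ∀ ζ ζ', 0 < ζ → ζ ≤ ζ' → ∀ z ∈ M, ∀ z' ∈ M, R ζ z z' → R ζ' z z'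
  open' : ∀ ζ, 0 < ζ → ∀ z ∈ M, ∀ᶠ z' in nhds z, z' ∈ M → R ζ z z'

theorem Sys.and {M : Set Z} {R S : K → Z → Z → Prop} (hR : Sys M R) (hS : Sys M S) :
    Sys M fun ζ z z' => R ζ z z' ∧ S ζ z z' := by
  refine ⟨hR.def'.and hS.def', fun ζ hζ z hz => ⟨hR.refl ζ hζ z hz, hS.refl ζ hζ z hz⟩,
    fun ζ hζ z hz z' hz' h => ⟨hR.symm ζ hζ z hz z' hz' h.1, hS.symm ζ hζ z hz z' hz' h.2⟩,
    fun ζ hζ z hz z' hz' z'' hz'' h h' => ⟨hR.trans ζ hζ z hz z' hz' z'' hz'' h.1 h'.1,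
      hS.trans ζ hζ z hz z' hz' z'' hz'' h.2 h'.2⟩,
    fun ζ ζ' hζ hle z hz z' hz' h => ⟨hR.mono ζ ζ' hζ hle z hz z' hz' h.1,
      hS.mono ζ ζ' hζ hle z hz z' hz' h.2⟩, fun ζ hζ z hz => ?_⟩
  filter_upwards [hR.open' ζ hζ z hz, hS.open' ζ hζ z hz] with z' h1 h2 h3
  exact ⟨h1 h3, h2 h3⟩

theorem Sys.mono_set {M M' : Set Z} {R : K → Z → Z → Prop} (hR : Sys M R) (h : M' ⊆ M) :
    Sys M' R := by
  refine ⟨hR.def', fun ζ hζ z hz => hR.refl ζ hζ z (h hz),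
    fun ζ hζ z hz z' hz' => hR.symm ζ hζ z (h hz) z' (h hz'),
    fun ζ hζ z hz z' hz' z'' hz'' => hR.trans ζ hζ z (h hz) z' (h hz') z'' (h hz''),
    fun ζ ζ' hζ hle z hz z' hz' => hR.mono ζ ζ' hζ hle z (h hz) z' (h hz'), fun ζ hζ z hz => ?_⟩
  filter_upwards [hR.open' ζ hζ z (h hz)] with z' h1 h2
  exact h1 (h h2)

/-- Classes are constant along intervals. -/
theorem Sys.along {M : Set Z} {R : K → Z → Z → Prop} (hR : Sys M R) {f : K → Z}
    (hf : DefFun K f) {a b : K} (hab : a ≤ b) (hfM : ∀ t, a ≤ t → t ≤ b → f t ∈ M)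
    (hfc : ∀ t, a ≤ t → t ≤ b → ContinuousAt f t) {ζ : K} (hζ : 0 < ζ) : R ζ (f a) (f b) := by
  have ha := hfM a le_rfl hab
  refine conn (P := fun t => R ζ (f a) (f t)) ?_ hab ?_ (hR.refl ζ hζ _ ha)
  · exact hR.def'.comp (g := fun t : K => (ζ, (f a, f t))) (by fun_prop)
  · intro t ht1 ht2
    have ht := hfM t ht1 ht2
    filter_upwards [(hfc t ht1 ht2).eventually (hR.open' ζ hζ _ ht)] with t' h1 h2 h3
    have ht' := hfM t' h2 h3
    have h4 := h1 ht'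
    exact ⟨fun h => hR.trans ζ hζ _ ha _ ht' _ ht h (hR.symm ζ hζ _ ht _ ht' h4),
      fun h => hR.trans ζ hζ _ ha _ ht _ ht' h h4⟩

/-- Data for lifting a system along a family of compact fibres. -/
structure LiftData (M : Set Z) (M' : Set W) (R : K → W → W → Prop) (C : K → Z → Set Y)
    (Φ : Z × Y → W) (τ : Y → K) : Prop where
  mdef : Def K fun z : Z => z ∈ M
  sys : Sys M' R
  cdef : Def K fun p : (K × Z) × Y => p.2 ∈ C p.1.1 p.1.2
  bdd : ∃ B : K, ∀ ζ, 0 < ζ → ∀ z ∈ M, ∀ c ∈ C ζ z, ∀ i, |Coord.e (K := K) c i| ≤ B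
  cmono : ∀ ζ ζ', 0 < ζ → ζ ≤ ζ' → ∀ z ∈ M, C ζ' z ⊆ C ζ z
  closed : ∀ ζ, 0 < ζ → ∀ z ∈ M, ∀ c, c ∉ C ζ z →
    ∀ᶠ p : Z × Y in nhds (z, c), p.1 ∈ M → p.2 ∉ C ζ p.1
  lsc : ∀ ζ, 0 < ζ → ∀ z ∈ M, ∀ c ∈ C ζ z, ∀ ε : K, 0 < ε →
    ∀ᶠ z' in nhds z, z' ∈ M → ∃ c' ∈ C ζ z', near c' c ε
  fdef : DefFun K Φ
  fmem : ∀ ζ, 0 < ζ → ∀ z ∈ M, ∀ c ∈ C ζ z, Φ (z, c) ∈ M'
  fcont : ∀ ζ, 0 < ζ → ∀ z ∈ M, ∀ c ∈ C ζ z, ContinuousAt Φ (z, c)
  tdef : DefFun K τ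
  tloc : ∀ ζ, 0 < ζ → ∀ z ∈ M, ∀ c ∈ C ζ z,
    ∀ᶠ p : Z × Y in nhds (z, c), p.1 ∈ M → p.2 ∈ C ζ p.1 → τ c = τ p.2
  tmono : ∀ ζ ζ', 0 < ζ → ζ ≤ ζ' → ∀ z ∈ M, ∀ c ∈ C ζ' z, ∀ z' ∈ M, ∀ c' ∈ C ζ z',
    τ c = τ c' → c' ∈ C ζ' z'

/-- The lifted relation. -/
def lft (R : K → W → W → Prop) (C : K → Z → Set Y) (Φ : Z × Y → W) (τ : Y → K) :
    K → Z → Z → Prop := fun ζ z z' =>
  (∀ c, c ∈ C ζ z → ∃ c', c' ∈ C ζ z' ∧ (τ c = τ c' ∧ R ζ (Φ (z, c)) (Φ (z', c')))) ∧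
  (∀ c', c' ∈ C ζ z' → ∃ c, c ∈ C ζ z ∧ (τ c = τ c' ∧ R ζ (Φ (z, c)) (Φ (z', c'))))

section

variable {M : Set Z} {M' : Set W} {R : K → W → W → Prop} {C : K → Z → Set Y}
  {Φ : Z × Y → W} {τ : Y → K}

/-- The relation on the total space. -/
def sr (R : K → W → W → Prop) (Φ : Z × Y → W) (τ : Y → K) : K → Z × Y → Z × Y → Prop :=
  fun ζ p p' => τ p.2 = τ p'.2 ∧ R ζ (Φ p) (Φ p')

theorem LiftData.sr_def (h : LiftData M M' R C Φ τ) :
    Def K fun p : K × ((Z × Y) × (Z × Y)) => sr R Φ τ p.1 p.2.1 p.2.2 := by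
  have h1 := h.fdef
  have h2 := h.tdef
  refine Def.and (Def.eq (by fun_prop) (by fun_prop)) ?_
  exact h.sys.def'.comp (g := fun p : K × ((Z × Y) × (Z × Y)) => (p.1, (Φ p.2.1, Φ p.2.2)))
    (by fun_prop)

theorem LiftData.sr_open (h : LiftData M M' R C Φ τ) {ζ : K} (hζ : 0 < ζ) {z : Z} (hz : z ∈ M)
    {c : Y} (hc : c ∈ C ζ z) : ∀ᶠ p : Z × Y in nhds (z, c), p.1 ∈ M → p.2 ∈ C ζ p.1 →
      sr R Φ τ ζ (z, c) p := by
  filter_upwards [h.tloc ζ hζ z hz c hc, (h.fcont ζ hζ z hz c hc).eventually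
    (h.sys.open' ζ hζ _ (h.fmem ζ hζ z hz c hc))] with p h1 h2 h3 h4
  exact ⟨h1 h3 h4, h2 (h.fmem ζ hζ p.1 h3 p.2 h4)⟩

theorem LiftData.sr_symm (h : LiftData M M' R C Φ τ) {ζ : K} (hζ : 0 < ζ) {z z' : Z} (hz : z ∈ M)
    (hz' : z' ∈ M) {c c' : Y} (hc : c ∈ C ζ z) (hc' : c' ∈ C ζ z')
    (hs : sr R Φ τ ζ (z, c) (z', c')) : sr R Φ τ ζ (z', c') (z, c) :=
  ⟨hs.1.symm, h.sys.symm ζ hζ _ (h.fmem ζ hζ z hz c hc) _ (h.fmem ζ hζ z' hz' c' hc') hs.2⟩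

theorem LiftData.sr_trans (h : LiftData M M' R C Φ τ) {ζ : K} (hζ : 0 < ζ) {z z' z'' : Z}
    (hz : z ∈ M) (hz' : z' ∈ M) (hz'' : z'' ∈ M) {c c' c'' : Y} (hc : c ∈ C ζ z)
    (hc' : c' ∈ C ζ z') (hc'' : c'' ∈ C ζ z'') (hs : sr R Φ τ ζ (z, c) (z', c'))
    (hs' : sr R Φ τ ζ (z', c') (z'', c'')) : sr R Φ τ ζ (z, c) (z'', c'') :=
  ⟨hs.1.trans hs'.1, h.sys.trans ζ hζ _ (h.fmem ζ hζ z hz c hc) _ (h.fmem ζ hζ z' hz' c' hc') _
    (h.fmem ζ hζ z'' hz'' c'' hc'') hs.2 hs'.2⟩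

/-- The lifted relations form a system. -/
theorem LiftData.lift (h : LiftData M M' R C Φ τ) : Sys M (lft R C Φ τ) := by
  have hf := h.fdef
  have ht := h.tdef
  have hsr := h.sr_def
  have hC := h.cdef
  refine ⟨?_, ?_, ?_, ?_, ?_, ?_⟩
  · refine Def.and ?_ ?_
    · refine Def.all (P := fun (p : K × (Z × Z)) c => c ∈ C p.1 p.2.1 → ∃ c', c' ∈ C p.1 p.2.2 ∧
        sr R Φ τ p.1 (p.2.1, c) (p.2.2, c')) ?_
      refine Def.imp ?_ ?_
      · exact hC.comp (g := fun p : (K × (Z × Z)) × Y => ((p.1.1, p.1.2.1), p.2)) (by fun_prop)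
      refine Def.ex (P := fun (p : (K × (Z × Z)) × Y) c' => c' ∈ C p.1.1 p.1.2.2 ∧
        sr R Φ τ p.1.1 (p.1.2.1, p.2) (p.1.2.2, c')) ?_
      refine Def.and ?_ ?_
      · exact hC.comp (g := fun p : ((K × (Z × Z)) × Y) × Y => ((p.1.1.1, p.1.1.2.2), p.2))
          (by fun_prop)
      · exact hsr.comp (g := fun p : ((K × (Z × Z)) × Y) × Y => (p.1.1.1, ((p.1.1.2.1, p.1.2),
          (p.1.1.2.2, p.2)))) (by fun_prop)
    · refine Def.all (P := fun (p : K × (Z × Z)) c' => c' ∈ C p.1 p.2.2 → ∃ c, c ∈ C p.1 p.2.1 ∧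
        sr R Φ τ p.1 (p.2.1, c) (p.2.2, c')) ?_
      refine Def.imp ?_ ?_
      · exact hC.comp (g := fun p : (K × (Z × Z)) × Y => ((p.1.1, p.1.2.2), p.2)) (by fun_prop)
      refine Def.ex (P := fun (p : (K × (Z × Z)) × Y) c => c ∈ C p.1.1 p.1.2.1 ∧
        sr R Φ τ p.1.1 (p.1.2.1, c) (p.1.2.2, p.2)) ?_
      refine Def.and ?_ ?_
      · exact hC.comp (g := fun p : ((K × (Z × Z)) × Y) × Y => ((p.1.1.1, p.1.1.2.1), p.2))
          (by fun_prop)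
      · exact hsr.comp (g := fun p : ((K × (Z × Z)) × Y) × Y => (p.1.1.1, ((p.1.1.2.1, p.2),
          (p.1.1.2.2, p.1.2)))) (by fun_prop)
  · intro ζ hζ z hz
    have key : ∀ c, c ∈ C ζ z → ∃ c', c' ∈ C ζ z ∧ (τ c = τ c' ∧ R ζ (Φ (z, c)) (Φ (z, c'))) :=
      fun c hc => ⟨c, hc, rfl, h.sys.refl ζ hζ _ (h.fmem ζ hζ z hz c hc)⟩
    exact ⟨key, fun c hc => ⟨c, hc, rfl, h.sys.refl ζ hζ _ (h.fmem ζ hζ z hz c hc)⟩⟩
  · rintro ζ hζ z hz z' hz' ⟨h1, h2⟩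
    refine ⟨fun c' hc' => ?_, fun c hc => ?_⟩
    · obtain ⟨c, hc, hs⟩ := h2 c' hc'
      exact ⟨c, hc, h.sr_symm hζ hz hz' hc hc' hs⟩
    · obtain ⟨c', hc', hs⟩ := h1 c hc
      exact ⟨c', hc', h.sr_symm hζ hz hz' hc hc' hs⟩
  · rintro ζ hζ z hz z' hz' z'' hz'' ⟨h1, h2⟩ ⟨h3, h4⟩
    refine ⟨fun c hc => ?_, fun c'' hc'' => ?_⟩
    · obtain ⟨c', hc', hs⟩ := h1 c hc
      obtain ⟨c'', hc'', hs'⟩ := h3 c' hc'
      exact ⟨c'', hc'', h.sr_trans hζ hz hz' hz'' hc hc' hc'' hs hs'⟩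
    · obtain ⟨c', hc', hs'⟩ := h4 c'' hc''
      obtain ⟨c, hc, hs⟩ := h2 c' hc'
      exact ⟨c, hc, h.sr_trans hζ hz hz' hz'' hc hc' hc'' hs hs'⟩
  · rintro ζ ζ' hζ hle z hz z' hz' ⟨h1, h2⟩
    refine ⟨fun c hc => ?_, fun c' hc' => ?_⟩
    · have hc0 := h.cmono ζ ζ' hζ hle z hz hc
      obtain ⟨c', hc', hs1, hs2⟩ := h1 c hc0
      exact ⟨c', h.tmono ζ ζ' hζ hle z hz c hc z' hz' c' hc' hs1, hs1, h.sys.mono ζ ζ' hζ hle _
        (h.fmem ζ hζ z hz c hc0) _ (h.fmem ζ hζ z' hz' c' hc') hs2⟩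
    · have hc0' := h.cmono ζ ζ' hζ hle z' hz' hc'
      obtain ⟨c, hc, hs1, hs2⟩ := h2 c' hc0'
      exact ⟨c, h.tmono ζ ζ' hζ hle z' hz' c' hc' z hz c hc hs1.symm, hs1,
        h.sys.mono ζ ζ' hζ hle _ (h.fmem ζ hζ z hz c hc) _ (h.fmem ζ hζ z' hz' c' hc0') hs2⟩
  · intro ζ hζ z hz
    obtain ⟨B, hB⟩ := h.bdd
    -- first half
    have hfirst : ∀ᶠ z' in nhds z, z' ∈ M → ∀ c, c ∈ C ζ z → ∃ c', c' ∈ C ζ z' ∧
        sr R Φ τ ζ (z, c) (z', c') := by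
      by_contra hcon
      rw [eventually_near K] at hcon
      push Not at hcon
      let S : Set (Z × Y) := {p | p.1 ∈ M ∧ p.2 ∈ C ζ z ∧ ∀ c', c' ∈ C ζ p.1 →
        ¬ sr R Φ τ ζ (z, p.2) (p.1, c')}
      have hS : Def K fun p : Z × Y => p ∈ S := by
        refine Def.and (h.mdef.comp (by fun_prop)) (Def.and ?_ ?_)
        · exact hC.comp (g := fun p : Z × Y => ((ζ, z), p.2)) (by fun_prop)
        refine Def.all (P := fun (p : Z × Y) c' => c' ∈ C ζ p.1 →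
          ¬ sr R Φ τ ζ (z, p.2) (p.1, c')) ?_
        refine Def.imp ?_ (Def.not ?_)
        · exact hC.comp (g := fun p : (Z × Y) × Y => ((ζ, p.1.1), p.2)) (by fun_prop)
        · exact hsr.comp (g := fun p : (Z × Y) × Y => (ζ, ((z, p.1.2), (p.1.1, p.2))))
            (by fun_prop)
      obtain ⟨c₀, hc₀⟩ := cluster_graph hS (x₀ := z) (R := B)
        (fun x c hc => hB ζ hζ z hz c hc.2.1) (fun ε hε => by
          obtain ⟨z', hz'1, hz'2, c, hc, hc'⟩ := hcon ε hε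
          exact ⟨z', c, hz'1, hz'2, hc, hc'⟩)
      have hc₀C : c₀ ∈ C ζ z := by
        by_contra hnot
        obtain ⟨ε, hε, hev⟩ := (eventually_near K).mp (h.closed ζ hζ z hz c₀ hnot)
        obtain ⟨p, hp1, hp2⟩ := (mem_closure_near K).mp hc₀ ε hε
        exact hev (z, p.2) (near_prod.mpr ⟨near.refl z hε, (near_prod.mp hp2).2⟩) hz hp1.2.1
      obtain ⟨ρ, hρ, hev⟩ := (eventually_near K).mp (h.sr_open hζ hz hc₀C)
      obtain ⟨ε₁, hε₁, hlsc⟩ := (eventually_near K).mp (h.lsc ζ hζ z hz c₀ hc₀C ρ hρ)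
      obtain ⟨⟨z', c⟩, ⟨hp1, hp2, hp3⟩, hp4⟩ := (mem_closure_near K).mp hc₀ (min ρ ε₁)
        (lt_min hρ hε₁)
      obtain ⟨hn1, hn2⟩ := near_prod.mp hp4
      obtain ⟨c', hc', hnear⟩ := hlsc z' (hn1.mono (min_le_right _ _)) hp1
      have h1 := hev (z', c') (near_prod.mpr ⟨hn1.mono (min_le_left _ _), hnear⟩) hp1 hc'
      have h2 := hev (z, c) (near_prod.mpr ⟨near.refl z hρ, hn2.mono (min_le_left _ _)⟩) hz hp2
      exact hp3 c' hc' (h.sr_trans hζ hz hz hp1 hp2 hc₀C hc' (h.sr_symm hζ hz hz hc₀C hp2 h2) h1)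
    -- second half
    have hsecond : ∀ᶠ z' in nhds z, z' ∈ M → ∀ c', c' ∈ C ζ z' → ∃ c, c ∈ C ζ z ∧
        sr R Φ τ ζ (z, c) (z', c') := by
      by_contra hcon
      rw [eventually_near K] at hcon
      push Not at hcon
      let S : Set (Z × Y) := {p | p.1 ∈ M ∧ p.2 ∈ C ζ p.1 ∧ ∀ c, c ∈ C ζ z →
        ¬ sr R Φ τ ζ (z, c) (p.1, p.2)}
      have hS : Def K fun p : Z × Y => p ∈ S := by
        refine Def.and (h.mdef.comp (by fun_prop)) (Def.and ?_ ?_)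
        · exact hC.comp (g := fun p : Z × Y => ((ζ, p.1), p.2)) (by fun_prop)
        refine Def.all (P := fun (p : Z × Y) c => c ∈ C ζ z →
          ¬ sr R Φ τ ζ (z, c) (p.1, p.2)) ?_
        refine Def.imp ?_ (Def.not ?_)
        · exact hC.comp (g := fun p : (Z × Y) × Y => ((ζ, z), p.2)) (by fun_prop)
        · exact hsr.comp (g := fun p : (Z × Y) × Y => (ζ, ((z, p.2), (p.1.1, p.1.2))))
            (by fun_prop)
      obtain ⟨c₀, hc₀⟩ := cluster_graph hS (x₀ := z) (R := B)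
        (fun x c hc => hB ζ hζ x hc.1 c hc.2.1) (fun ε hε => by
          obtain ⟨z', hz'1, hz'2, c, hc, hc'⟩ := hcon ε hε
          exact ⟨z', c, hz'1, hz'2, hc, hc'⟩)
      have hc₀C : c₀ ∈ C ζ z := by
        by_contra hnot
        obtain ⟨p, hp1, hp2⟩ := ((mem_closure_iff_frequently.mp hc₀).and_eventually
          (h.closed ζ hζ z hz c₀ hnot)).exists
        exact hp2 hp1.1 hp1.2.1
      obtain ⟨p, hp1, hp2⟩ := ((mem_closure_iff_frequently.mp hc₀).and_eventually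
        (h.sr_open hζ hz hc₀C)).exists
      exact hp1.2.2 c₀ hc₀C (hp2 hp1.1 hp1.2.1)
    filter_upwards [hfirst, hsecond] with z' h1 h2 h3
    exact ⟨h1 h3, h2 h3⟩

/-- The limit of the lifted relations. -/
theorem LiftData.limit (h : LiftData M M' R C Φ τ) {z z' : Z} (hz : z ∈ M) (hz' : z' ∈ M)
    (hgood : ∀ ζ, 0 < ζ → lft R C Φ τ ζ z z') {ζ₀ : K} (hζ₀ : 0 < ζ₀) {c : Y} (hc : c ∈ C ζ₀ z) :
    ∃ c' ∈ C ζ₀ z', ∀ ζ, 0 < ζ → R ζ (Φ (z, c)) (Φ (z', c')) := by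
  have hf := h.fdef
  have ht := h.tdef
  have hsr := h.sr_def
  have hC := h.cdef
  obtain ⟨B, hB⟩ := h.bdd
  let A : K → Set Y := fun ζ => {c' | c' ∈ C ζ₀ z' ∧ ∃ ξ, ((0 < ξ ∧ ξ ≤ ζ) ∧ ξ ≤ ζ₀) ∧
    sr R Φ τ ξ (z, c) (z', c')}
  obtain ⟨c₀, hc₀⟩ := exists_cluster (A := A) (R := B) (by
      refine Def.and ?_ ?_
      · exact hC.comp (g := fun p : K × Y => ((ζ₀, z'), p.2)) (by fun_prop)
      refine Def.ex (P := fun (p : K × Y) ξ => ((0 < ξ ∧ ξ ≤ p.1) ∧ ξ ≤ ζ₀) ∧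
        sr R Φ τ ξ (z, c) (z', p.2)) ?_
      refine Def.and (Def.and (Def.and (Def.lt (by fun_prop) (by fun_prop)) (Def.le (by fun_prop)
        (by fun_prop))) (Def.le (by fun_prop) (by fun_prop))) ?_
      exact hsr.comp (g := fun p : (K × Y) × K => (p.2, ((z, c), (z', p.1.2)))) (by fun_prop))
    (fun ζ hζ => by
      have hξ : 0 < min ζ ζ₀ := lt_min hζ hζ₀
      obtain ⟨c', hc', hs⟩ := (hgood (min ζ ζ₀) hξ).1 c
        (h.cmono _ _ hξ (min_le_right _ _) z hz hc)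
      exact ⟨c', h.tmono _ _ hξ (min_le_right _ _) z hz c hc z' hz' c' hc' hs.1, min ζ ζ₀,
        ⟨⟨hξ, min_le_left _ _⟩, min_le_right _ _⟩, hs⟩)
    (by
      rintro ζ ζ' hζ hle c' ⟨h1, ξ, ⟨⟨h2, h3⟩, h4⟩, h5⟩
      exact ⟨h1, ξ, ⟨⟨h2, h3.trans hle⟩, h4⟩, h5⟩)
    (fun ζ _ c' hc' => hB ζ₀ hζ₀ z' hz' c' hc'.1)
  have hc₀C : c₀ ∈ C ζ₀ z' := by
    by_contra hnot
    obtain ⟨ε, hε, hev⟩ := (eventually_near K).mp (h.closed ζ₀ hζ₀ z' hz' c₀ hnot)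
    obtain ⟨c', hc'1, hc'2⟩ := hc₀ 1 one_pos ε hε
    exact hev (z', c') (near_prod.mpr ⟨near.refl z' hε, hc'2⟩) hz' hc'1.1
  have hle : ∀ ζ, 0 < ζ → ζ ≤ ζ₀ → R ζ (Φ (z, c)) (Φ (z', c₀)) := by
    intro ζ hζ hζζ
    have hc₀' := h.cmono ζ ζ₀ hζ hζζ z' hz' hc₀C
    have hcz := h.cmono ζ ζ₀ hζ hζζ z hz hc
    obtain ⟨ε, hε, hev⟩ := (eventually_near K).mp (h.sr_open hζ hz' hc₀')
    obtain ⟨c', ⟨hc'1, ξ, ⟨⟨hξ1, hξ2⟩, hξ3⟩, hs⟩, hc'2⟩ := hc₀ ζ hζ ε hε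
    have hc'ζ := h.cmono ζ ζ₀ hζ hζζ z' hz' hc'1
    have h1 := hev (z', c') (near_prod.mpr ⟨near.refl z' hε, hc'2⟩) hz' hc'ζ
    have h2 : sr R Φ τ ζ (z, c) (z', c') := ⟨hs.1, h.sys.mono ξ ζ hξ1 hξ2 _
      (h.fmem ζ hζ z hz c hcz) _ (h.fmem ζ hζ z' hz' c' hc'ζ) hs.2⟩
    exact (h.sr_trans hζ hz hz' hz' hcz hc'ζ hc₀' h2
      (h.sr_symm hζ hz' hz' hc₀' hc'ζ h1)).2
  refine ⟨c₀, hc₀C, fun ζ hζ => ?_⟩
  rcases le_total ζ ζ₀ with h1 | h1
  · exact hle ζ hζ h1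
  · exact h.sys.mono ζ₀ ζ hζ₀ h1 _ (h.fmem ζ₀ hζ₀ z hz c hc) _ (h.fmem ζ₀ hζ₀ z' hz' c₀ hc₀C)
      (hle ζ₀ hζ₀ le_rfl)

end

end

/-!
# Systems that detect closed conditions
-/

section

open FirstOrder Set Filter


variable {K : Type} [Field K] [LinearOrder K] [IsStrictOrderedRing K] [TopologicalSpace K]
  [OrderTopology K] [Str K] [hK : Res K]
variable {E : Type} [TopologicalSpace E] [Coord K E]

/-- Points of `U` with `m` points of the fibre of `N`. -/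
def MM (N : Set (E × K)) (U : Set E) (m : ℕ) : Set (E × (Fin m → K)) :=
  {p | p.1 ∈ U ∧ ∀ j, (p.1, p.2 j) ∈ N}

/-- Points of `U` with two `m`-tuples of points of the fibre of `N`. -/
def MM2 (N : Set (E × K)) (U : Set E) (m : ℕ) : Set (E × ((Fin m → K) × (Fin m → K))) :=
  {p | p.1 ∈ U ∧ (∀ j, (p.1, p.2.1 j) ∈ N) ∧ ∀ j, (p.1, p.2.2 j) ∈ N}

omit [TopologicalSpace K] [OrderTopology K] [Str K] hK in
theorem gap_stable {C C' : Set K} {g g' : K × K} {a a' ρ : K} (hg : Gap C g.1 g.2) (ha : a ∈ C)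
    (hg' : Gap C' g'.1 g'.2) (ha' : a' ∈ C') (hρ : ρ ≤ (g.2 - g.1) / 4) (h1 : |a' - a| < ρ)
    (h2 : |g'.1 - g.1| < ρ) (h3 : |g'.2 - g.2| < ρ) : a' ≤ g'.1 ↔ a ≤ g.1 := by
  rw [abs_lt] at h1 h2 h3
  rcases hg.le_or_le ha with h | h
  · refine ⟨fun _ => h, fun _ => ?_⟩
    rcases hg'.le_or_le ha' with h4 | h4
    · exact h4
    · linarith [h1.2, h3.1]
  · constructor
    · intro h4
      linarith [h1.1, h2.2]
    · intro h4
      have := hg.1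
      linarith

/-- No gap of length at least `θ` separates `u` from `v`. -/
def same1 (N : Set (E × K)) (θ : K) (x : E) (u v : K) : Prop :=
  ∀ g : K × K, g ∈ GG N θ x → (u ≤ g.1 ↔ v ≤ g.1)

theorem same1_def {N : Set (E × K)} (hN : BaseFam N) :
    Def K fun p : (K × E) × (K × K) => same1 N p.1.1 p.1.2 p.2.1 p.2.2 := by
  refine Def.all (P := fun (p : (K × E) × (K × K)) (g : K × K) => g ∈ GG N p.1.1 p.1.2 →
    (p.2.1 ≤ g.1 ↔ p.2.2 ≤ g.1)) ?_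
  refine Def.imp ?_ (Def.iff (Def.le (by fun_prop) (by fun_prop)) (Def.le (by fun_prop)
    (by fun_prop)))
  exact (GG_def hN).comp (g := fun p : ((K × E) × (K × K)) × (K × K) => (p.1.1, p.2))
    (by fun_prop)

theorem same1_loc {N : Set (E × K)} (hN : BaseFam N) {T : K → Set K} {U : Set E}
    (hU : ODD K U) (hnice : Nice N T U) {ζ θ : K} (hζ : 0 < ζ) (hθ : θ ∈ T ζ) {x₀ : E}
    (hx₀ : x₀ ∈ U) {a₀ b₀ : K} (ha₀ : (x₀, a₀) ∈ N) (hb₀ : (x₀, b₀) ∈ N) :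
    ∀ᶠ p : E × (K × K) in nhds (x₀, (a₀, b₀)), p.1 ∈ U → (p.1, p.2.1) ∈ N → (p.1, p.2.2) ∈ N →
      (same1 N θ p.1 p.2.1 p.2.2 ↔ same1 N θ x₀ a₀ b₀) := by
  by_cases hs : same1 N θ x₀ a₀ b₀
  · by_contra hcon
    rw [eventually_near K] at hcon
    push Not at hcon
    let S : Set ((E × (K × K)) × (K × K)) := {q | (q.1.1 ∈ U ∧ (q.1.1, q.1.2.1) ∈ N ∧
      (q.1.1, q.1.2.2) ∈ N) ∧ q.2 ∈ GG N θ q.1.1 ∧ ¬ (q.1.2.1 ≤ q.2.1 ↔ q.1.2.2 ≤ q.2.1)}
    have hS : Def K fun q : (E × (K × K)) × (K × K) => q ∈ S := by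
      refine Def.and (Def.and ?_ (Def.and ?_ ?_)) (Def.and ?_ (Def.not (Def.iff
        (Def.le (by fun_prop) (by fun_prop)) (Def.le (by fun_prop) (by fun_prop)))))
      · exact hU.def'.comp (g := fun q : (E × (K × K)) × (K × K) => q.1.1) (by fun_prop)
      · exact hN.def'.comp (g := fun q : (E × (K × K)) × (K × K) => (q.1.1, q.1.2.1))
          (by fun_prop)
      · exact hN.def'.comp (g := fun q : (E × (K × K)) × (K × K) => (q.1.1, q.1.2.2))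
          (by fun_prop)
      · exact (GG_def hN).comp (g := fun q : (E × (K × K)) × (K × K) => ((θ, q.1.1), q.2))
          (by fun_prop)
    obtain ⟨g₀, hg₀⟩ := cluster_graph hS (x₀ := (x₀, (a₀, b₀))) (R := 1)
      (by
        rintro p g ⟨_, hg, _⟩ i
        obtain ⟨k1, k2, _⟩ := GG_bdd hN hg
        rcases i with i | i
        · exact k1
        · exact k2)
      (fun ε hε => by
        obtain ⟨p, hp1, hp2, hp3, hp4, hp5⟩ := hcon ε hε
        have h6 : ¬ same1 N θ p.1 p.2.1 p.2.2 := by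
          rcases hp5 with ⟨h7, h8⟩ | ⟨h7, h8⟩
          · exact absurd hs h8
          · exact h7
        unfold same1 at h6
        push Not at h6
        obtain ⟨g, hg, hg2⟩ := h6
        refine ⟨p, g, hp1, ⟨hp2, hp3, hp4⟩, hg, fun hiff => ?_⟩
        rcases hg2 with ⟨h7, h8⟩ | ⟨h7, h8⟩
        · exact absurd (hiff.mp h7) (not_le.mpr h8)
        · exact absurd (hiff.mpr h8) (not_le.mpr h7))
    have hg₀G : g₀ ∈ GG N θ x₀ := by
      by_contra hnot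
      have h1 := hnice.gcl ζ hζ θ hθ x₀ hx₀ g₀ hnot
      have hc : Continuous fun q : (E × (K × K)) × (K × K) => (q.1.1, q.2) := by fun_prop
      obtain ⟨q, hq1, hq2⟩ := ((mem_closure_iff_frequently.mp hg₀).and_eventually
        ((hc.tendsto ((x₀, (a₀, b₀)), g₀)).eventually h1)).exists
      exact hq2 hq1.2.1
    have hρ : 0 < (g₀.2 - g₀.1) / 4 := by linarith [hg₀G.1.1]
    obtain ⟨⟨⟨x, a, b⟩, g⟩, ⟨⟨hx, ha, hb⟩, hg, hnot⟩, hnear⟩ := (mem_closure_near K).mp hg₀ _ hρ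
    obtain ⟨hn1, hn2⟩ := near_prod.mp hnear
    obtain ⟨_, hn3⟩ := near_prod.mp hn1
    obtain ⟨hn4, hn5⟩ := near_prod.mp hn3
    obtain ⟨hn6, hn7⟩ := near_prod.mp hn2
    rw [near_self] at hn4 hn5 hn6 hn7
    have e1 := gap_stable hg₀G.1 ha₀ hg.1 ha le_rfl hn4 hn6 hn7
    have e2 := gap_stable hg₀G.1 hb₀ hg.1 hb le_rfl hn5 hn6 hn7
    exact hnot (e1.trans ((hs g₀ hg₀G).trans e2.symm))
  · have hs' := hs
    unfold same1 at hs'
    push Not at hs'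
    obtain ⟨g₀, hg₀, hg₀'⟩ := hs'
    have hρ : 0 < (g₀.2 - g₀.1) / 4 := by linarith [hg₀.1.1]
    have h1 : ∀ᶠ p : E × (K × K) in nhds (x₀, (a₀, b₀)), ∃ g' ∈ GG N θ p.1,
        near g' g₀ ((g₀.2 - g₀.1) / 4) :=
      (continuous_fst.tendsto (x₀, (a₀, b₀))).eventually (hnice.glsc ζ hζ θ hθ x₀ hx₀ g₀ hg₀ _ hρ)
    have h2 : ∀ᶠ p : E × (K × K) in nhds (x₀, (a₀, b₀)), near p (x₀, (a₀, b₀))
        ((g₀.2 - g₀.1) / 4) := near_mem_nhds _ hρ
    filter_upwards [h1, h2] with p hp1 hp2 hpU ha hb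
    obtain ⟨g, hg, hn2⟩ := hp1
    obtain ⟨_, hn3⟩ := near_prod.mp hp2
    obtain ⟨hn4, hn5⟩ := near_prod.mp hn3
    obtain ⟨hn6, hn7⟩ := near_prod.mp hn2
    rw [near_self] at hn4 hn5 hn6 hn7
    have e1 := gap_stable hg₀.1 ha₀ hg.1 ha le_rfl hn4 hn6 hn7
    have e2 := gap_stable hg₀.1 hb₀ hg.1 hb le_rfl hn5 hn6 hn7
    refine ⟨fun h => ?_, fun h => absurd h hs⟩
    have e3 := e1.symm.trans ((h g hg).trans e2)
    rcases hg₀' with ⟨h7, h8⟩ | ⟨h7, h8⟩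
    · exact absurd (e3.mp h7) (not_le.mpr h8)
    · exact absurd (e3.mpr h8) (not_le.mpr h7)

/-- No gap of length at least `θ` separates the tuples. -/
def same (N : Set (E × K)) {m : ℕ} (θ : K) (p : E × ((Fin m → K) × (Fin m → K))) : Prop :=
  ∀ j, same1 N θ p.1 (p.2.1 j) (p.2.2 j)

theorem same_def {N : Set (E × K)} (hN : BaseFam N) (m : ℕ) :
    Def K fun q : K × (E × ((Fin m → K) × (Fin m → K))) => same N q.1 q.2 := by
  refine Def.finite_all fun j => ?_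
  exact (same1_def hN).comp (g := fun q : K × (E × ((Fin m → K) × (Fin m → K))) =>
    ((q.1, q.2.1), (q.2.2.1 j, q.2.2.2 j))) (by fun_prop)

theorem same_loc {N : Set (E × K)} (hN : BaseFam N) {T : K → Set K} {U : Set E}
    (hU : ODD K U) (hnice : Nice N T U) {ζ θ : K} (hζ : 0 < ζ) (hθ : θ ∈ T ζ) {m : ℕ}
    {p₀ : E × ((Fin m → K) × (Fin m → K))} (hp₀ : p₀ ∈ MM2 N U m) :
    ∀ᶠ p in nhds p₀, p ∈ MM2 N U m → (same N θ p ↔ same N θ p₀) := by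
  have h1 : ∀ j, ∀ᶠ p in nhds p₀, p ∈ MM2 N U m →
      (same1 N θ p.1 (p.2.1 j) (p.2.2 j) ↔ same1 N θ p₀.1 (p₀.2.1 j) (p₀.2.2 j)) := by
    intro j
    have hc : Continuous fun p : E × ((Fin m → K) × (Fin m → K)) =>
        (p.1, (p.2.1 j, p.2.2 j)) := by fun_prop
    filter_upwards [(hc.tendsto p₀).eventually
      (same1_loc hN hU hnice hζ hθ hp₀.1 (hp₀.2.1 j) (hp₀.2.2 j))] with p h2 h3
    exact h2 h3.1 (h3.2.1 j) (h3.2.2 j)
  filter_upwards [Filter.eventually_all.mpr h1] with p h2 h3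
  exact forall_congr' fun j => h2 j h3

/-- The basic system. -/
theorem same_sys {N : Set (E × K)} (hN : BaseFam N) {T : K → Set K} (hT : Thr T) {U : Set E}
    (hU : ODD K U) (hnice : Nice N T U) (m : ℕ) :
    Sys (MM2 N U m) (fun ζ p p' => ∀ θ, θ ∈ T ζ → (same N θ p ↔ same N θ p')) := by
  refine ⟨?_, fun ζ _ p _ θ _ => Iff.rfl, fun ζ _ p _ p' _ h θ hθ => (h θ hθ).symm,
    fun ζ _ p _ p' _ p'' _ h h' θ hθ => (h θ hθ).trans (h' θ hθ),
    fun ζ ζ' hζ hle p _ p' _ h θ hθ => h θ (hT.mono ζ ζ' hζ hle hθ), ?_⟩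
  · refine Def.all (P := fun (q : K × ((E × ((Fin m → K) × (Fin m → K))) ×
      (E × ((Fin m → K) × (Fin m → K))))) θ => θ ∈ T q.1 → (same N θ q.2.1 ↔ same N θ q.2.2)) ?_
    refine Def.imp ?_ (Def.iff ?_ ?_)
    · exact hT.def'.comp (g := fun q : (K × ((E × ((Fin m → K) × (Fin m → K))) ×
        (E × ((Fin m → K) × (Fin m → K))))) × K => (q.1.1, q.2)) (by fun_prop)
    · exact (same_def hN m).comp (g := fun q : (K × ((E × ((Fin m → K) × (Fin m → K))) ×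
        (E × ((Fin m → K) × (Fin m → K))))) × K => (q.2, q.1.2.1)) (by fun_prop)
    · exact (same_def hN m).comp (g := fun q : (K × ((E × ((Fin m → K) × (Fin m → K))) ×
        (E × ((Fin m → K) × (Fin m → K))))) × K => (q.2, q.1.2.2)) (by fun_prop)
  · intro ζ hζ p₀ hp₀
    by_contra hcon
    rw [eventually_near K] at hcon
    push Not at hcon
    obtain ⟨s, hs, hsep⟩ := hT.disc ζ hζ
    let S : Set ((E × ((Fin m → K) × (Fin m → K))) × K) := {q | q.1 ∈ MM2 N U m ∧ q.2 ∈ T ζ ∧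
      ¬ (same N q.2 p₀ ↔ same N q.2 q.1)}
    have hS : Def K fun q : (E × ((Fin m → K) × (Fin m → K))) × K => q ∈ S := by
      refine Def.and (Def.and ?_ (Def.and (Def.finite_all fun j => ?_)
        (Def.finite_all fun j => ?_))) (Def.and ?_ (Def.not (Def.iff ?_ ?_)))
      · exact hU.def'.comp (g := fun q : (E × ((Fin m → K) × (Fin m → K))) × K => q.1.1)
          (by fun_prop)
      · exact hN.def'.comp (g := fun q : (E × ((Fin m → K) × (Fin m → K))) × K =>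
          (q.1.1, q.1.2.1 j)) (by fun_prop)
      · exact hN.def'.comp (g := fun q : (E × ((Fin m → K) × (Fin m → K))) × K =>
          (q.1.1, q.1.2.2 j)) (by fun_prop)
      · exact hT.def'.comp (g := fun q : (E × ((Fin m → K) × (Fin m → K))) × K => (ζ, q.2))
          (by fun_prop)
      · exact (same_def hN m).comp (g := fun q : (E × ((Fin m → K) × (Fin m → K))) × K =>
          (q.2, p₀)) (by fun_prop)
      · exact (same_def hN m).comp (g := fun q : (E × ((Fin m → K) × (Fin m → K))) × K =>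
          (q.2, q.1)) (by fun_prop)
    obtain ⟨θ₀, hθ₀⟩ := cluster_graph hS (x₀ := p₀) (R := 2)
      (by
        rintro p θ ⟨_, hθ, _⟩ i
        change |θ| ≤ 2
        rw [abs_of_nonneg (hT.nonneg ζ hζ θ hθ)]
        exact hT.le_two ζ hζ θ hθ)
      (fun ε hε => by
        obtain ⟨p, hp1, hp2, θ, hθ, hne⟩ := hcon ε hε
        refine ⟨p, θ, hp1, hp2, hθ, fun hiff => ?_⟩
        rcases hne with ⟨h7, h8⟩ | ⟨h7, h8⟩
        · exact h8 (hiff.mp h7)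
        · exact h7 (hiff.mpr h8))
    have hθ₀T : θ₀ ∈ T ζ := by
      by_contra hnot
      have h1 := (closed_of_disc hs hsep).isOpen_compl.mem_nhds hnot
      obtain ⟨q, hq1, hq2⟩ := ((mem_closure_iff_frequently.mp hθ₀).and_eventually
        ((continuous_snd.tendsto (p₀, θ₀)).eventually h1)).exists
      exact hq2 hq1.2.1
    have h1 := same_loc hN hU hnice hζ hθ₀T hp₀
    have h2 : ∀ᶠ q : (E × ((Fin m → K) × (Fin m → K))) × K in nhds (p₀, θ₀), near q.2 θ₀ s :=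
      (continuous_snd.tendsto (p₀, θ₀)).eventually (near_mem_nhds θ₀ hs)
    obtain ⟨⟨p, θ⟩, ⟨hq1, hq2, hq3⟩, hq4, hq5⟩ := ((mem_closure_iff_frequently.mp
      hθ₀).and_eventually (((continuous_fst.tendsto (p₀, θ₀)).eventually h1).and h2)).exists
    have e : θ = θ₀ := hsep θ hq2 θ₀ hθ₀T (near_self.mp hq5)
    subst e
    exact hq3 (hq4 hq1).symm

/-- Closed lower semicontinuous families of tuples of points of the fibres are detected by a
system. -/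
theorem cell_sys {N : Set (E × K)} (hN : BaseFam N) {T : K → Set K} (hT : Thr T) {U : Set E}
    (hU : ODD K U) (hnice : Nice N T U) {m : ℕ} {F : E → Set (Fin m → K)}
    (hF : Def K fun p : E × (Fin m → K) => p.2 ∈ F p.1)
    (hFN : ∀ x ∈ U, ∀ y ∈ F x, ∀ j, (x, y j) ∈ N)
    (hFc : ∀ x ∈ U, ∀ y, y ∉ F x → ∀ᶠ p : E × (Fin m → K) in nhds (x, y), p.1 ∈ U → p.2 ∉ F p.1)
    (hFl : ∀ x ∈ U, ∀ y ∈ F x, ∀ ε : K, 0 < ε → ∀ᶠ x' in nhds x, x' ∈ U →
      ∃ y' ∈ F x', near y' y ε) :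
    ∃ R : K → E × (Fin m → K) → E × (Fin m → K) → Prop, Sys (MM N U m) R ∧
      ∀ z ∈ MM N U m, ∀ z' ∈ MM N U m, (∀ ζ, 0 < ζ → R ζ z z') → z.2 ∈ F z.1 → z'.2 ∈ F z'.1 := by
  have hdata : LiftData (K := K) (MM N U m) (MM2 N U m)
      (fun ζ p p' => ∀ θ, θ ∈ T ζ → (same N θ p ↔ same N θ p')) (fun _ z => F z.1)
      (fun q : (E × (Fin m → K)) × (Fin m → K) => (q.1.1, (q.1.2, q.2))) (fun _ => (0 : K)) := by
    refine ⟨?_, same_sys hN hT hU hnice m, ?_, ⟨1, ?_⟩, ?_, ?_, ?_, by fun_prop, ?_, ?_,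
      by fun_prop, ?_, ?_⟩
    · refine Def.and (hU.def'.comp (by fun_prop)) (Def.finite_all fun j => ?_)
      exact hN.def'.comp (g := fun q : E × (Fin m → K) => (q.1, q.2 j)) (by fun_prop)
    · exact hF.comp (g := fun p : (K × (E × (Fin m → K))) × (Fin m → K) => (p.1.2.1, p.2))
        (by fun_prop)
    · intro ζ _ z hz c hc i
      exact hN.bdd _ _ (hFN z.1 hz.1 c hc i)
    · intro _ _ _ _ z _
      exact subset_rfl
    · intro ζ _ z hz c hc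
      have hc' : Continuous fun p : (E × (Fin m → K)) × (Fin m → K) => (p.1.1, p.2) := by fun_prop
      filter_upwards [(hc'.tendsto (z, c)).eventually (hFc z.1 hz.1 c hc)] with p h1 h2
      exact h1 h2.1
    · intro ζ _ z hz c hc ε hε
      filter_upwards [(continuous_fst.tendsto z).eventually (hFl z.1 hz.1 c hc ε hε)] with z' h1 h2
      exact h1 h2.1
    · intro ζ _ z hz c hc
      exact ⟨hz.1, hz.2, hFN z.1 hz.1 c hc⟩
    · intro ζ _ z hz c hc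
      fun_prop
    · intro ζ _ z hz c hc
      exact Filter.Eventually.of_forall fun _ _ _ => rfl
    · intro ζ ζ' _ _ z _ c _ z' _ c' hc' _
      exact hc'
  refine ⟨_, hdata.lift, ?_⟩
  intro z hz z' hz' hgood hzF
  obtain ⟨u, huF, hu⟩ := hdata.limit hz hz' hgood one_pos hzF
  have hsame : ∀ ζ, 0 < ζ → ∀ θ ∈ T ζ, same N θ (z'.1, (z'.2, u)) := by
    intro ζ hζ θ hθ
    have h1 := hu ζ hζ θ hθ
    exact h1.mp fun j g _ => Iff.rfl
  have huN := hFN z'.1 hz'.1 u huF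
  have e : u = z'.2 := by
    funext j
    by_contra hne
    have aux : ∀ a b, (z'.1, a) ∈ N → (z'.1, b) ∈ N → a < b →
        (∀ ζ, 0 < ζ → ∀ θ ∈ T ζ, ∀ g ∈ GG N θ z'.1, (a ≤ g.1 ↔ b ≤ g.1)) → False := by
      intro a b ha hb hlt hab
      obtain ⟨c, d, hg, h1, h2⟩ := gap_between (hN.fib_def z'.1) (hN.fib_closed z'.1)
        (hnice.int z'.1 hz'.1) ha hb hlt
      obtain ⟨ζ, hζ, θ, hθ, hmem⟩ := hnice.small z'.1 hz'.1 (c, d) hg
      have h3 := (hab ζ hζ θ hθ (c, d) hmem).mp h1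
      have h4 : b ≤ c := h3
      have := hg.1
      linarith
    rcases lt_or_gt_of_ne hne with h | h
    · exact aux (u j) (z'.2 j) (huN j) (hz'.2 j) h fun ζ hζ θ hθ g hg =>
        (hsame ζ hζ θ hθ j g hg).symm
    · exact aux (z'.2 j) (u j) (hz'.2 j) (huN j) h fun ζ hζ θ hθ g hg =>
        hsame ζ hζ θ hθ j g hg
  rw [← e]
  exact huF

/-- The truth value of `P` is determined by a system over a dense open definable set. -/
def Tame (N : Set (E × K)) {m : ℕ} (P : E → (Fin m → K) → Prop) : Prop :=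
  ∃ U : Set E, ODD K U ∧ ∃ R : K → E × (Fin m → K) → E × (Fin m → K) → Prop,
    Sys (MM N U m) R ∧ ∀ z ∈ MM N U m, ∀ z' ∈ MM N U m,
    (∀ ζ, 0 < ζ → R ζ z z') → (∀ j, |z.2 j| < 1) →
      ((∀ j, |z'.2 j| < 1) ∧ (P z.1 z.2 → P z'.1 z'.2))

theorem MM_mono {N N' : Set (E × K)} {U U' : Set E} {m : ℕ} (hN : N ⊆ N') (hU : U ⊆ U') :
    MM N U m ⊆ MM N' U' m := fun _ hp => ⟨hU hp.1, fun j => hN (hp.2 j)⟩

theorem Tame.congr {N : Set (E × K)} {m : ℕ} {P Q : E → (Fin m → K) → Prop} (hP : Tame N P)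
    (h : ∀ x y, P x y ↔ Q x y) : Tame N Q := by
  have : P = Q := funext fun x => funext fun y => propext (h x y)
  rwa [← this]

theorem Tame.imp {N : Set (E × K)} {m : ℕ} {P Q : E → (Fin m → K) → Prop} (hP : Tame N P)
    (hQ : Tame N Q) : Tame N fun x y => P x y → Q x y := by
  obtain ⟨U, hU, R, hR, hRP⟩ := hP
  obtain ⟨V, hV, S, hS, hSQ⟩ := hQ
  have hR' := hR.mono_set (MM_mono (m := m) subset_rfl (inter_subset_left : U ∩ V ⊆ U))
  have hS' := hS.mono_set (MM_mono (m := m) subset_rfl (inter_subset_right : U ∩ V ⊆ V))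
  refine ⟨U ∩ V, hU.inter hV, _, hR'.and hS', fun z hz z' hz' hgood hint => ?_⟩
  have hzU : z ∈ MM N U m := ⟨hz.1.1, hz.2⟩
  have hzV : z ∈ MM N V m := ⟨hz.1.2, hz.2⟩
  have hzU' : z' ∈ MM N U m := ⟨hz'.1.1, hz'.2⟩
  have hzV' : z' ∈ MM N V m := ⟨hz'.1.2, hz'.2⟩
  have h1 := hRP z hzU z' hzU' (fun ζ hζ => (hgood ζ hζ).1) hint
  refine ⟨h1.1, fun hPQ hP' => ?_⟩
  have h2 := hRP z' hzU' z hzU (fun ζ hζ => hR.symm ζ hζ z hzU z' hzU' (hgood ζ hζ).1) h1.1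
  exact (hSQ z hzV z' hzV' (fun ζ hζ => (hgood ζ hζ).2) hint).2 (hPQ (h2.2 hP'))

/-- Intersecting the good set of a tame predicate with another dense open definable set does not
change anything; this lemma packages two systems over the same set. -/
theorem Tame.of_systems {N : Set (E × K)} {m : ℕ} {P : E → (Fin m → K) → Prop} {U : Set E}
    (hU : ODD K U) {R S : K → E × (Fin m → K) → E × (Fin m → K) → Prop}
    (hR : Sys (MM N U m) R) (hS : Sys (MM N U m) S)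
    (h1 : ∀ z ∈ MM N U m, ∀ z' ∈ MM N U m, (∀ ζ, 0 < ζ → R ζ z z') → (∃ j, |z.2 j| = 1) →
      ∃ j, |z'.2 j| = 1)
    (h2 : ∀ z ∈ MM N U m, ∀ z' ∈ MM N U m, (∀ ζ, 0 < ζ → S ζ z z') →
      ((∃ j, |z.2 j| = 1) ∨ P z.1 z.2) → ((∃ j, |z'.2 j| = 1) ∨ P z'.1 z'.2))
    (hN : BaseFam N) : Tame N P := by
  refine ⟨U, hU, _, hR.and hS, fun z hz z' hz' hgood hint => ?_⟩
  have hint' : ∀ j, |z'.2 j| < 1 := by
    by_contra hcon
    push Not at hcon
    obtain ⟨j, hj⟩ := hcon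
    obtain ⟨i, hi⟩ := h1 z' hz' z hz (fun ζ hζ => hR.symm ζ hζ z hz z' hz' (hgood ζ hζ).1)
      ⟨j, le_antisymm (hN.bdd _ _ (hz'.2 j)) hj⟩
    exact absurd hi (hint i).ne
  refine ⟨hint', fun hPz => ?_⟩
  rcases h2 z hz z' hz' (fun ζ hζ => (hgood ζ hζ).2) (Or.inr hPz) with ⟨j, hj⟩ | h
  · exact absurd hj (hint' j).ne
  · exact h

/-- The case of closed definable conditions. -/
theorem Tame.of_closed (hSB : SB K E) {N : Set (E × K)} (hN : BaseFam N) {m : ℕ}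
    {P : E → (Fin m → K) → Prop} (hP : Def K fun p : E × (Fin m → K) => P p.1 p.2)
    (hcl : ∀ x y, (∀ j, |y j| < 1) → ¬ P x y →
      ∀ᶠ p : E × (Fin m → K) in nhds (x, y), ¬ P p.1 p.2) : Tame N P := by
  obtain ⟨T, hT, U₀, hU₀, hnice₀⟩ := exists_nice hSB hN
  let F : K → E → Set (Fin m → K) := fun ε x =>
    {y | (∀ j, (x, y j) ∈ N) ∧ (∀ j, |y j| + ε ≤ 1) ∧ P x y}
  let Bad : K → Set E := fun ε => {x | ∃ y : Fin m → K,
    ((∀ j, (x, y j) ∈ N) ∧ (∀ j, |y j| + ε ≤ 1) ∧ P x y) ∧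
    ¬ ∀ᶠ x' in nhds x, ∃ y' : Fin m → K, ((∀ j, (x', y' j) ∈ N) ∧ P x' y') ∧ near y' y ε}
  have hBadDef : Def K fun p : K × E => p.2 ∈ Bad p.1 := by
    refine Def.ex (P := fun (p : K × E) (y : Fin m → K) =>
      ((∀ j, (p.2, y j) ∈ N) ∧ (∀ j, |y j| + p.1 ≤ 1) ∧ P p.2 y) ∧
      ¬ ∀ᶠ x' in nhds p.2, ∃ y' : Fin m → K, ((∀ j, (x', y' j) ∈ N) ∧ P x' y') ∧
        near y' y p.1) ?_
    refine Def.and (Def.and ?_ (Def.and ?_ ?_)) (Def.not ?_)
    · refine Def.finite_all fun j => ?_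
      exact hN.def'.comp (g := fun p : (K × E) × (Fin m → K) => (p.1.2, p.2 j)) (by fun_prop)
    · exact Def.finite_all fun j => Def.le (by fun_prop) (by fun_prop)
    · exact hP.comp (g := fun p : (K × E) × (Fin m → K) => (p.1.2, p.2)) (by fun_prop)
    · refine Def.eventually (P := fun (p : (K × E) × (Fin m → K)) (x' : E) =>
        ∃ y' : Fin m → K, ((∀ j, (x', y' j) ∈ N) ∧ P x' y') ∧ near y' p.2 p.1.1)
        (g := fun p => p.1.2) ?_ (by fun_prop)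
      refine Def.ex (P := fun (p : ((K × E) × (Fin m → K)) × E) (y' : Fin m → K) =>
        ((∀ j, (p.2, y' j) ∈ N) ∧ P p.2 y') ∧ near y' p.1.2 p.1.1.1) ?_
      refine Def.and (Def.and ?_ ?_) (Def.near (by fun_prop) (by fun_prop) (by fun_prop))
      · refine Def.finite_all fun j => ?_
        exact hN.def'.comp (g := fun p : (((K × E) × (Fin m → K)) × E) × (Fin m → K) =>
          (p.1.2, p.2 j)) (by fun_prop)
      · exact hP.comp (g := fun p : (((K × E) × (Fin m → K)) × E) × (Fin m → K) =>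
          (p.1.2, p.2)) (by fun_prop)
  have hBadnd : ∀ ε, 0 < ε → IsNowhereDense (Bad ε) := by
    intro ε hε
    have h1 := nd_not_lsc (X := E) (Z := Fin m → K) isOpen_univ (Def.const True)
      (F := F ε) (R := 1) ?_ (fun x _ y hy j => hN.bdd x _ (hy.1 j)) ?_ hε
    · refine h1.mono ?_
      rintro x ⟨y, hy, hnot⟩
      refine ⟨Set.mem_univ x, y, hy, fun hcon => hnot ?_⟩
      filter_upwards [hcon] with x' hx'
      obtain ⟨y', hy', hd⟩ := hx'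
      exact ⟨y', ⟨hy'.1, hy'.2.2⟩, hd⟩
    · refine Def.and ?_ (Def.and ?_ ?_)
      · refine Def.finite_all fun j => ?_
        exact hN.def'.comp (g := fun p : E × (Fin m → K) => (p.1, p.2 j)) (by fun_prop)
      · exact Def.finite_all fun j => Def.le (by fun_prop) (by fun_prop)
      · exact hP
    · intro x _ y hy
      by_cases h1 : ∀ j, (x, y j) ∈ N
      · by_cases h2 : ∀ j, |y j| + ε ≤ 1
        · have h3 : ¬ P x y := fun h3 => hy ⟨h1, h2, h3⟩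
          filter_upwards [hcl x y (fun j => by linarith [h2 j]) h3] with p hp hpF
          exact hp hpF.2.2
        · push Not at h2
          obtain ⟨j, hj⟩ := h2
          have h3 : ∀ᶠ p : E × (Fin m → K) in nhds (x, y), 1 < |p.2 j| + ε :=
            (isOpen_lt (f := fun _ : E × (Fin m → K) => (1 : K)) (by fun_prop)
              (by fun_prop)).mem_nhds hj
          filter_upwards [h3] with p hp hpF
          exact absurd (hpF.2.1 j) (not_le.mpr hp)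
      · push Not at h1
        obtain ⟨j, hj⟩ := h1
        have h3 : IsClosed {p : E × (Fin m → K) | (p.1, p.2 j) ∈ N} :=
          hN.closed.preimage (by fun_prop)
        filter_upwards [h3.isOpen_compl.mem_nhds (x := (x, y)) hj] with p hp hpF
        exact hp (hpF.1 j)
  have hnd := hSB Bad hBadDef hBadnd (by
    rintro ε ε' h0 h1 x ⟨y, ⟨k1, k2, k3⟩, hnot⟩
    refine ⟨y, ⟨k1, fun j => by linarith [k2 j], k3⟩, fun hcon => hnot ?_⟩
    filter_upwards [hcon] with x' hx'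
    obtain ⟨y', hy', hd⟩ := hx'
    exact ⟨y', hy', hd.mono h1⟩)
  have hodd : ODD K (closure {x | ∃ ε, 0 < ε ∧ x ∈ Bad ε})ᶜ := by
    refine ODD.of_nd hnd ?_
    refine Def.ex (P := fun (x : E) ε => 0 < ε ∧ x ∈ Bad ε) ?_
    refine Def.and (Def.lt (by fun_prop) (by fun_prop)) ?_
    exact hBadDef.comp (g := fun p : E × K => (p.2, p.1)) (by fun_prop)
  set U : Set E := U₀ ∩ (closure {x | ∃ ε, 0 < ε ∧ x ∈ Bad ε})ᶜ with hUdef
  have hU : ODD K U := hU₀.inter hodd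
  have hnice : Nice N T U := ⟨fun x hx => hnice₀.lsc x hx.1, fun x hx => hnice₀.int x hx.1,
    fun ζ hζ θ hθ x hx => hnice₀.gcl ζ hζ θ hθ x hx.1,
    fun ζ hζ θ hθ x hx => hnice₀.glsc ζ hζ θ hθ x hx.1, fun x hx => hnice₀.small x hx.1⟩
  -- a general lower semicontinuity statement at boundary points
  have hbd : ∀ x ∈ U, ∀ y : Fin m → K, (∀ j, (x, y j) ∈ N) → ∀ j₀, |y j₀| = 1 → ∀ δ : K, 0 < δ →
      ∀ᶠ x' in nhds x, ∃ y' : Fin m → K, (∀ j, (x', y' j) ∈ N) ∧ |y' j₀| = 1 ∧ near y' y δ := by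
    intro x hx y hy j₀ hj₀ δ hδ
    have h2 : ∀ᶠ x' in nhds x, ∀ j, ∃ z', (x', z') ∈ N ∧ |z' - y j| < δ := by
      rw [Filter.eventually_all]
      intro j
      exact hnice.lsc x hx (y j) (hy j) δ hδ
    filter_upwards [h2] with x' hx'
    choose z hz1 hz2 using hx'
    refine ⟨Function.update z j₀ (y j₀), ?_, by simp [hj₀], ?_⟩
    · intro j
      by_cases hj : j = j₀
      · subst hj
        rw [Function.update_self]
        rcases eq_or_eq_neg_of_abs_eq hj₀ with h | h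
        · rw [h]
          exact hN.one _
        · rw [h]
          exact hN.neg_one _
      · rw [Function.update_of_ne hj]
        exact hz1 j
    · rw [near_pi]
      refine ⟨hδ, fun j => ?_⟩
      by_cases hj : j = j₀
      · subst hj
        rw [Function.update_self, sub_self, abs_zero]
        exact hδ
      · rw [Function.update_of_ne hj]
        exact hz2 j
  have hNev : ∀ (x : E) (y : Fin m → K), (¬ ∀ j, (x, y j) ∈ N) →
      ∀ᶠ p : E × (Fin m → K) in nhds (x, y), ¬ ∀ j, (p.1, p.2 j) ∈ N := by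
    intro x y h1
    push Not at h1
    obtain ⟨j, hj⟩ := h1
    have h3 : IsClosed {p : E × (Fin m → K) | (p.1, p.2 j) ∈ N} :=
      hN.closed.preimage (by fun_prop)
    filter_upwards [h3.isOpen_compl.mem_nhds (x := (x, y)) hj] with p hp hpF
    exact hp (hpF j)
  have hintev : ∀ (x : E) (y : Fin m → K), (∀ j, |y j| < 1) →
      ∀ᶠ p : E × (Fin m → K) in nhds (x, y), ∀ j, |p.2 j| < 1 := by
    intro x y h3
    rw [Filter.eventually_all]
    intro j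
    exact (isOpen_lt (f := fun p : E × (Fin m → K) => |p.2 j|) (by fun_prop)
      (by fun_prop)).mem_nhds (h3 j)
  -- the boundary family
  obtain ⟨R, hR, hRinv⟩ := cell_sys hN hT hU hnice (m := m)
    (F := fun x => {y | (∀ j, (x, y j) ∈ N) ∧ ∃ j, |y j| = 1})
    (by
      refine Def.and (Def.finite_all fun j => ?_) (Def.finite_ex fun j => Def.eq (by fun_prop)
        (by fun_prop))
      exact hN.def'.comp (g := fun p : E × (Fin m → K) => (p.1, p.2 j)) (by fun_prop))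
    (fun x _ y hy => hy.1)
    (by
      intro x _ y hy
      by_cases h1 : ∀ j, (x, y j) ∈ N
      · have h2 : ∀ j, |y j| < 1 := fun j => lt_of_le_of_ne (hN.bdd _ _ (h1 j))
          fun h => hy ⟨h1, j, h⟩
        filter_upwards [hintev x y h2] with p hp _ hpF
        obtain ⟨j, hj⟩ := hpF.2
        exact absurd hj (hp j).ne
      · filter_upwards [hNev x y h1] with p hp _ hpF
        exact hp hpF.1)
    (by
      rintro x hx y ⟨hy, j₀, hj₀⟩ δ hδ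
      filter_upwards [hbd x hx y hy j₀ hj₀ δ hδ] with x' hx' _
      obtain ⟨y', h1, h2, h3⟩ := hx'
      exact ⟨y', ⟨h1, j₀, h2⟩, h3⟩)
  -- the family of `P`
  obtain ⟨S, hS, hSinv⟩ := cell_sys hN hT hU hnice (m := m)
    (F := fun x => {y | (∀ j, (x, y j) ∈ N) ∧ ((∃ j, |y j| = 1) ∨ P x y)})
    (by
      refine Def.and (Def.finite_all fun j => ?_) (Def.or (Def.finite_ex fun j =>
        Def.eq (by fun_prop) (by fun_prop)) ?_)
      · exact hN.def'.comp (g := fun p : E × (Fin m → K) => (p.1, p.2 j)) (by fun_prop)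
      · exact hP)
    (fun x _ y hy => hy.1)
    (by
      intro x _ y hy
      by_cases h1 : ∀ j, (x, y j) ∈ N
      · have h2 : ∀ j, |y j| < 1 := fun j => lt_of_le_of_ne (hN.bdd _ _ (h1 j))
          fun h => hy ⟨h1, Or.inl ⟨j, h⟩⟩
        have h3 : ¬ P x y := fun h => hy ⟨h1, Or.inr h⟩
        filter_upwards [hintev x y h2, hcl x y h2 h3] with p hp hp2 _ hpF
        rcases hpF.2 with ⟨j, hj⟩ | h
        · exact absurd hj (hp j).ne
        · exact hp2 h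
      · filter_upwards [hNev x y h1] with p hp _ hpF
        exact hp hpF.1)
    (by
      rintro x hx y ⟨hy, hy2⟩ δ hδ
      by_cases h1 : ∃ j, |y j| = 1
      · obtain ⟨j₀, hj₀⟩ := h1
        filter_upwards [hbd x hx y hy j₀ hj₀ δ hδ] with x' hx' _
        obtain ⟨y', h1, h2, h3⟩ := hx'
        exact ⟨y', ⟨h1, Or.inl ⟨j₀, h2⟩⟩, h3⟩
      · have hPy : P x y := hy2.resolve_left h1
        push Not at h1
        have h3 : ∀ j, |y j| < 1 := fun j => lt_of_le_of_ne (hN.bdd _ _ (hy j)) (h1 j)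
        obtain ⟨ε, hε0, hεδ, hε⟩ : ∃ ε : K, 0 < ε ∧ ε ≤ δ ∧ ∀ j, |y j| + ε ≤ 1 := by
          rcases isEmpty_or_nonempty (Fin m) with hm | hm
          · exact ⟨δ, hδ, le_rfl, fun j => hm.elim j⟩
          · refine ⟨min δ (Finset.univ.inf' Finset.univ_nonempty fun j => 1 - |y j|), ?_,
              min_le_left _ _, fun j => ?_⟩
            · refine lt_min hδ ?_
              rw [Finset.lt_inf'_iff]
              intro j _
              linarith [h3 j]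
            · have h4 := (min_le_right δ (Finset.univ.inf' Finset.univ_nonempty fun j =>
                1 - |y j|)).trans (Finset.inf'_le _ (Finset.mem_univ j))
              linarith
        have h5 : ∀ᶠ x' in nhds x, ∃ y' : Fin m → K,
            ((∀ j, (x', y' j) ∈ N) ∧ P x' y') ∧ near y' y ε := by
          by_contra hcon
          exact hx.2 (subset_closure ⟨ε, hε0, y, ⟨hy, hε, hPy⟩, hcon⟩)
        filter_upwards [h5] with x' hx' _
        obtain ⟨y', ⟨k1, k2⟩, k3⟩ := hx'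
        exact ⟨y', ⟨k1, Or.inr k2⟩, k3.mono hεδ⟩)
  refine Tame.of_systems hU hR hS ?_ ?_ hN
  · intro z hz z' hz' hgood h
    exact (hRinv z hz z' hz' hgood ⟨hz.2, h⟩).2
  · intro z hz z' hz' hgood h
    exact (hSinv z hz z' hz' hgood ⟨hz.2, h⟩).2

end

end Pool.Agent.IMinK
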